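import Pool.Agent.helper14.NR.E6a.PN1

/-!
Generated: certificates.
-/

namespace Pool.Agent.helper14.NR.E6a

open Pool.Agent.helper31.IA (Z)
open Pool.Agent.helper31.IX (Op XOps runX Cov CovD cov_split covD_split)
open Pool.Agent.helper31.IC (TD)
open Pool.Agent.helper63.RG (reloc)
open Pool.Agent.helper63.NF hiding TD
open Pool.Agent.helper14.CF (xE covD_E)
open Pool.Agent.helper14.NR (share)

mutual
theorem A1_c0_t7 : CovD 1 gA1 [(146028888064, 8589934592), (137438953472, 137438953472), (85899345920, 85899345920)] :=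
  covD_E kA1_eq (.n 2 (.l 2) (.n 2 (.l 2) (.n 1 (.n 1 (.n 1 (.n 1 (.n 0 (.n 1 (.l 0) (.l 0)) (.n 1 (.l 0) (.l 0))) (.n 2 (.n 0 (.l 0) (.l 0)) (.l 0))) (.n 1 (.n 1 (.l 0) (.l 0)) (.l 0))) (.n 1 (.l 0) (.l 0))) (.n 1 (.l 0) (.l 0)))))
    [(146028888064, 8589934592), (137438953472, 137438953472), (85899345920, 85899345920)] rfl (by decide +kernel)
theorem A1_c0_t11 : CovD 1 gA1 [(146028888064, 8589934592), (17179869184, 17179869184), (257698037760, 85899345920)] :=
  covD_E kA1_eq (.n 1 (.n 2 (.n 0 (.n 2 (.l 0) (.l 0)) (.n 2 (.l 0) (.l 0))) (.n 2 (.l 0) (.l 0))) (.n 2 (.n 2 (.n 0 (.l 0) (.l 0)) (.l 0)) (.n 2 (.l 0) (.l 0))))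
    [(146028888064, 8589934592), (17179869184, 17179869184), (257698037760, 85899345920)] rfl (by decide +kernel)
end

mutual
theorem A1_c0_t12 : CovD 1 gA1 [(146028888064, 8589934592), (51539607552, 17179869184), (257698037760, 85899345920)] :=
  covD_E kA1_eq (.n 2 (.n 1 (.n 2 (.l 0) (.l 0)) (.n 2 (.l 0) (.l 0))) (.n 2 (.l 0) (.l 0)))
    [(146028888064, 8589934592), (51539607552, 17179869184), (257698037760, 85899345920)] rfl (by decide +kernel)
theorem A1_c0_t13 : CovD 1 gA1 [(146028888064, 8589934592), (103079215104, 34359738368), (257698037760, 85899345920)] :=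
  covD_E kA1_eq (.n 1 (.n 2 (.n 2 (.l 0) (.l 0)) (.n 1 (.l 0) (.l 0))) (.n 2 (.l 0) (.l 0)))
    [(146028888064, 8589934592), (103079215104, 34359738368), (257698037760, 85899345920)] rfl (by decide +kernel)
end

mutual
theorem A1_c0_t14 : CovD 1 gA1 [(146028888064, 8589934592), (206158430208, 68719476736), (257698037760, 85899345920)] :=
  covD_E kA1_eq (.n 1 (.n 0 (.n 2 (.l 0) (.l 0)) (.n 2 (.l 0) (.l 0))) (.n 2 (.l 0) (.l 0)))
    [(146028888064, 8589934592), (206158430208, 68719476736), (257698037760, 85899345920)] rfl (by decide +kernel)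
theorem A1_c0_t17 : CovD 1 gA1 [(146028888064, 8589934592), (68719476736, 68719476736), (429496729600, 85899345920)] :=
  covD_E kA1_eq (.n 1 (.n 1 (.n 2 (.n 2 (.l 0) (.l 0)) (.n 0 (.l 0) (.l 0))) (.n 1 (.n 2 (.l 0) (.l 0)) (.n 2 (.l 0) (.l 0)))) (.n 1 (.n 2 (.n 0 (.l 0) (.l 0)) (.l 0)) (.n 2 (.l 0) (.l 0))))
    [(146028888064, 8589934592), (68719476736, 68719476736), (429496729600, 85899345920)] rfl (by decide +kernel)
end

mutual
theorem A1_c0_t18 : CovD 1 gA1 [(146028888064, 8589934592), (206158430208, 68719476736), (429496729600, 85899345920)] :=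
  covD_E kA1_eq (.n 1 (.n 0 (.n 2 (.l 0) (.l 0)) (.n 2 (.l 0) (.l 0))) (.n 2 (.l 0) (.l 0)))
    [(146028888064, 8589934592), (206158430208, 68719476736), (429496729600, 85899345920)] rfl (by decide +kernel)
theorem A1_c0_t19 : CovD 1 gA1 [(146028888064, 8589934592), (137438953472, 137438953472), (601295421440, 85899345920)] :=
  covD_E kA1_eq (.n 1 (.n 1 (.n 2 (.n 1 (.n 0 (.l 0) (.l 0)) (.l 0)) (.n 2 (.l 0) (.l 0))) (.n 0 (.n 2 (.l 0) (.l 0)) (.n 2 (.l 0) (.l 0)))) (.n 1 (.n 0 (.n 2 (.l 0) (.l 0)) (.n 2 (.l 0) (.l 0))) (.n 2 (.l 0) (.l 0))))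
    [(146028888064, 8589934592), (137438953472, 137438953472), (601295421440, 85899345920)] rfl (by decide +kernel)
end

mutual
theorem A1_c0_t22 : CovD 1 gA1 [(146028888064, 8589934592), (34359738368, 34359738368), (1030792151040, 343597383680)] :=
  covD_E kA1_eq (.n 2 (.n 0 (.n 2 (.n 2 (.l 0) (.l 0)) (.n 2 (.l 0) (.l 0))) (.n 2 (.n 2 (.l 0) (.l 0)) (.n 2 (.l 0) (.l 0)))) (.n 2 (.n 2 (.l 0) (.l 0)) (.n 0 (.l 0) (.l 0))))
    [(146028888064, 8589934592), (34359738368, 34359738368), (1030792151040, 343597383680)] rfl (by decide +kernel)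
theorem A1_c0_t23 : CovD 1 gA1 [(146028888064, 8589934592), (103079215104, 34359738368), (1030792151040, 343597383680)] :=
  covD_E kA1_eq (.n 2 (.n 2 (.n 0 (.n 2 (.l 0) (.l 0)) (.n 2 (.l 0) (.l 0))) (.n 2 (.l 0) (.l 0))) (.n 2 (.n 2 (.l 0) (.l 0)) (.n 0 (.l 0) (.l 0))))
    [(146028888064, 8589934592), (103079215104, 34359738368), (1030792151040, 343597383680)] rfl (by decide +kernel)
end

mutual
theorem A1_c0_t24 : CovD 1 gA1 [(146028888064, 8589934592), (206158430208, 68719476736), (1030792151040, 343597383680)] :=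
  covD_E kA1_eq (.n 1 (.n 2 (.n 2 (.n 2 (.l 0) (.l 0)) (.n 2 (.l 0) (.l 0))) (.n 2 (.n 2 (.l 0) (.l 0)) (.n 0 (.l 0) (.l 0)))) (.n 2 (.n 2 (.n 2 (.l 0) (.l 0)) (.n 2 (.l 0) (.l 0))) (.n 0 (.n 2 (.l 0) (.l 0)) (.n 2 (.l 0) (.l 0)))))
    [(146028888064, 8589934592), (206158430208, 68719476736), (1030792151040, 343597383680)] rfl (by decide +kernel)
theorem A1_c0_t26 : CovD 1 gA1 [(146028888064, 8589934592), (68719476736, 68719476736), (2061584302080, 687194767360)] :=
  covD_E kA1_eq (.n 1 (.n 2 (.n 2 (.n 2 (.n 0 (.l 0) (.l 0)) (.l 0)) (.n 0 (.l 0) (.l 0))) (.n 2 (.n 0 (.l 0) (.l 0)) (.l 0))) (.n 2 (.n 2 (.n 2 (.n 0 (.l 0) (.l 0)) (.l 0)) (.n 0 (.l 0) (.l 0))) (.n 2 (.n 0 (.l 0) (.l 0)) (.l 0))))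
    [(146028888064, 8589934592), (68719476736, 68719476736), (2061584302080, 687194767360)] rfl (by decide +kernel)
end

mutual
theorem A1_c0_t28 : CovD 1 gA1 [(146028888064, 8589934592), (171798691840, 34359738368), (2061584302080, 687194767360)] :=
  covD_E kA1_eq (.n 2 (.n 2 (.n 2 (.n 0 (.l 0) (.l 0)) (.l 0)) (.n 0 (.l 0) (.l 0))) (.n 2 (.n 0 (.l 0) (.l 0)) (.l 0)))
    [(146028888064, 8589934592), (171798691840, 34359738368), (2061584302080, 687194767360)] rfl (by decide +kernel)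
theorem A1_c0_t29 : CovD 1 gA1 [(146028888064, 8589934592), (240518168576, 34359738368), (2061584302080, 687194767360)] :=
  covD_E kA1_eq (.n 2 (.n 2 (.n 2 (.n 0 (.l 0) (.l 0)) (.l 0)) (.n 2 (.l 0) (.l 0))) (.n 0 (.n 2 (.l 0) (.l 0)) (.n 2 (.l 0) (.l 0))))
    [(146028888064, 8589934592), (240518168576, 34359738368), (2061584302080, 687194767360)] rfl (by decide +kernel)
end

mutual
theorem A1_c0_t32 : CovD 1 gA1 [(146028888064, 8589934592), (68719476736, 68719476736), (3435973836800, 687194767360)] :=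
  covD_E kA1_eq (.n 1 (.n 2 (.n 2 (.l 0) (.l 0)) (.n 0 (.l 0) (.l 0))) (.n 2 (.n 2 (.l 0) (.l 0)) (.n 0 (.l 0) (.l 0))))
    [(146028888064, 8589934592), (68719476736, 68719476736), (3435973836800, 687194767360)] rfl (by decide +kernel)
theorem A1_c0_t33 : CovD 1 gA1 [(146028888064, 8589934592), (206158430208, 68719476736), (3435973836800, 687194767360)] :=
  covD_E kA1_eq (.n 1 (.n 2 (.n 2 (.l 0) (.l 0)) (.n 0 (.n 0 (.l 0) (.l 0)) (.l 0))) (.n 2 (.n 2 (.l 0) (.l 0)) (.n 0 (.n 2 (.l 0) (.l 0)) (.l 0))))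
    [(146028888064, 8589934592), (206158430208, 68719476736), (3435973836800, 687194767360)] rfl (by decide +kernel)
end

mutual
theorem A1_c0_t35 : CovD 1 gA1 [(146028888064, 8589934592), (68719476736, 68719476736), (4810363371520, 687194767360)] :=
  covD_E kA1_eq (.n 2 (.n 0 (.n 2 (.n 1 (.n 0 (.n 2 (.l 0) (.l 0)) (.l 0)) (.n 2 (.l 0) (.l 1))) (.l 1)) (.n 2 (.n 1 (.l 0) (.n 2 (.l 0) (.l 1))) (.l 1))) (.l 1))
    [(146028888064, 8589934592), (68719476736, 68719476736), (4810363371520, 687194767360)] rfl (by decide +kernel)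
theorem A1_c0_t36 : CovD 1 gA1 [(146028888064, 8589934592), (206158430208, 68719476736), (4810363371520, 687194767360)] :=
  covD_E kA1_eq (.n 2 (.n 2 (.n 1 (.n 0 (.n 2 (.n 0 (.n 0 (.l 0) (.l 0)) (.l 0)) (.l 1)) (.n 2 (.l 0) (.l 1))) (.n 2 (.n 0 (.n 2 (.l 0) (.n 0 (.l 1) (.l 0))) (.n 0 (.l 0) (.l 0))) (.l 1))) (.l 1)) (.l 1))
    [(146028888064, 8589934592), (206158430208, 68719476736), (4810363371520, 687194767360)] rfl (by decide +kernel)
end

mutual
theorem A1_c0_t42 : CovD 1 gA1 [(163208757248, 8589934592), (137438953472, 137438953472), (85899345920, 85899345920)] :=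
  covD_E kA1_eq (.n 2 (.l 2) (.n 2 (.l 2) (.n 1 (.n 1 (.n 1 (.n 1 (.n 0 (.n 1 (.l 0) (.l 0)) (.n 1 (.l 0) (.l 0))) (.n 2 (.n 0 (.l 0) (.l 0)) (.l 0))) (.n 1 (.n 1 (.l 0) (.l 0)) (.l 0))) (.n 1 (.l 0) (.l 0))) (.n 1 (.l 0) (.l 0)))))
    [(163208757248, 8589934592), (137438953472, 137438953472), (85899345920, 85899345920)] rfl (by decide +kernel)
theorem A1_c0_t45 : CovD 1 gA1 [(163208757248, 8589934592), (34359738368, 34359738368), (257698037760, 85899345920)] :=
  covD_E kA1_eq (.n 1 (.n 1 (.n 2 (.n 2 (.n 0 (.l 0) (.l 0)) (.l 0)) (.n 2 (.l 0) (.l 0))) (.n 2 (.n 2 (.n 0 (.l 0) (.l 0)) (.l 0)) (.n 2 (.l 0) (.l 0)))) (.n 2 (.n 1 (.n 2 (.l 0) (.l 0)) (.n 2 (.l 0) (.l 0))) (.n 2 (.l 0) (.l 0))))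
    [(163208757248, 8589934592), (34359738368, 34359738368), (257698037760, 85899345920)] rfl (by decide +kernel)
end

mutual
theorem A1_c0_t46 : CovD 1 gA1 [(163208757248, 8589934592), (103079215104, 34359738368), (257698037760, 85899345920)] :=
  covD_E kA1_eq (.n 1 (.n 2 (.n 2 (.l 0) (.l 0)) (.n 1 (.l 0) (.l 0))) (.n 2 (.l 0) (.l 0)))
    [(163208757248, 8589934592), (103079215104, 34359738368), (257698037760, 85899345920)] rfl (by decide +kernel)
theorem A1_c0_t47 : CovD 1 gA1 [(163208757248, 8589934592), (206158430208, 68719476736), (257698037760, 85899345920)] :=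
  covD_E kA1_eq (.n 1 (.n 0 (.n 2 (.l 0) (.l 0)) (.n 2 (.l 0) (.l 0))) (.n 2 (.l 0) (.l 0)))
    [(163208757248, 8589934592), (206158430208, 68719476736), (257698037760, 85899345920)] rfl (by decide +kernel)
end

mutual
theorem A1_c0_t50 : CovD 1 gA1 [(163208757248, 8589934592), (34359738368, 34359738368), (515396075520, 171798691840)] :=
  covD_E kA1_eq (.n 1 (.n 2 (.n 2 (.n 2 (.l 0) (.l 0)) (.n 0 (.l 0) (.l 0))) (.n 0 (.n 2 (.l 0) (.l 0)) (.n 2 (.l 0) (.l 0)))) (.n 2 (.n 2 (.n 2 (.l 0) (.l 0)) (.n 0 (.l 0) (.l 0))) (.n 2 (.n 0 (.l 0) (.l 0)) (.l 0))))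
    [(163208757248, 8589934592), (34359738368, 34359738368), (515396075520, 171798691840)] rfl (by decide +kernel)
theorem A1_c0_t51 : CovD 1 gA1 [(163208757248, 8589934592), (103079215104, 34359738368), (515396075520, 171798691840)] :=
  covD_E kA1_eq (.n 2 (.n 2 (.n 1 (.n 0 (.l 0) (.l 0)) (.l 0)) (.n 2 (.l 0) (.l 0))) (.n 0 (.n 2 (.l 0) (.l 0)) (.n 2 (.l 0) (.l 0))))
    [(163208757248, 8589934592), (103079215104, 34359738368), (515396075520, 171798691840)] rfl (by decide +kernel)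
end

mutual
theorem A1_c0_t52 : CovD 1 gA1 [(163208757248, 8589934592), (206158430208, 68719476736), (515396075520, 171798691840)] :=
  covD_E kA1_eq (.n 1 (.n 0 (.n 2 (.n 2 (.l 0) (.l 0)) (.n 2 (.l 0) (.l 0))) (.n 2 (.n 2 (.l 0) (.l 0)) (.n 2 (.l 0) (.l 0)))) (.n 2 (.n 2 (.l 0) (.l 0)) (.n 2 (.l 0) (.l 0))))
    [(163208757248, 8589934592), (206158430208, 68719476736), (515396075520, 171798691840)] rfl (by decide +kernel)
theorem A1_c0_t55 : CovD 1 gA1 [(163208757248, 8589934592), (34359738368, 34359738368), (1030792151040, 343597383680)] :=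
  covD_E kA1_eq (.n 2 (.n 2 (.n 2 (.n 2 (.l 0) (.l 0)) (.n 0 (.l 0) (.l 0))) (.n 0 (.n 2 (.l 0) (.l 0)) (.n 2 (.l 0) (.l 0)))) (.n 2 (.n 2 (.n 0 (.l 0) (.l 0)) (.l 0)) (.n 0 (.l 0) (.l 0))))
    [(163208757248, 8589934592), (34359738368, 34359738368), (1030792151040, 343597383680)] rfl (by decide +kernel)
end

mutual
theorem A1_c0_t56 : CovD 1 gA1 [(163208757248, 8589934592), (103079215104, 34359738368), (1030792151040, 343597383680)] :=
  covD_E kA1_eq (.n 2 (.n 2 (.n 0 (.n 2 (.l 0) (.l 0)) (.n 2 (.l 0) (.l 0))) (.n 2 (.n 0 (.l 0) (.l 0)) (.l 0))) (.n 2 (.n 2 (.l 0) (.l 0)) (.n 0 (.l 0) (.l 0))))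
    [(163208757248, 8589934592), (103079215104, 34359738368), (1030792151040, 343597383680)] rfl (by decide +kernel)
theorem A1_c0_t58 : CovD 1 gA1 [(163208757248, 8589934592), (171798691840, 34359738368), (1030792151040, 343597383680)] :=
  covD_E kA1_eq (.n 2 (.n 2 (.n 0 (.n 2 (.l 0) (.l 0)) (.n 2 (.l 0) (.l 0))) (.n 2 (.l 0) (.l 0))) (.n 2 (.n 2 (.l 0) (.l 0)) (.n 0 (.l 0) (.l 0))))
    [(163208757248, 8589934592), (171798691840, 34359738368), (1030792151040, 343597383680)] rfl (by decide +kernel)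
end

mutual
theorem A1_c0_t59 : CovD 1 gA1 [(163208757248, 8589934592), (240518168576, 34359738368), (1030792151040, 343597383680)] :=
  covD_E kA1_eq (.n 2 (.n 2 (.n 2 (.l 0) (.l 0)) (.n 2 (.l 0) (.l 0))) (.n 1 (.n 2 (.l 0) (.l 0)) (.n 2 (.l 0) (.l 0))))
    [(163208757248, 8589934592), (240518168576, 34359738368), (1030792151040, 343597383680)] rfl (by decide +kernel)
theorem A1_c0_t61 : CovD 1 gA1 [(163208757248, 8589934592), (68719476736, 68719476736), (2061584302080, 687194767360)] :=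
  covD_E kA1_eq (.n 1 (.n 2 (.n 2 (.n 2 (.n 0 (.l 0) (.l 0)) (.l 0)) (.n 0 (.l 0) (.l 0))) (.n 2 (.l 0) (.l 0))) (.n 2 (.n 2 (.n 2 (.l 0) (.l 0)) (.n 0 (.l 0) (.l 0))) (.n 2 (.l 0) (.l 0))))
    [(163208757248, 8589934592), (68719476736, 68719476736), (2061584302080, 687194767360)] rfl (by decide +kernel)
end

mutual
theorem A1_c0_t62 : CovD 1 gA1 [(163208757248, 8589934592), (206158430208, 68719476736), (2061584302080, 687194767360)] :=
  covD_E kA1_eq (.n 1 (.n 2 (.n 2 (.n 2 (.l 0) (.l 0)) (.n 0 (.l 0) (.l 0))) (.n 2 (.l 0) (.l 0))) (.n 2 (.n 2 (.n 2 (.n 0 (.l 0) (.l 0)) (.l 0)) (.n 0 (.l 0) (.l 0))) (.n 2 (.n 0 (.l 0) (.l 0)) (.l 0))))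
    [(163208757248, 8589934592), (206158430208, 68719476736), (2061584302080, 687194767360)] rfl (by decide +kernel)
theorem A1_c0_t64 : CovD 1 gA1 [(163208757248, 8589934592), (68719476736, 68719476736), (4123168604160, 1374389534720)] :=
  covD_E kA1_eq (.n 2 (.n 0 (.n 1 (.n 2 (.l 0) (.l 0)) (.n 2 (.l 0) (.l 0))) (.n 1 (.n 2 (.l 0) (.l 0)) (.n 2 (.l 0) (.l 0)))) (.n 2 (.n 1 (.n 2 (.l 0) (.l 1)) (.n 2 (.n 0 (.l 0) (.l 0)) (.l 1))) (.l 1)))
    [(163208757248, 8589934592), (68719476736, 68719476736), (4123168604160, 1374389534720)] rfl (by decide +kernel)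
end

mutual
theorem A1_c0_t65 : CovD 1 gA1 [(163208757248, 8589934592), (206158430208, 68719476736), (4123168604160, 1374389534720)] :=
  covD_E kA1_eq (.n 2 (.n 1 (.n 2 (.n 2 (.l 0) (.l 0)) (.n 0 (.l 0) (.l 0))) (.n 2 (.n 2 (.l 0) (.l 0)) (.n 0 (.l 0) (.l 0)))) (.n 2 (.n 2 (.n 1 (.n 0 (.n 2 (.l 0) (.l 1)) (.l 0)) (.n 2 (.l 0) (.l 1))) (.l 1)) (.l 1)))
    [(163208757248, 8589934592), (206158430208, 68719476736), (4123168604160, 1374389534720)] rfl (by decide +kernel)
theorem A1_c0_t67 : CovD 1 gA1 [(146028888064, 8589934592), (137438953472, 137438953472), (8246337208320, 2748779069440)] :=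
  covD_E kA1_eq (.n 1 (.n 2 (.n 2 (.n 2 (.l 1) (.l 1)) (.n 0 (.l 1) (.l 1))) (.n 0 (.n 2 (.l 1) (.l 1)) (.n 2 (.l 1) (.l 1)))) (.n 0 (.n 2 (.n 2 (.l 1) (.l 1)) (.n 2 (.l 1) (.l 1))) (.n 2 (.n 2 (.l 1) (.l 1)) (.n 2 (.l 1) (.l 1)))))
    [(146028888064, 8589934592), (137438953472, 137438953472), (8246337208320, 2748779069440)] rfl (by decide +kernel)
end

mutual
theorem A1_c0_t68 : CovD 1 gA1 [(163208757248, 8589934592), (137438953472, 137438953472), (8246337208320, 2748779069440)] :=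
  covD_E kA1_eq (.n 1 (.n 1 (.n 2 (.n 2 (.l 1) (.l 1)) (.n 2 (.l 1) (.l 1))) (.n 2 (.n 2 (.l 1) (.l 1)) (.n 2 (.l 1) (.l 1)))) (.n 2 (.n 0 (.n 2 (.l 1) (.l 1)) (.n 2 (.l 1) (.l 1))) (.n 2 (.n 0 (.l 1) (.l 1)) (.l 1))))
    [(163208757248, 8589934592), (137438953472, 137438953472), (8246337208320, 2748779069440)] rfl (by decide +kernel)
theorem B1_c0_t4 : CovD 1 gB1 [(154618822656, 17179869184), (17179869184, 17179869184), (27487895552, 27487895552)] :=
  covD_E kB1_eq (.n 2 (.n 2 (.n 2 (.l 1) (.l 1)) (.n 2 (.l 1) (.l 1))) (.n 2 (.n 2 (.l 1) (.l 1)) (.n 0 (.l 1) (.l 1))))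
    [(154618822656, 17179869184), (17179869184, 17179869184), (27487895552, 27487895552)] rfl (by decide +kernel)
end

mutual
theorem B1_c0_t5 : CovD 1 gB1 [(154618822656, 17179869184), (51539607552, 17179869184), (27487895552, 27487895552)] :=
  covD_E kB1_eq (.n 2 (.n 2 (.n 2 (.l 1) (.n 0 (.l 1) (.l 1))) (.n 0 (.n 2 (.l 1) (.l 1)) (.n 2 (.l 1) (.l 1)))) (.n 2 (.n 0 (.n 2 (.l 1) (.l 1)) (.n 1 (.l 1) (.l 1))) (.n 2 (.l 1) (.l 1))))
    [(154618822656, 17179869184), (51539607552, 17179869184), (27487895552, 27487895552)] rfl (by decide +kernel)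
theorem B1_c0_t6 : CovD 1 gB1 [(154618822656, 17179869184), (34359738368, 34359738368), (82463686656, 27487895552)] :=
  covD_E kB1_eq (.n 0 (.n 2 (.n 1 (.n 2 (.l 1) (.l 1)) (.n 2 (.l 1) (.l 1))) (.n 2 (.l 1) (.l 1))) (.n 2 (.n 0 (.n 2 (.l 1) (.l 1)) (.n 2 (.l 1) (.l 1))) (.n 2 (.l 1) (.l 1))))
    [(154618822656, 17179869184), (34359738368, 34359738368), (82463686656, 27487895552)] rfl (by decide +kernel)
end

mutual
theorem B1_c0_t9 : CovD 1 gB1 [(154618822656, 17179869184), (103079215104, 34359738368), (13743947776, 13743947776)] :=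
  covD_E kB1_eq (.n 1 (.n 0 (.n 2 (.n 2 (.l 1) (.l 1)) (.n 2 (.l 1) (.l 1))) (.n 2 (.n 2 (.l 1) (.l 1)) (.n 2 (.l 1) (.l 1)))) (.n 2 (.n 2 (.n 2 (.l 1) (.l 1)) (.n 2 (.l 1) (.l 1))) (.n 2 (.n 2 (.l 1) (.l 1)) (.n 2 (.l 1) (.l 1)))))
    [(154618822656, 17179869184), (103079215104, 34359738368), (13743947776, 13743947776)] rfl (by decide +kernel)
theorem B1_c0_t10 : CovD 1 gB1 [(154618822656, 17179869184), (103079215104, 34359738368), (41231843328, 13743947776)] :=
  covD_E kB1_eq (.n 0 (.n 1 (.n 2 (.n 2 (.l 1) (.l 1)) (.n 2 (.l 1) (.l 1))) (.n 2 (.n 2 (.l 1) (.l 1)) (.n 2 (.l 1) (.l 1)))) (.n 2 (.n 1 (.n 2 (.l 1) (.l 1)) (.n 2 (.l 1) (.l 1))) (.n 2 (.l 1) (.l 1))))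
    [(154618822656, 17179869184), (103079215104, 34359738368), (41231843328, 13743947776)] rfl (by decide +kernel)
end

mutual
theorem B1_c0_t11 : CovD 1 gB1 [(154618822656, 17179869184), (103079215104, 34359738368), (82463686656, 27487895552)] :=
  covD_E kB1_eq (.n 0 (.n 2 (.n 2 (.n 2 (.l 1) (.l 1)) (.n 0 (.l 1) (.l 1))) (.n 2 (.l 1) (.l 1))) (.n 2 (.n 1 (.n 2 (.l 1) (.l 1)) (.n 2 (.l 1) (.l 1))) (.n 2 (.l 1) (.l 1))))
    [(154618822656, 17179869184), (103079215104, 34359738368), (82463686656, 27487895552)] rfl (by decide +kernel)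
theorem B1_c0_t16 : CovD 1 gB1 [(154618822656, 17179869184), (171798691840, 34359738368), (6871973888, 6871973888)] :=
  covD_E kB1_eq (.n 1 (.n 2 (.n 2 (.l 1) (.n 0 (.l 1) (.l 1))) (.n 0 (.n 1 (.l 1) (.l 1)) (.l 1))) (.n 0 (.n 2 (.n 2 (.l 1) (.l 1)) (.n 2 (.l 1) (.l 1))) (.n 1 (.n 2 (.l 1) (.l 1)) (.n 2 (.l 1) (.l 1)))))
    [(154618822656, 17179869184), (171798691840, 34359738368), (6871973888, 6871973888)] rfl (by decide +kernel)
end

mutual
theorem B1_c0_t17 : CovD 1 gB1 [(154618822656, 17179869184), (171798691840, 34359738368), (20615921664, 6871973888)] :=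
  covD_E kB1_eq (.n 0 (.n 1 (.n 0 (.n 2 (.l 1) (.l 1)) (.n 2 (.l 1) (.l 1))) (.n 2 (.n 2 (.l 1) (.l 1)) (.n 0 (.l 1) (.l 1)))) (.n 2 (.n 2 (.l 1) (.l 1)) (.n 1 (.l 1) (.l 1))))
    [(154618822656, 17179869184), (171798691840, 34359738368), (20615921664, 6871973888)] rfl (by decide +kernel)
theorem B1_c0_t18 : CovD 1 gB1 [(154618822656, 17179869184), (171798691840, 34359738368), (41231843328, 13743947776)] :=
  covD_E kB1_eq (.n 0 (.n 2 (.n 1 (.n 2 (.l 1) (.l 1)) (.n 2 (.l 1) (.l 1))) (.n 2 (.n 0 (.l 1) (.l 1)) (.l 1))) (.n 2 (.n 1 (.n 2 (.l 1) (.l 1)) (.n 2 (.l 1) (.l 1))) (.n 2 (.n 0 (.l 1) (.l 1)) (.l 1))))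
    [(154618822656, 17179869184), (171798691840, 34359738368), (41231843328, 13743947776)] rfl (by decide +kernel)
end

mutual
theorem B1_c0_t19 : CovD 1 gB1 [(154618822656, 17179869184), (171798691840, 34359738368), (82463686656, 27487895552)] :=
  covD_E kB1_eq (.n 0 (.n 2 (.n 2 (.n 2 (.l 1) (.l 1)) (.n 0 (.l 1) (.l 1))) (.n 2 (.l 1) (.l 1))) (.n 2 (.n 1 (.n 2 (.l 1) (.l 1)) (.n 2 (.l 1) (.l 1))) (.n 2 (.l 1) (.l 1))))
    [(154618822656, 17179869184), (171798691840, 34359738368), (82463686656, 27487895552)] rfl (by decide +kernel)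
theorem B1_c0_t23 : CovD 1 gB1 [(146028888064, 8589934592), (240518168576, 34359738368), (13743947776, 13743947776)] :=
  covD_E kB1_eq (.n 2 (.n 1 (.n 2 (.n 2 (.l 1) (.l 1)) (.n 2 (.l 1) (.l 1))) (.n 2 (.n 2 (.l 1) (.l 1)) (.n 2 (.l 1) (.l 1)))) (.n 2 (.n 0 (.n 2 (.l 1) (.l 1)) (.n 1 (.l 1) (.l 1))) (.n 2 (.l 1) (.l 1))))
    [(146028888064, 8589934592), (240518168576, 34359738368), (13743947776, 13743947776)] rfl (by decide +kernel)
end

mutual
theorem B1_c0_t24 : CovD 1 gB1 [(146028888064, 8589934592), (240518168576, 34359738368), (41231843328, 13743947776)] :=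
  covD_E kB1_eq (.n 2 (.n 1 (.n 2 (.l 1) (.l 1)) (.n 2 (.l 1) (.l 1))) (.n 2 (.l 1) (.l 1)))
    [(146028888064, 8589934592), (240518168576, 34359738368), (41231843328, 13743947776)] rfl (by decide +kernel)
theorem B1_c0_t25 : CovD 1 gB1 [(146028888064, 8589934592), (240518168576, 34359738368), (82463686656, 27487895552)] :=
  covD_E kB1_eq (.n 2 (.n 2 (.n 0 (.l 1) (.l 1)) (.l 1)) (.n 2 (.l 1) (.l 1)))
    [(146028888064, 8589934592), (240518168576, 34359738368), (82463686656, 27487895552)] rfl (by decide +kernel)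
end

mutual
theorem B1_c0_t27 : CovD 1 gB1 [(163208757248, 8589934592), (240518168576, 34359738368), (27487895552, 27487895552)] :=
  covD_E kB1_eq (.n 2 (.n 2 (.n 2 (.n 2 (.l 1) (.n 0 (.l 1) (.l 1))) (.n 2 (.l 1) (.l 1))) (.n 2 (.n 2 (.l 1) (.l 1)) (.n 1 (.l 1) (.l 1)))) (.n 2 (.n 2 (.l 1) (.l 1)) (.n 2 (.l 1) (.l 1))))
    [(163208757248, 8589934592), (240518168576, 34359738368), (27487895552, 27487895552)] rfl (by decide +kernel)
theorem B1_c0_t28 : CovD 1 gB1 [(163208757248, 8589934592), (240518168576, 34359738368), (82463686656, 27487895552)] :=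
  covD_E kB1_eq (.n 2 (.n 2 (.n 0 (.l 1) (.l 1)) (.l 1)) (.n 2 (.l 1) (.l 1)))
    [(163208757248, 8589934592), (240518168576, 34359738368), (82463686656, 27487895552)] rfl (by decide +kernel)
end

theorem A1_c0_t10 : CovD 1 gA1 [(146028888064, 8589934592), (34359738368, 34359738368), (257698037760, 85899345920)] :=
  covD_split 1 (by decide +kernel) A1_c0_t11 A1_c0_t12

theorem A1_c0_t9 : CovD 1 gA1 [(146028888064, 8589934592), (68719476736, 68719476736), (257698037760, 85899345920)] :=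
  covD_split 1 (by decide +kernel) A1_c0_t10 A1_c0_t13

theorem A1_c0_t8 : CovD 1 gA1 [(146028888064, 8589934592), (137438953472, 137438953472), (257698037760, 85899345920)] :=
  covD_split 1 (by decide +kernel) A1_c0_t9 A1_c0_t14

theorem A1_c0_t6 : CovD 1 gA1 [(146028888064, 8589934592), (137438953472, 137438953472), (171798691840, 171798691840)] :=
  covD_split 2 (by decide +kernel) A1_c0_t7 A1_c0_t8

theorem A1_c0_t16 : CovD 1 gA1 [(146028888064, 8589934592), (137438953472, 137438953472), (429496729600, 85899345920)] :=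
  covD_split 1 (by decide +kernel) A1_c0_t17 A1_c0_t18

theorem A1_c0_t15 : CovD 1 gA1 [(146028888064, 8589934592), (137438953472, 137438953472), (515396075520, 171798691840)] :=
  covD_split 2 (by decide +kernel) A1_c0_t16 A1_c0_t19

theorem A1_c0_t5 : CovD 1 gA1 [(146028888064, 8589934592), (137438953472, 137438953472), (343597383680, 343597383680)] :=
  covD_split 2 (by decide +kernel) A1_c0_t6 A1_c0_t15

theorem A1_c0_t21 : CovD 1 gA1 [(146028888064, 8589934592), (68719476736, 68719476736), (1030792151040, 343597383680)] :=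
  covD_split 1 (by decide +kernel) A1_c0_t22 A1_c0_t23

theorem A1_c0_t20 : CovD 1 gA1 [(146028888064, 8589934592), (137438953472, 137438953472), (1030792151040, 343597383680)] :=
  covD_split 1 (by decide +kernel) A1_c0_t21 A1_c0_t24

theorem A1_c0_t4 : CovD 1 gA1 [(146028888064, 8589934592), (137438953472, 137438953472), (687194767360, 687194767360)] :=
  covD_split 2 (by decide +kernel) A1_c0_t5 A1_c0_t20

theorem A1_c0_t27 : CovD 1 gA1 [(146028888064, 8589934592), (206158430208, 68719476736), (2061584302080, 687194767360)] :=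
  covD_split 1 (by decide +kernel) A1_c0_t28 A1_c0_t29

theorem A1_c0_t25 : CovD 1 gA1 [(146028888064, 8589934592), (137438953472, 137438953472), (2061584302080, 687194767360)] :=
  covD_split 1 (by decide +kernel) A1_c0_t26 A1_c0_t27

theorem A1_c0_t3 : CovD 1 gA1 [(146028888064, 8589934592), (137438953472, 137438953472), (1374389534720, 1374389534720)] :=
  covD_split 2 (by decide +kernel) A1_c0_t4 A1_c0_t25

theorem A1_c0_t31 : CovD 1 gA1 [(146028888064, 8589934592), (137438953472, 137438953472), (3435973836800, 687194767360)] :=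
  covD_split 1 (by decide +kernel) A1_c0_t32 A1_c0_t33

theorem A1_c0_t34 : CovD 1 gA1 [(146028888064, 8589934592), (137438953472, 137438953472), (4810363371520, 687194767360)] :=
  covD_split 1 (by decide +kernel) A1_c0_t35 A1_c0_t36

theorem A1_c0_t30 : CovD 1 gA1 [(146028888064, 8589934592), (137438953472, 137438953472), (4123168604160, 1374389534720)] :=
  covD_split 2 (by decide +kernel) A1_c0_t31 A1_c0_t34

theorem A1_c0_t2 : CovD 1 gA1 [(146028888064, 8589934592), (137438953472, 137438953472), (2748779069440, 2748779069440)] :=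
  covD_split 2 (by decide +kernel) A1_c0_t3 A1_c0_t30

theorem A1_c0_t44 : CovD 1 gA1 [(163208757248, 8589934592), (68719476736, 68719476736), (257698037760, 85899345920)] :=
  covD_split 1 (by decide +kernel) A1_c0_t45 A1_c0_t46

theorem A1_c0_t43 : CovD 1 gA1 [(163208757248, 8589934592), (137438953472, 137438953472), (257698037760, 85899345920)] :=
  covD_split 1 (by decide +kernel) A1_c0_t44 A1_c0_t47

theorem A1_c0_t41 : CovD 1 gA1 [(163208757248, 8589934592), (137438953472, 137438953472), (171798691840, 171798691840)] :=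
  covD_split 2 (by decide +kernel) A1_c0_t42 A1_c0_t43

theorem A1_c0_t49 : CovD 1 gA1 [(163208757248, 8589934592), (68719476736, 68719476736), (515396075520, 171798691840)] :=
  covD_split 1 (by decide +kernel) A1_c0_t50 A1_c0_t51

theorem A1_c0_t48 : CovD 1 gA1 [(163208757248, 8589934592), (137438953472, 137438953472), (515396075520, 171798691840)] :=
  covD_split 1 (by decide +kernel) A1_c0_t49 A1_c0_t52

theorem A1_c0_t40 : CovD 1 gA1 [(163208757248, 8589934592), (137438953472, 137438953472), (343597383680, 343597383680)] :=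
  covD_split 2 (by decide +kernel) A1_c0_t41 A1_c0_t48

theorem A1_c0_t54 : CovD 1 gA1 [(163208757248, 8589934592), (68719476736, 68719476736), (1030792151040, 343597383680)] :=
  covD_split 1 (by decide +kernel) A1_c0_t55 A1_c0_t56

theorem A1_c0_t57 : CovD 1 gA1 [(163208757248, 8589934592), (206158430208, 68719476736), (1030792151040, 343597383680)] :=
  covD_split 1 (by decide +kernel) A1_c0_t58 A1_c0_t59

theorem A1_c0_t53 : CovD 1 gA1 [(163208757248, 8589934592), (137438953472, 137438953472), (1030792151040, 343597383680)] :=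
  covD_split 1 (by decide +kernel) A1_c0_t54 A1_c0_t57

theorem A1_c0_t39 : CovD 1 gA1 [(163208757248, 8589934592), (137438953472, 137438953472), (687194767360, 687194767360)] :=
  covD_split 2 (by decide +kernel) A1_c0_t40 A1_c0_t53

theorem A1_c0_t60 : CovD 1 gA1 [(163208757248, 8589934592), (137438953472, 137438953472), (2061584302080, 687194767360)] :=
  covD_split 1 (by decide +kernel) A1_c0_t61 A1_c0_t62

theorem A1_c0_t38 : CovD 1 gA1 [(163208757248, 8589934592), (137438953472, 137438953472), (1374389534720, 1374389534720)] :=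
  covD_split 2 (by decide +kernel) A1_c0_t39 A1_c0_t60

theorem A1_c0_t63 : CovD 1 gA1 [(163208757248, 8589934592), (137438953472, 137438953472), (4123168604160, 1374389534720)] :=
  covD_split 1 (by decide +kernel) A1_c0_t64 A1_c0_t65

theorem A1_c0_t37 : CovD 1 gA1 [(163208757248, 8589934592), (137438953472, 137438953472), (2748779069440, 2748779069440)] :=
  covD_split 2 (by decide +kernel) A1_c0_t38 A1_c0_t63

theorem A1_c0_t1 : CovD 1 gA1 [(154618822656, 17179869184), (137438953472, 137438953472), (2748779069440, 2748779069440)] :=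
  covD_split 0 (by decide +kernel) A1_c0_t2 A1_c0_t37

theorem A1_c0_t66 : CovD 1 gA1 [(154618822656, 17179869184), (137438953472, 137438953472), (8246337208320, 2748779069440)] :=
  covD_split 0 (by decide +kernel) A1_c0_t67 A1_c0_t68

theorem A1_c0 : CovD 1 gA1 [(154618822656, 17179869184), (137438953472, 137438953472), (5497558138880, 5497558138880)] :=
  covD_split 2 (by decide +kernel) A1_c0_t1 A1_c0_t66

theorem B1_c0_t3 : CovD 1 gB1 [(154618822656, 17179869184), (34359738368, 34359738368), (27487895552, 27487895552)] :=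
  covD_split 1 (by decide +kernel) B1_c0_t4 B1_c0_t5

theorem B1_c0_t2 : CovD 1 gB1 [(154618822656, 17179869184), (34359738368, 34359738368), (54975791104, 54975791104)] :=
  covD_split 2 (by decide +kernel) B1_c0_t3 B1_c0_t6

theorem B1_c0_t8 : CovD 1 gB1 [(154618822656, 17179869184), (103079215104, 34359738368), (27487895552, 27487895552)] :=
  covD_split 2 (by decide +kernel) B1_c0_t9 B1_c0_t10

theorem B1_c0_t7 : CovD 1 gB1 [(154618822656, 17179869184), (103079215104, 34359738368), (54975791104, 54975791104)] :=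
  covD_split 2 (by decide +kernel) B1_c0_t8 B1_c0_t11

theorem B1_c0_t1 : CovD 1 gB1 [(154618822656, 17179869184), (68719476736, 68719476736), (54975791104, 54975791104)] :=
  covD_split 1 (by decide +kernel) B1_c0_t2 B1_c0_t7

theorem B1_c0_t15 : CovD 1 gB1 [(154618822656, 17179869184), (171798691840, 34359738368), (13743947776, 13743947776)] :=
  covD_split 2 (by decide +kernel) B1_c0_t16 B1_c0_t17

theorem B1_c0_t14 : CovD 1 gB1 [(154618822656, 17179869184), (171798691840, 34359738368), (27487895552, 27487895552)] :=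
  covD_split 2 (by decide +kernel) B1_c0_t15 B1_c0_t18

theorem B1_c0_t13 : CovD 1 gB1 [(154618822656, 17179869184), (171798691840, 34359738368), (54975791104, 54975791104)] :=
  covD_split 2 (by decide +kernel) B1_c0_t14 B1_c0_t19

theorem B1_c0_t22 : CovD 1 gB1 [(146028888064, 8589934592), (240518168576, 34359738368), (27487895552, 27487895552)] :=
  covD_split 2 (by decide +kernel) B1_c0_t23 B1_c0_t24

theorem B1_c0_t21 : CovD 1 gB1 [(146028888064, 8589934592), (240518168576, 34359738368), (54975791104, 54975791104)] :=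
  covD_split 2 (by decide +kernel) B1_c0_t22 B1_c0_t25

theorem B1_c0_t26 : CovD 1 gB1 [(163208757248, 8589934592), (240518168576, 34359738368), (54975791104, 54975791104)] :=
  covD_split 2 (by decide +kernel) B1_c0_t27 B1_c0_t28

theorem B1_c0_t20 : CovD 1 gB1 [(154618822656, 17179869184), (240518168576, 34359738368), (54975791104, 54975791104)] :=
  covD_split 0 (by decide +kernel) B1_c0_t21 B1_c0_t26

theorem B1_c0_t12 : CovD 1 gB1 [(154618822656, 17179869184), (206158430208, 68719476736), (54975791104, 54975791104)] :=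
  covD_split 1 (by decide +kernel) B1_c0_t13 B1_c0_t20

theorem B1_c0 : CovD 1 gB1 [(154618822656, 17179869184), (137438953472, 137438953472), (54975791104, 54975791104)] :=
  covD_split 1 (by decide +kernel) B1_c0_t1 B1_c0_t12

end Pool.Agent.helper14.NR.E6a
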