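import Pool.Agent.helper14.NR.E6a.PN1

/-!
Generated: certificates.
-/

namespace Pool.Agent.helper14.NR.E6a

open Pool.Agent.helper31.IA (Z)
open Pool.Agent.helper31.IX (Op XOps runX Cov CovD cov_split covD_split)
open Pool.Agent.helper31.IC (TD)
open Pool.Agent.helper63.RG (reloc)
open Pool.Agent.helper63.NF hiding TD
open Pool.Agent.helper14.CF (xE covD_E)
open Pool.Agent.helper14.NR (share)

mutual
theorem C1_c0_t6 : CovD 1 gC1 [(154618822656, 17179869184), (4294967296, 4294967296), (274877906944, 274877906944)] :=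
  covD_E kC1_eq (.n 2 (.n 2 (.l 0) (.l 0)) (.n 2 (.l 0) (.l 0)))
    [(154618822656, 17179869184), (4294967296, 4294967296), (274877906944, 274877906944)] rfl (by decide +kernel)
theorem C1_c0_t8 : CovD 1 gC1 [(154618822656, 17179869184), (4294967296, 4294967296), (687194767360, 137438953472)] :=
  covD_E kC1_eq (.n 2 (.l 0) (.l 0))
    [(154618822656, 17179869184), (4294967296, 4294967296), (687194767360, 137438953472)] rfl (by decide +kernel)
end

mutual
theorem C1_c0_t10 : CovD 1 gC1 [(154618822656, 17179869184), (4294967296, 4294967296), (893353197568, 68719476736)] :=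
  covD_E kC1_eq (.l 0)
    [(154618822656, 17179869184), (4294967296, 4294967296), (893353197568, 68719476736)] rfl (by decide +kernel)
theorem C1_c0_t17 : CovD 1 gC1 [(154618822656, 17179869184), (134217728, 134217728), (996432412672, 34359738368)] :=
  covD_E kC1_eq (.l 0)
    [(154618822656, 17179869184), (134217728, 134217728), (996432412672, 34359738368)] rfl (by decide +kernel)
end

mutual
theorem C1_c0_t19 : CovD 1 gC1 [(154618822656, 17179869184), (134217728, 134217728), (1047972020224, 17179869184)] :=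
  covD_E kC1_eq (.l 0)
    [(154618822656, 17179869184), (134217728, 134217728), (1047972020224, 17179869184)] rfl (by decide +kernel)
theorem C1_c0_t21 : CovD 1 gC1 [(154618822656, 17179869184), (134217728, 134217728), (1073741824000, 8589934592)] :=
  covD_E kC1_eq (.l 0)
    [(154618822656, 17179869184), (134217728, 134217728), (1073741824000, 8589934592)] rfl (by decide +kernel)
end

mutual
theorem C1_c0_t23 : CovD 1 gC1 [(154618822656, 17179869184), (134217728, 134217728), (1086626725888, 4294967296)] :=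
  covD_E kC1_eq (.l 0)
    [(154618822656, 17179869184), (134217728, 134217728), (1086626725888, 4294967296)] rfl (by decide +kernel)
theorem C1_c0_t25 : CovD 1 gC1 [(154618822656, 17179869184), (134217728, 134217728), (1093069176832, 2147483648)] :=
  covD_E kC1_eq (.l 0)
    [(154618822656, 17179869184), (134217728, 134217728), (1093069176832, 2147483648)] rfl (by decide +kernel)
end

mutual
theorem C1_c0_t27 : CovD 1 gC1 [(154618822656, 17179869184), (134217728, 134217728), (1096290402304, 1073741824)] :=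
  covD_E kC1_eq (.l 0)
    [(154618822656, 17179869184), (134217728, 134217728), (1096290402304, 1073741824)] rfl (by decide +kernel)
theorem C1_c0_t29 : CovD 1 gC1 [(154618822656, 17179869184), (134217728, 134217728), (1097901015040, 536870912)] :=
  covD_E kC1_eq (.l 0)
    [(154618822656, 17179869184), (134217728, 134217728), (1097901015040, 536870912)] rfl (by decide +kernel)
end

mutual
theorem C1_c0_t32 : CovD 1 gC1 [(146028888064, 8589934592), (134217728, 134217728), (1098706321408, 268435456)] :=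
  covD_E kC1_eq (.l 0)
    [(146028888064, 8589934592), (134217728, 134217728), (1098706321408, 268435456)] rfl (by decide +kernel)
theorem C1_c0_t33 : CovD 1 gC1 [(146028888064, 8589934592), (134217728, 134217728), (1099243192320, 268435456)] :=
  covD_E kC1_eq (.n 0 (.n 0 (.n 0 (.n 0 (.l 1) (.l 1)) (.n 0 (.l 1) (.l 1))) (.n 0 (.n 0 (.l 1) (.l 1)) (.n 0 (.l 1) (.l 1)))) (.n 0 (.n 0 (.n 0 (.l 1) (.l 1)) (.n 0 (.l 1) (.l 1))) (.n 0 (.n 0 (.l 1) (.l 1)) (.n 0 (.l 1) (.l 1)))))
    [(146028888064, 8589934592), (134217728, 134217728), (1099243192320, 268435456)] rfl (by decide +kernel)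
end

mutual
theorem C1_c0_t34 : CovD 1 gC1 [(163208757248, 8589934592), (134217728, 134217728), (1098974756864, 536870912)] :=
  covD_E kC1_eq (.n 0 (.n 0 (.n 0 (.n 0 (.l 1) (.l 1)) (.n 0 (.l 1) (.l 1))) (.n 0 (.n 0 (.l 1) (.l 1)) (.n 0 (.l 1) (.l 1)))) (.n 0 (.n 0 (.n 0 (.l 1) (.l 1)) (.n 0 (.l 1) (.l 1))) (.n 0 (.n 0 (.l 1) (.l 1)) (.n 0 (.l 1) (.l 1)))))
    [(163208757248, 8589934592), (134217728, 134217728), (1098974756864, 536870912)] rfl (by decide +kernel)
theorem C1_c0_t35 : CovD 1 gC1 [(154618822656, 17179869184), (402653184, 134217728), (1030792151040, 68719476736)] :=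
  covD_E kC1_eq (.n 2 (.l 0) (.n 2 (.l 0) (.n 0 (.l 0) (.l 0))))
    [(154618822656, 17179869184), (402653184, 134217728), (1030792151040, 68719476736)] rfl (by decide +kernel)
end

mutual
theorem C1_c0_t36 : CovD 1 gC1 [(154618822656, 17179869184), (805306368, 268435456), (1030792151040, 68719476736)] :=
  covD_E kC1_eq (.n 2 (.l 0) (.n 0 (.l 0) (.l 0)))
    [(154618822656, 17179869184), (805306368, 268435456), (1030792151040, 68719476736)] rfl (by decide +kernel)
theorem C1_c0_t37 : CovD 1 gC1 [(154618822656, 17179869184), (1610612736, 536870912), (1030792151040, 68719476736)] :=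
  covD_E kC1_eq (.n 0 (.l 0) (.l 0))
    [(154618822656, 17179869184), (1610612736, 536870912), (1030792151040, 68719476736)] rfl (by decide +kernel)
end

mutual
theorem C1_c0_t38 : CovD 1 gC1 [(154618822656, 17179869184), (3221225472, 1073741824), (1030792151040, 68719476736)] :=
  covD_E kC1_eq (.l 0)
    [(154618822656, 17179869184), (3221225472, 1073741824), (1030792151040, 68719476736)] rfl (by decide +kernel)
theorem C1_c0_t39 : CovD 1 gC1 [(154618822656, 17179869184), (6442450944, 2147483648), (1030792151040, 68719476736)] :=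
  covD_E kC1_eq (.l 0)
    [(154618822656, 17179869184), (6442450944, 2147483648), (1030792151040, 68719476736)] rfl (by decide +kernel)
end

mutual
theorem C1_c0_t40 : CovD 1 gC1 [(154618822656, 17179869184), (12884901888, 4294967296), (549755813888, 549755813888)] :=
  covD_E kC1_eq (.n 2 (.n 2 (.n 2 (.l 0) (.l 0)) (.n 2 (.l 0) (.l 0))) (.n 2 (.n 2 (.l 0) (.l 0)) (.n 2 (.l 0) (.n 0 (.l 0) (.l 0)))))
    [(154618822656, 17179869184), (12884901888, 4294967296), (549755813888, 549755813888)] rfl (by decide +kernel)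
theorem C1_c0_t41 : CovD 1 gC1 [(154618822656, 17179869184), (25769803776, 8589934592), (549755813888, 549755813888)] :=
  covD_E kC1_eq (.n 2 (.n 2 (.n 2 (.l 0) (.l 0)) (.n 2 (.l 0) (.l 0))) (.n 2 (.n 2 (.l 0) (.l 0)) (.n 0 (.n 2 (.l 0) (.l 0)) (.n 1 (.l 0) (.l 0)))))
    [(154618822656, 17179869184), (25769803776, 8589934592), (549755813888, 549755813888)] rfl (by decide +kernel)
end

mutual
theorem C1_c0_t42 : CovD 1 gC1 [(154618822656, 17179869184), (51539607552, 17179869184), (549755813888, 549755813888)] :=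
  covD_E kC1_eq (.n 2 (.n 0 (.n 2 (.l 0) (.l 0)) (.n 2 (.l 0) (.l 0))) (.n 2 (.n 2 (.l 0) (.n 0 (.l 0) (.l 0))) (.n 0 (.n 1 (.l 0) (.l 0)) (.n 1 (.l 0) (.l 0)))))
    [(154618822656, 17179869184), (51539607552, 17179869184), (549755813888, 549755813888)] rfl (by decide +kernel)
theorem C1_c0_t43 : CovD 1 gC1 [(154618822656, 17179869184), (103079215104, 34359738368), (549755813888, 549755813888)] :=
  covD_E kC1_eq (.n 0 (.n 2 (.n 2 (.l 0) (.l 0)) (.n 2 (.l 0) (.n 1 (.l 0) (.l 0)))) (.n 2 (.n 2 (.l 0) (.l 0)) (.n 2 (.l 0) (.n 0 (.l 0) (.l 0)))))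
    [(154618822656, 17179869184), (103079215104, 34359738368), (549755813888, 549755813888)] rfl (by decide +kernel)
end

mutual
theorem C1_c0_t44 : CovD 1 gC1 [(154618822656, 17179869184), (206158430208, 68719476736), (549755813888, 549755813888)] :=
  covD_E kC1_eq (.n 1 (.n 2 (.n 2 (.l 0) (.l 0)) (.n 0 (.n 2 (.l 0) (.l 0)) (.n 2 (.l 0) (.l 0)))) (.n 2 (.n 2 (.l 0) (.l 0)) (.n 2 (.l 0) (.n 0 (.l 0) (.l 0)))))
    [(154618822656, 17179869184), (206158430208, 68719476736), (549755813888, 549755813888)] rfl (by decide +kernel)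
theorem D1_c0 : CovD 1 gD1 [(154618822656, 17179869184), (137438953472, 137438953472), (863554764800, 863554764800)] :=
  covD_E kD1_eq (.n 1 (.n 2 (.n 0 (.n 2 (.l 0) (.l 0)) (.n 2 (.l 0) (.l 0))) (.n 2 (.n 0 (.l 0) (.l 0)) (.n 2 (.l 0) (.l 0)))) (.n 2 (.n 0 (.n 2 (.l 0) (.l 0)) (.n 2 (.l 0) (.l 0))) (.n 2 (.n 0 (.l 0) (.l 0)) (.n 2 (.l 0) (.l 0)))))
    [(154618822656, 17179869184), (137438953472, 137438953472), (863554764800, 863554764800)] rfl (by decide +kernel)
end

mutual
theorem E1_c0_t6 : CovD 1 gE1 [(139586437120, 2147483648), (68719476736, 68719476736), (215888691200, 215888691200)] :=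
  covD_E kE1_eq (.n 2 (.n 1 (.n 2 (.n 1 (.l 1) (.l 1)) (.l 0)) (.n 2 (.n 1 (.n 0 (.l 1) (.l 1)) (.n 1 (.l 1) (.l 1))) (.l 0))) (.l 0))
    [(139586437120, 2147483648), (68719476736, 68719476736), (215888691200, 215888691200)] rfl (by decide +kernel)
theorem E1_c0_t9 : CovD 1 gE1 [(139586437120, 2147483648), (206158430208, 68719476736), (53972172800, 53972172800)] :=
  covD_E kE1_eq (.n 2 (.n 1 (.n 1 (.n 0 (.l 1) (.l 1)) (.n 1 (.l 1) (.l 1))) (.n 1 (.n 1 (.l 1) (.l 1)) (.n 0 (.l 1) (.l 1)))) (.n 0 (.n 2 (.n 1 (.l 0) (.n 0 (.l 0) (.l 0))) (.l 0)) (.n 2 (.n 0 (.l 0) (.l 0)) (.l 0))))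
    [(139586437120, 2147483648), (206158430208, 68719476736), (53972172800, 53972172800)] rfl (by decide +kernel)
end

mutual
theorem E1_c0_t10 : CovD 1 gE1 [(139586437120, 2147483648), (206158430208, 68719476736), (161916518400, 53972172800)] :=
  covD_E kE1_eq (.n 0 (.l 0) (.l 0))
    [(139586437120, 2147483648), (206158430208, 68719476736), (161916518400, 53972172800)] rfl (by decide +kernel)
theorem E1_c0_t11 : CovD 1 gE1 [(139586437120, 2147483648), (206158430208, 68719476736), (323833036800, 107944345600)] :=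
  covD_E kE1_eq (.l 0)
    [(139586437120, 2147483648), (206158430208, 68719476736), (323833036800, 107944345600)] rfl (by decide +kernel)
end

mutual
theorem E1_c0_t12 : CovD 1 gE1 [(139586437120, 2147483648), (137438953472, 137438953472), (647666073600, 215888691200)] :=
  covD_E kE1_eq (.n 2 (.n 0 (.l 0) (.l 0)) (.l 0))
    [(139586437120, 2147483648), (137438953472, 137438953472), (647666073600, 215888691200)] rfl (by decide +kernel)
theorem E1_c0_t15 : CovD 1 gE1 [(143881404416, 2147483648), (68719476736, 68719476736), (215888691200, 215888691200)] :=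
  covD_E kE1_eq (.n 2 (.n 2 (.n 1 (.n 1 (.l 1) (.l 1)) (.n 1 (.l 1) (.n 1 (.l 1) (.l 1)))) (.l 0)) (.l 0))
    [(143881404416, 2147483648), (68719476736, 68719476736), (215888691200, 215888691200)] rfl (by decide +kernel)
end

mutual
theorem E1_c0_t17 : CovD 1 gE1 [(143881404416, 2147483648), (206158430208, 68719476736), (107944345600, 107944345600)] :=
  covD_E kE1_eq (.n 0 (.n 2 (.n 2 (.n 1 (.n 1 (.l 1) (.n 0 (.l 1) (.l 1))) (.n 1 (.n 0 (.l 1) (.l 1)) (.l 1))) (.n 2 (.l 0) (.l 0))) (.l 0)) (.n 2 (.n 1 (.n 2 (.n 1 (.l 1) (.l 1)) (.l 0)) (.n 2 (.n 1 (.l 1) (.l 1)) (.l 0))) (.l 0)))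
    [(143881404416, 2147483648), (206158430208, 68719476736), (107944345600, 107944345600)] rfl (by decide +kernel)
theorem E1_c0_t18 : CovD 1 gE1 [(143881404416, 2147483648), (206158430208, 68719476736), (323833036800, 107944345600)] :=
  covD_E kE1_eq (.l 0)
    [(143881404416, 2147483648), (206158430208, 68719476736), (323833036800, 107944345600)] rfl (by decide +kernel)
end

mutual
theorem E1_c0_t19 : CovD 1 gE1 [(143881404416, 2147483648), (137438953472, 137438953472), (647666073600, 215888691200)] :=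
  covD_E kE1_eq (.n 2 (.l 0) (.l 0))
    [(143881404416, 2147483648), (137438953472, 137438953472), (647666073600, 215888691200)] rfl (by decide +kernel)
theorem E1_c0_t21 : CovD 1 gE1 [(150323855360, 4294967296), (68719476736, 68719476736), (431777382400, 431777382400)] :=
  covD_E kE1_eq (.n 2 (.n 2 (.n 1 (.n 2 (.n 1 (.l 1) (.l 1)) (.l 0)) (.n 2 (.n 1 (.n 0 (.l 1) (.l 1)) (.n 1 (.l 1) (.l 1))) (.l 0))) (.l 0)) (.n 2 (.l 0) (.l 0)))
    [(150323855360, 4294967296), (68719476736, 68719476736), (431777382400, 431777382400)] rfl (by decide +kernel)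
end

mutual
theorem E1_c0_t23 : CovD 1 gE1 [(148176371712, 2147483648), (206158430208, 68719476736), (431777382400, 431777382400)] :=
  covD_E kE1_eq (.n 2 (.n 2 (.n 2 (.n 2 (.n 1 (.n 1 (.l 1) (.n 0 (.l 1) (.l 1))) (.n 1 (.n 0 (.l 1) (.l 1)) (.l 1))) (.n 0 (.l 0) (.l 0))) (.l 0)) (.l 0)) (.n 1 (.l 0) (.l 0)))
    [(148176371712, 2147483648), (206158430208, 68719476736), (431777382400, 431777382400)] rfl (by decide +kernel)
theorem E1_c0_t24 : CovD 1 gE1 [(152471339008, 2147483648), (206158430208, 68719476736), (431777382400, 431777382400)] :=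
  covD_E kE1_eq (.n 2 (.n 2 (.n 2 (.n 2 (.n 1 (.n 1 (.l 1) (.l 1)) (.n 1 (.l 1) (.l 1))) (.l 0)) (.l 0)) (.l 0)) (.n 1 (.l 0) (.l 0)))
    [(152471339008, 2147483648), (206158430208, 68719476736), (431777382400, 431777382400)] rfl (by decide +kernel)
end

mutual
theorem E1_c0_t27 : CovD 1 gE1 [(158913789952, 4294967296), (68719476736, 68719476736), (431777382400, 431777382400)] :=
  covD_E kE1_eq (.n 2 (.n 2 (.n 2 (.n 1 (.n 0 (.l 1) (.l 1)) (.n 1 (.l 1) (.n 0 (.l 1) (.l 1)))) (.l 0)) (.l 0)) (.n 2 (.l 0) (.l 0)))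
    [(158913789952, 4294967296), (68719476736, 68719476736), (431777382400, 431777382400)] rfl (by decide +kernel)
theorem E1_c0_t28 : CovD 1 gE1 [(158913789952, 4294967296), (206158430208, 68719476736), (431777382400, 431777382400)] :=
  covD_E kE1_eq (.n 2 (.n 2 (.n 2 (.n 0 (.n 2 (.n 1 (.n 1 (.l 1) (.l 1)) (.n 1 (.l 1) (.l 1))) (.l 0)) (.n 2 (.n 0 (.n 0 (.l 0) (.l 0)) (.l 0)) (.l 0))) (.l 0)) (.l 0)) (.n 2 (.l 0) (.l 0)))
    [(158913789952, 4294967296), (206158430208, 68719476736), (431777382400, 431777382400)] rfl (by decide +kernel)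
end

mutual
theorem E1_c0_t29 : CovD 1 gE1 [(167503724544, 4294967296), (137438953472, 137438953472), (431777382400, 431777382400)] :=
  covD_E kE1_eq (.n 1 (.n 2 (.n 2 (.n 2 (.n 1 (.l 1) (.n 1 (.l 1) (.l 1))) (.l 0)) (.l 0)) (.n 2 (.l 0) (.l 0))) (.n 2 (.n 2 (.n 2 (.n 0 (.n 2 (.l 0) (.l 0)) (.l 0)) (.l 0)) (.l 0)) (.n 2 (.l 0) (.l 0))))
    [(167503724544, 4294967296), (137438953472, 137438953472), (431777382400, 431777382400)] rfl (by decide +kernel)
theorem E1_c0_t30 : CovD 1 gE1 [(154618822656, 17179869184), (137438953472, 137438953472), (1295332147200, 431777382400)] :=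
  covD_E kE1_eq (.n 1 (.n 2 (.n 0 (.n 2 (.l 0) (.l 0)) (.n 2 (.l 0) (.l 0))) (.n 2 (.l 0) (.l 0))) (.n 2 (.n 0 (.n 2 (.l 0) (.l 0)) (.n 2 (.l 0) (.l 0))) (.n 2 (.n 0 (.l 0) (.l 0)) (.l 0))))
    [(154618822656, 17179869184), (137438953472, 137438953472), (1295332147200, 431777382400)] rfl (by decide +kernel)
end

theorem C1_c0_t31 : CovD 1 gC1 [(146028888064, 8589934592), (134217728, 134217728), (1098974756864, 536870912)] :=
  covD_split 2 (by decide +kernel) C1_c0_t32 C1_c0_t33

theorem C1_c0_t30 : CovD 1 gC1 [(154618822656, 17179869184), (134217728, 134217728), (1098974756864, 536870912)] :=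
  covD_split 0 (by decide +kernel) C1_c0_t31 C1_c0_t34

theorem C1_c0_t28 : CovD 1 gC1 [(154618822656, 17179869184), (134217728, 134217728), (1098437885952, 1073741824)] :=
  covD_split 2 (by decide +kernel) C1_c0_t29 C1_c0_t30

theorem C1_c0_t26 : CovD 1 gC1 [(154618822656, 17179869184), (134217728, 134217728), (1097364144128, 2147483648)] :=
  covD_split 2 (by decide +kernel) C1_c0_t27 C1_c0_t28

theorem C1_c0_t24 : CovD 1 gC1 [(154618822656, 17179869184), (134217728, 134217728), (1095216660480, 4294967296)] :=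
  covD_split 2 (by decide +kernel) C1_c0_t25 C1_c0_t26

theorem C1_c0_t22 : CovD 1 gC1 [(154618822656, 17179869184), (134217728, 134217728), (1090921693184, 8589934592)] :=
  covD_split 2 (by decide +kernel) C1_c0_t23 C1_c0_t24

theorem C1_c0_t20 : CovD 1 gC1 [(154618822656, 17179869184), (134217728, 134217728), (1082331758592, 17179869184)] :=
  covD_split 2 (by decide +kernel) C1_c0_t21 C1_c0_t22

theorem C1_c0_t18 : CovD 1 gC1 [(154618822656, 17179869184), (134217728, 134217728), (1065151889408, 34359738368)] :=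
  covD_split 2 (by decide +kernel) C1_c0_t19 C1_c0_t20

theorem C1_c0_t16 : CovD 1 gC1 [(154618822656, 17179869184), (134217728, 134217728), (1030792151040, 68719476736)] :=
  covD_split 2 (by decide +kernel) C1_c0_t17 C1_c0_t18

theorem C1_c0_t15 : CovD 1 gC1 [(154618822656, 17179869184), (268435456, 268435456), (1030792151040, 68719476736)] :=
  covD_split 1 (by decide +kernel) C1_c0_t16 C1_c0_t35

theorem C1_c0_t14 : CovD 1 gC1 [(154618822656, 17179869184), (536870912, 536870912), (1030792151040, 68719476736)] :=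
  covD_split 1 (by decide +kernel) C1_c0_t15 C1_c0_t36

theorem C1_c0_t13 : CovD 1 gC1 [(154618822656, 17179869184), (1073741824, 1073741824), (1030792151040, 68719476736)] :=
  covD_split 1 (by decide +kernel) C1_c0_t14 C1_c0_t37

theorem C1_c0_t12 : CovD 1 gC1 [(154618822656, 17179869184), (2147483648, 2147483648), (1030792151040, 68719476736)] :=
  covD_split 1 (by decide +kernel) C1_c0_t13 C1_c0_t38

theorem C1_c0_t11 : CovD 1 gC1 [(154618822656, 17179869184), (4294967296, 4294967296), (1030792151040, 68719476736)] :=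
  covD_split 1 (by decide +kernel) C1_c0_t12 C1_c0_t39

theorem C1_c0_t9 : CovD 1 gC1 [(154618822656, 17179869184), (4294967296, 4294967296), (962072674304, 137438953472)] :=
  covD_split 2 (by decide +kernel) C1_c0_t10 C1_c0_t11

theorem C1_c0_t7 : CovD 1 gC1 [(154618822656, 17179869184), (4294967296, 4294967296), (824633720832, 274877906944)] :=
  covD_split 2 (by decide +kernel) C1_c0_t8 C1_c0_t9

theorem C1_c0_t5 : CovD 1 gC1 [(154618822656, 17179869184), (4294967296, 4294967296), (549755813888, 549755813888)] :=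
  covD_split 2 (by decide +kernel) C1_c0_t6 C1_c0_t7

theorem C1_c0_t4 : CovD 1 gC1 [(154618822656, 17179869184), (8589934592, 8589934592), (549755813888, 549755813888)] :=
  covD_split 1 (by decide +kernel) C1_c0_t5 C1_c0_t40

theorem C1_c0_t3 : CovD 1 gC1 [(154618822656, 17179869184), (17179869184, 17179869184), (549755813888, 549755813888)] :=
  covD_split 1 (by decide +kernel) C1_c0_t4 C1_c0_t41

theorem C1_c0_t2 : CovD 1 gC1 [(154618822656, 17179869184), (34359738368, 34359738368), (549755813888, 549755813888)] :=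
  covD_split 1 (by decide +kernel) C1_c0_t3 C1_c0_t42

theorem C1_c0_t1 : CovD 1 gC1 [(154618822656, 17179869184), (68719476736, 68719476736), (549755813888, 549755813888)] :=
  covD_split 1 (by decide +kernel) C1_c0_t2 C1_c0_t43

theorem C1_c0 : CovD 1 gC1 [(154618822656, 17179869184), (137438953472, 137438953472), (549755813888, 549755813888)] :=
  covD_split 1 (by decide +kernel) C1_c0_t1 C1_c0_t44

theorem E1_c0_t8 : CovD 1 gE1 [(139586437120, 2147483648), (206158430208, 68719476736), (107944345600, 107944345600)] :=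
  covD_split 2 (by decide +kernel) E1_c0_t9 E1_c0_t10

theorem E1_c0_t7 : CovD 1 gE1 [(139586437120, 2147483648), (206158430208, 68719476736), (215888691200, 215888691200)] :=
  covD_split 2 (by decide +kernel) E1_c0_t8 E1_c0_t11

theorem E1_c0_t5 : CovD 1 gE1 [(139586437120, 2147483648), (137438953472, 137438953472), (215888691200, 215888691200)] :=
  covD_split 1 (by decide +kernel) E1_c0_t6 E1_c0_t7

theorem E1_c0_t4 : CovD 1 gE1 [(139586437120, 2147483648), (137438953472, 137438953472), (431777382400, 431777382400)] :=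
  covD_split 2 (by decide +kernel) E1_c0_t5 E1_c0_t12

theorem E1_c0_t16 : CovD 1 gE1 [(143881404416, 2147483648), (206158430208, 68719476736), (215888691200, 215888691200)] :=
  covD_split 2 (by decide +kernel) E1_c0_t17 E1_c0_t18

theorem E1_c0_t14 : CovD 1 gE1 [(143881404416, 2147483648), (137438953472, 137438953472), (215888691200, 215888691200)] :=
  covD_split 1 (by decide +kernel) E1_c0_t15 E1_c0_t16

theorem E1_c0_t13 : CovD 1 gE1 [(143881404416, 2147483648), (137438953472, 137438953472), (431777382400, 431777382400)] :=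
  covD_split 2 (by decide +kernel) E1_c0_t14 E1_c0_t19

theorem E1_c0_t3 : CovD 1 gE1 [(141733920768, 4294967296), (137438953472, 137438953472), (431777382400, 431777382400)] :=
  covD_split 0 (by decide +kernel) E1_c0_t4 E1_c0_t13

theorem E1_c0_t22 : CovD 1 gE1 [(150323855360, 4294967296), (206158430208, 68719476736), (431777382400, 431777382400)] :=
  covD_split 0 (by decide +kernel) E1_c0_t23 E1_c0_t24

theorem E1_c0_t20 : CovD 1 gE1 [(150323855360, 4294967296), (137438953472, 137438953472), (431777382400, 431777382400)] :=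
  covD_split 1 (by decide +kernel) E1_c0_t21 E1_c0_t22

theorem E1_c0_t2 : CovD 1 gE1 [(146028888064, 8589934592), (137438953472, 137438953472), (431777382400, 431777382400)] :=
  covD_split 0 (by decide +kernel) E1_c0_t3 E1_c0_t20

theorem E1_c0_t26 : CovD 1 gE1 [(158913789952, 4294967296), (137438953472, 137438953472), (431777382400, 431777382400)] :=
  covD_split 1 (by decide +kernel) E1_c0_t27 E1_c0_t28

theorem E1_c0_t25 : CovD 1 gE1 [(163208757248, 8589934592), (137438953472, 137438953472), (431777382400, 431777382400)] :=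
  covD_split 0 (by decide +kernel) E1_c0_t26 E1_c0_t29

theorem E1_c0_t1 : CovD 1 gE1 [(154618822656, 17179869184), (137438953472, 137438953472), (431777382400, 431777382400)] :=
  covD_split 0 (by decide +kernel) E1_c0_t2 E1_c0_t25

theorem E1_c0 : CovD 1 gE1 [(154618822656, 17179869184), (137438953472, 137438953472), (863554764800, 863554764800)] :=
  covD_split 2 (by decide +kernel) E1_c0_t1 E1_c0_t30

end Pool.Agent.helper14.NR.E6a
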