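import Pool.Agent.helper14.NR.E6a.PN2

/-!
Generated: certificates.
-/

namespace Pool.Agent.helper14.NR.E6a

open Pool.Agent.helper31.IA (Z)
open Pool.Agent.helper31.IX (Op XOps runX Cov CovD cov_split covD_split)
open Pool.Agent.helper31.IC (TD)
open Pool.Agent.helper63.RG (reloc)
open Pool.Agent.helper63.NF hiding TD
open Pool.Agent.helper14.CF (xE covD_E)
open Pool.Agent.helper14.NR (share)

mutual
theorem A2_c0_t8 : CovD 1 gA2 [(146028888064, 8589934592), (137438953472, 137438953472), (42949672960, 42949672960)] :=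
  covD_E kA2_eq (.l 2)
    [(146028888064, 8589934592), (137438953472, 137438953472), (42949672960, 42949672960)] rfl (by decide +kernel)
theorem A2_c0_t9 : CovD 1 gA2 [(146028888064, 8589934592), (137438953472, 137438953472), (128849018880, 42949672960)] :=
  covD_E kA2_eq (.n 1 (.n 2 (.l 2) (.n 1 (.n 1 (.n 1 (.n 0 (.n 1 (.l 0) (.l 0)) (.n 1 (.l 0) (.l 0))) (.n 2 (.n 0 (.l 0) (.l 0)) (.l 0))) (.n 1 (.n 1 (.l 0) (.l 0)) (.l 0))) (.n 1 (.l 0) (.l 0)))) (.n 1 (.n 0 (.l 0) (.l 0)) (.l 0)))
    [(146028888064, 8589934592), (137438953472, 137438953472), (128849018880, 42949672960)] rfl (by decide +kernel)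
end

mutual
theorem A2_c0_t13 : CovD 1 gA2 [(146028888064, 8589934592), (17179869184, 17179869184), (257698037760, 85899345920)] :=
  covD_E kA2_eq (.n 1 (.n 2 (.n 2 (.n 0 (.l 0) (.l 0)) (.l 0)) (.n 2 (.l 0) (.l 0))) (.n 2 (.n 2 (.n 0 (.l 0) (.l 0)) (.l 0)) (.n 0 (.l 0) (.l 0))))
    [(146028888064, 8589934592), (17179869184, 17179869184), (257698037760, 85899345920)] rfl (by decide +kernel)
theorem A2_c0_t14 : CovD 1 gA2 [(146028888064, 8589934592), (51539607552, 17179869184), (257698037760, 85899345920)] :=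
  covD_E kA2_eq (.n 1 (.n 2 (.n 2 (.l 0) (.l 0)) (.n 0 (.l 0) (.l 0))) (.n 2 (.n 2 (.l 0) (.l 0)) (.l 0)))
    [(146028888064, 8589934592), (51539607552, 17179869184), (257698037760, 85899345920)] rfl (by decide +kernel)
end

mutual
theorem A2_c0_t15 : CovD 1 gA2 [(146028888064, 8589934592), (103079215104, 34359738368), (257698037760, 85899345920)] :=
  covD_E kA2_eq (.n 1 (.n 2 (.n 2 (.l 0) (.l 0)) (.n 1 (.l 0) (.l 0))) (.n 2 (.l 0) (.l 0)))
    [(146028888064, 8589934592), (103079215104, 34359738368), (257698037760, 85899345920)] rfl (by decide +kernel)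
theorem A2_c0_t16 : CovD 1 gA2 [(146028888064, 8589934592), (206158430208, 68719476736), (257698037760, 85899345920)] :=
  covD_E kA2_eq (.n 1 (.n 0 (.n 2 (.l 0) (.l 0)) (.n 2 (.l 0) (.l 0))) (.n 2 (.l 0) (.l 0)))
    [(146028888064, 8589934592), (206158430208, 68719476736), (257698037760, 85899345920)] rfl (by decide +kernel)
end

mutual
theorem A2_c0_t19 : CovD 1 gA2 [(146028888064, 8589934592), (34359738368, 34359738368), (515396075520, 171798691840)] :=
  covD_E kA2_eq (.n 1 (.n 2 (.n 1 (.n 2 (.l 0) (.l 0)) (.n 2 (.l 0) (.l 0))) (.n 2 (.l 0) (.l 0))) (.n 2 (.n 2 (.n 0 (.l 0) (.l 0)) (.l 0)) (.n 2 (.l 0) (.l 0))))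
    [(146028888064, 8589934592), (34359738368, 34359738368), (515396075520, 171798691840)] rfl (by decide +kernel)
theorem A2_c0_t20 : CovD 1 gA2 [(146028888064, 8589934592), (103079215104, 34359738368), (515396075520, 171798691840)] :=
  covD_E kA2_eq (.n 2 (.n 1 (.n 2 (.l 0) (.l 0)) (.n 2 (.l 0) (.l 0))) (.n 2 (.n 0 (.l 0) (.l 0)) (.l 0)))
    [(146028888064, 8589934592), (103079215104, 34359738368), (515396075520, 171798691840)] rfl (by decide +kernel)
end

mutual
theorem A2_c0_t21 : CovD 1 gA2 [(146028888064, 8589934592), (206158430208, 68719476736), (515396075520, 171798691840)] :=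
  covD_E kA2_eq (.n 1 (.n 2 (.n 2 (.l 0) (.l 0)) (.n 2 (.l 0) (.l 0))) (.n 2 (.n 2 (.l 0) (.l 0)) (.n 0 (.l 0) (.l 0))))
    [(146028888064, 8589934592), (206158430208, 68719476736), (515396075520, 171798691840)] rfl (by decide +kernel)
theorem A2_c0_t23 : CovD 1 gA2 [(146028888064, 8589934592), (68719476736, 68719476736), (1030792151040, 343597383680)] :=
  covD_E kA2_eq (.n 1 (.n 2 (.n 2 (.n 2 (.l 0) (.l 0)) (.n 2 (.l 0) (.l 0))) (.n 2 (.n 0 (.l 0) (.l 0)) (.l 0))) (.n 2 (.n 2 (.n 2 (.l 0) (.l 0)) (.n 0 (.l 0) (.l 0))) (.n 2 (.n 0 (.l 0) (.l 0)) (.l 0))))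
    [(146028888064, 8589934592), (68719476736, 68719476736), (1030792151040, 343597383680)] rfl (by decide +kernel)
end

mutual
theorem A2_c0_t24 : CovD 1 gA2 [(146028888064, 8589934592), (206158430208, 68719476736), (1030792151040, 343597383680)] :=
  covD_E kA2_eq (.n 1 (.n 2 (.n 0 (.n 2 (.l 0) (.l 0)) (.n 2 (.l 0) (.l 0))) (.n 2 (.l 0) (.l 0))) (.n 2 (.n 0 (.n 2 (.l 0) (.l 0)) (.n 2 (.l 0) (.l 0))) (.n 2 (.l 0) (.l 0))))
    [(146028888064, 8589934592), (206158430208, 68719476736), (1030792151040, 343597383680)] rfl (by decide +kernel)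
theorem A2_c0_t26 : CovD 1 gA2 [(146028888064, 8589934592), (68719476736, 68719476736), (2061584302080, 687194767360)] :=
  covD_E kA2_eq (.n 1 (.n 2 (.n 2 (.n 2 (.l 0) (.l 0)) (.n 0 (.l 0) (.l 0))) (.n 2 (.l 0) (.l 0))) (.n 2 (.n 2 (.n 0 (.l 0) (.l 0)) (.l 0)) (.n 2 (.l 0) (.l 0))))
    [(146028888064, 8589934592), (68719476736, 68719476736), (2061584302080, 687194767360)] rfl (by decide +kernel)
end

mutual
theorem A2_c0_t27 : CovD 1 gA2 [(146028888064, 8589934592), (206158430208, 68719476736), (2061584302080, 687194767360)] :=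
  covD_E kA2_eq (.n 1 (.n 2 (.n 2 (.n 0 (.l 0) (.l 0)) (.l 0)) (.n 2 (.l 0) (.l 0))) (.n 2 (.n 2 (.n 0 (.l 0) (.l 0)) (.l 0)) (.n 2 (.l 0) (.l 0))))
    [(146028888064, 8589934592), (206158430208, 68719476736), (2061584302080, 687194767360)] rfl (by decide +kernel)
theorem A2_c0_t30 : CovD 1 gA2 [(146028888064, 8589934592), (68719476736, 68719476736), (3435973836800, 687194767360)] :=
  covD_E kA2_eq (.n 2 (.n 2 (.l 0) (.l 0)) (.n 0 (.l 0) (.l 0)))
    [(146028888064, 8589934592), (68719476736, 68719476736), (3435973836800, 687194767360)] rfl (by decide +kernel)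
end

mutual
theorem A2_c0_t31 : CovD 1 gA2 [(146028888064, 8589934592), (68719476736, 68719476736), (4810363371520, 687194767360)] :=
  covD_E kA2_eq (.n 0 (.n 2 (.n 2 (.n 0 (.n 1 (.l 0) (.l 0)) (.l 0)) (.n 2 (.n 0 (.n 1 (.l 0) (.l 1)) (.l 0)) (.l 1))) (.l 1)) (.n 2 (.n 2 (.l 0) (.n 0 (.n 1 (.l 0) (.l 0)) (.l 0))) (.n 0 (.l 1) (.l 1))))
    [(146028888064, 8589934592), (68719476736, 68719476736), (4810363371520, 687194767360)] rfl (by decide +kernel)
theorem A2_c0_t32 : CovD 1 gA2 [(146028888064, 8589934592), (206158430208, 68719476736), (4123168604160, 1374389534720)] :=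
  covD_E kA2_eq (.n 2 (.n 2 (.n 2 (.l 0) (.l 0)) (.n 2 (.l 0) (.l 0))) (.n 2 (.n 0 (.n 2 (.n 0 (.n 2 (.l 0) (.n 0 (.n 1 (.l 0) (.l 0)) (.l 0))) (.l 0)) (.n 1 (.n 0 (.l 1) (.l 1)) (.l 1))) (.n 2 (.l 0) (.n 2 (.l 0) (.l 1)))) (.l 1)))
    [(146028888064, 8589934592), (206158430208, 68719476736), (4123168604160, 1374389534720)] rfl (by decide +kernel)
end

mutual
theorem A2_c0_t33 : CovD 1 gA2 [(146028888064, 8589934592), (137438953472, 137438953472), (8246337208320, 2748779069440)] :=
  covD_E kA2_eq (.n 1 (.n 2 (.n 2 (.l 1) (.l 1)) (.n 0 (.l 1) (.l 1))) (.n 2 (.n 2 (.l 1) (.l 1)) (.n 0 (.l 1) (.l 1))))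
    [(146028888064, 8589934592), (137438953472, 137438953472), (8246337208320, 2748779069440)] rfl (by decide +kernel)
theorem A2_c0_t41 : CovD 1 gA2 [(163208757248, 8589934592), (137438953472, 137438953472), (42949672960, 42949672960)] :=
  covD_E kA2_eq (.l 2)
    [(163208757248, 8589934592), (137438953472, 137438953472), (42949672960, 42949672960)] rfl (by decide +kernel)
end

mutual
theorem A2_c0_t42 : CovD 1 gA2 [(163208757248, 8589934592), (137438953472, 137438953472), (128849018880, 42949672960)] :=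
  covD_E kA2_eq (.n 1 (.n 2 (.l 2) (.n 1 (.n 2 (.n 1 (.n 0 (.n 1 (.l 0) (.l 0)) (.n 1 (.l 0) (.l 0))) (.n 1 (.l 0) (.l 0))) (.n 1 (.n 1 (.l 0) (.l 0)) (.n 1 (.l 0) (.l 0)))) (.n 1 (.l 0) (.l 0)))) (.n 1 (.n 0 (.l 0) (.l 0)) (.l 0)))
    [(163208757248, 8589934592), (137438953472, 137438953472), (128849018880, 42949672960)] rfl (by decide +kernel)
theorem A2_c0_t45 : CovD 1 gA2 [(163208757248, 8589934592), (34359738368, 34359738368), (257698037760, 85899345920)] :=
  covD_E kA2_eq (.n 1 (.n 1 (.n 2 (.n 2 (.n 0 (.l 0) (.l 0)) (.l 0)) (.n 1 (.l 0) (.l 0))) (.n 2 (.n 2 (.n 0 (.l 0) (.l 0)) (.l 0)) (.n 1 (.l 0) (.l 0)))) (.n 2 (.n 1 (.n 2 (.l 0) (.l 0)) (.n 2 (.l 0) (.l 0))) (.n 2 (.l 0) (.l 0))))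
    [(163208757248, 8589934592), (34359738368, 34359738368), (257698037760, 85899345920)] rfl (by decide +kernel)
end

mutual
theorem A2_c0_t46 : CovD 1 gA2 [(163208757248, 8589934592), (103079215104, 34359738368), (257698037760, 85899345920)] :=
  covD_E kA2_eq (.n 1 (.n 2 (.n 2 (.l 0) (.l 0)) (.n 1 (.l 0) (.l 0))) (.n 2 (.l 0) (.l 0)))
    [(163208757248, 8589934592), (103079215104, 34359738368), (257698037760, 85899345920)] rfl (by decide +kernel)
theorem A2_c0_t47 : CovD 1 gA2 [(163208757248, 8589934592), (206158430208, 68719476736), (257698037760, 85899345920)] :=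
  covD_E kA2_eq (.n 1 (.n 0 (.n 2 (.l 0) (.l 0)) (.n 2 (.l 0) (.l 0))) (.n 2 (.l 0) (.l 0)))
    [(163208757248, 8589934592), (206158430208, 68719476736), (257698037760, 85899345920)] rfl (by decide +kernel)
end

mutual
theorem A2_c0_t50 : CovD 1 gA2 [(163208757248, 8589934592), (34359738368, 34359738368), (515396075520, 171798691840)] :=
  covD_E kA2_eq (.n 1 (.n 2 (.n 1 (.n 2 (.l 0) (.l 0)) (.n 2 (.l 0) (.l 0))) (.n 2 (.l 0) (.l 0))) (.n 2 (.n 2 (.n 1 (.l 0) (.l 0)) (.l 0)) (.n 2 (.l 0) (.l 0))))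
    [(163208757248, 8589934592), (34359738368, 34359738368), (515396075520, 171798691840)] rfl (by decide +kernel)
theorem A2_c0_t51 : CovD 1 gA2 [(163208757248, 8589934592), (103079215104, 34359738368), (515396075520, 171798691840)] :=
  covD_E kA2_eq (.n 2 (.n 1 (.n 2 (.l 0) (.l 0)) (.n 2 (.l 0) (.l 0))) (.n 2 (.n 0 (.l 0) (.l 0)) (.l 0)))
    [(163208757248, 8589934592), (103079215104, 34359738368), (515396075520, 171798691840)] rfl (by decide +kernel)
end

mutual
theorem A2_c0_t52 : CovD 1 gA2 [(163208757248, 8589934592), (206158430208, 68719476736), (515396075520, 171798691840)] :=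
  covD_E kA2_eq (.n 1 (.n 2 (.n 2 (.l 0) (.l 0)) (.n 2 (.l 0) (.l 0))) (.n 2 (.n 2 (.l 0) (.l 0)) (.n 0 (.l 0) (.l 0))))
    [(163208757248, 8589934592), (206158430208, 68719476736), (515396075520, 171798691840)] rfl (by decide +kernel)
theorem A2_c0_t54 : CovD 1 gA2 [(163208757248, 8589934592), (68719476736, 68719476736), (1030792151040, 343597383680)] :=
  covD_E kA2_eq (.n 1 (.n 2 (.n 2 (.n 2 (.n 0 (.l 0) (.l 0)) (.l 0)) (.n 2 (.l 0) (.l 0))) (.n 2 (.n 0 (.l 0) (.l 0)) (.l 0))) (.n 2 (.n 2 (.n 2 (.l 0) (.l 0)) (.n 0 (.l 0) (.l 0))) (.n 2 (.l 0) (.l 0))))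
    [(163208757248, 8589934592), (68719476736, 68719476736), (1030792151040, 343597383680)] rfl (by decide +kernel)
end

mutual
theorem A2_c0_t55 : CovD 1 gA2 [(163208757248, 8589934592), (206158430208, 68719476736), (1030792151040, 343597383680)] :=
  covD_E kA2_eq (.n 1 (.n 2 (.n 2 (.n 2 (.l 0) (.l 0)) (.n 0 (.l 0) (.l 0))) (.n 2 (.l 0) (.l 0))) (.n 2 (.n 0 (.n 2 (.l 0) (.l 0)) (.n 2 (.l 0) (.l 0))) (.n 2 (.l 0) (.l 0))))
    [(163208757248, 8589934592), (206158430208, 68719476736), (1030792151040, 343597383680)] rfl (by decide +kernel)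
theorem A2_c0_t57 : CovD 1 gA2 [(163208757248, 8589934592), (68719476736, 68719476736), (2061584302080, 687194767360)] :=
  covD_E kA2_eq (.n 1 (.n 2 (.n 2 (.n 2 (.l 0) (.l 0)) (.l 0)) (.n 2 (.l 0) (.l 0))) (.n 2 (.n 2 (.n 0 (.l 0) (.l 0)) (.l 0)) (.n 2 (.l 0) (.l 0))))
    [(163208757248, 8589934592), (68719476736, 68719476736), (2061584302080, 687194767360)] rfl (by decide +kernel)
end

mutual
theorem A2_c0_t58 : CovD 1 gA2 [(163208757248, 8589934592), (206158430208, 68719476736), (2061584302080, 687194767360)] :=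
  covD_E kA2_eq (.n 2 (.n 1 (.n 2 (.n 0 (.l 0) (.l 0)) (.l 0)) (.n 2 (.n 0 (.l 0) (.l 0)) (.l 0))) (.n 2 (.n 0 (.l 0) (.l 0)) (.l 0)))
    [(163208757248, 8589934592), (206158430208, 68719476736), (2061584302080, 687194767360)] rfl (by decide +kernel)
theorem A2_c0_t60 : CovD 1 gA2 [(163208757248, 8589934592), (68719476736, 68719476736), (4123168604160, 1374389534720)] :=
  covD_E kA2_eq (.n 2 (.n 2 (.n 2 (.l 0) (.l 0)) (.n 0 (.l 0) (.l 0))) (.n 0 (.n 2 (.l 0) (.n 2 (.l 0) (.l 1))) (.n 2 (.l 0) (.l 0))))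
    [(163208757248, 8589934592), (68719476736, 68719476736), (4123168604160, 1374389534720)] rfl (by decide +kernel)
end

mutual
theorem A2_c0_t61 : CovD 1 gA2 [(163208757248, 8589934592), (206158430208, 68719476736), (4123168604160, 1374389534720)] :=
  covD_E kA2_eq (.n 2 (.n 0 (.n 2 (.l 0) (.l 0)) (.n 2 (.l 0) (.l 0))) (.n 2 (.n 2 (.l 0) (.l 0)) (.n 0 (.l 1) (.l 0))))
    [(163208757248, 8589934592), (206158430208, 68719476736), (4123168604160, 1374389534720)] rfl (by decide +kernel)
theorem A2_c0_t62 : CovD 1 gA2 [(163208757248, 8589934592), (137438953472, 137438953472), (8246337208320, 2748779069440)] :=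
  covD_E kA2_eq (.n 1 (.n 2 (.n 2 (.n 0 (.l 1) (.l 1)) (.l 1)) (.n 0 (.l 1) (.l 1))) (.n 2 (.n 2 (.l 1) (.l 1)) (.l 1)))
    [(163208757248, 8589934592), (137438953472, 137438953472), (8246337208320, 2748779069440)] rfl (by decide +kernel)
end

mutual
theorem B2_c0_t1 : CovD 1 gB2 [(154618822656, 17179869184), (68719476736, 68719476736), (54975791104, 54975791104)] :=
  covD_E kB2_eq (.n 2 (.n 2 (.n 2 (.l 1) (.n 0 (.l 1) (.l 1))) (.n 0 (.n 2 (.l 1) (.l 1)) (.n 1 (.l 1) (.l 1)))) (.n 0 (.n 2 (.n 2 (.l 1) (.l 1)) (.n 0 (.l 1) (.l 1))) (.n 0 (.n 2 (.l 1) (.l 1)) (.n 2 (.l 1) (.l 1)))))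
    [(154618822656, 17179869184), (68719476736, 68719476736), (54975791104, 54975791104)] rfl (by decide +kernel)
theorem B2_c0_t2 : CovD 1 gB2 [(154618822656, 17179869184), (206158430208, 68719476736), (54975791104, 54975791104)] :=
  covD_E kB2_eq (.n 2 (.n 2 (.n 2 (.l 1) (.n 0 (.l 1) (.l 1))) (.n 2 (.l 1) (.l 1))) (.n 0 (.n 2 (.n 2 (.l 1) (.l 1)) (.l 1)) (.n 2 (.l 1) (.l 1))))
    [(154618822656, 17179869184), (206158430208, 68719476736), (54975791104, 54975791104)] rfl (by decide +kernel)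
end

mutual
theorem C2_c0_t6 : CovD 1 gC2 [(154618822656, 17179869184), (4294967296, 4294967296), (274877906944, 274877906944)] :=
  covD_E kC2_eq (.n 2 (.n 2 (.l 0) (.l 0)) (.n 2 (.l 0) (.l 0)))
    [(154618822656, 17179869184), (4294967296, 4294967296), (274877906944, 274877906944)] rfl (by decide +kernel)
theorem C2_c0_t8 : CovD 1 gC2 [(154618822656, 17179869184), (4294967296, 4294967296), (687194767360, 137438953472)] :=
  covD_E kC2_eq (.n 2 (.l 0) (.l 0))
    [(154618822656, 17179869184), (4294967296, 4294967296), (687194767360, 137438953472)] rfl (by decide +kernel)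
end

mutual
theorem C2_c0_t10 : CovD 1 gC2 [(154618822656, 17179869184), (4294967296, 4294967296), (893353197568, 68719476736)] :=
  covD_E kC2_eq (.l 0)
    [(154618822656, 17179869184), (4294967296, 4294967296), (893353197568, 68719476736)] rfl (by decide +kernel)
theorem C2_c0_t16 : CovD 1 gC2 [(154618822656, 17179869184), (268435456, 268435456), (996432412672, 34359738368)] :=
  covD_E kC2_eq (.l 0)
    [(154618822656, 17179869184), (268435456, 268435456), (996432412672, 34359738368)] rfl (by decide +kernel)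
end

mutual
theorem C2_c0_t18 : CovD 1 gC2 [(154618822656, 17179869184), (268435456, 268435456), (1047972020224, 17179869184)] :=
  covD_E kC2_eq (.l 0)
    [(154618822656, 17179869184), (268435456, 268435456), (1047972020224, 17179869184)] rfl (by decide +kernel)
theorem C2_c0_t20 : CovD 1 gC2 [(154618822656, 17179869184), (268435456, 268435456), (1073741824000, 8589934592)] :=
  covD_E kC2_eq (.l 0)
    [(154618822656, 17179869184), (268435456, 268435456), (1073741824000, 8589934592)] rfl (by decide +kernel)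
end

mutual
theorem C2_c0_t22 : CovD 1 gC2 [(154618822656, 17179869184), (268435456, 268435456), (1086626725888, 4294967296)] :=
  covD_E kC2_eq (.l 0)
    [(154618822656, 17179869184), (268435456, 268435456), (1086626725888, 4294967296)] rfl (by decide +kernel)
theorem C2_c0_t24 : CovD 1 gC2 [(154618822656, 17179869184), (268435456, 268435456), (1093069176832, 2147483648)] :=
  covD_E kC2_eq (.l 0)
    [(154618822656, 17179869184), (268435456, 268435456), (1093069176832, 2147483648)] rfl (by decide +kernel)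
end

mutual
theorem C2_c0_t26 : CovD 1 gC2 [(154618822656, 17179869184), (268435456, 268435456), (1096290402304, 1073741824)] :=
  covD_E kC2_eq (.l 0)
    [(154618822656, 17179869184), (268435456, 268435456), (1096290402304, 1073741824)] rfl (by decide +kernel)
theorem C2_c0_t27 : CovD 1 gC2 [(154618822656, 17179869184), (268435456, 268435456), (1098437885952, 1073741824)] :=
  covD_E kC2_eq (.n 0 (.n 0 (.n 0 (.n 0 (.l 1) (.l 1)) (.n 0 (.l 1) (.l 1))) (.n 0 (.n 0 (.l 1) (.l 1)) (.n 0 (.l 1) (.l 1)))) (.n 0 (.n 0 (.n 0 (.l 1) (.l 1)) (.n 0 (.l 1) (.l 1))) (.n 0 (.n 0 (.l 1) (.l 1)) (.n 0 (.l 1) (.l 1)))))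
    [(154618822656, 17179869184), (268435456, 268435456), (1098437885952, 1073741824)] rfl (by decide +kernel)
end

mutual
theorem C2_c0_t28 : CovD 1 gC2 [(154618822656, 17179869184), (805306368, 268435456), (1030792151040, 68719476736)] :=
  covD_E kC2_eq (.n 2 (.l 0) (.n 0 (.l 0) (.l 0)))
    [(154618822656, 17179869184), (805306368, 268435456), (1030792151040, 68719476736)] rfl (by decide +kernel)
theorem C2_c0_t29 : CovD 1 gC2 [(154618822656, 17179869184), (1610612736, 536870912), (1030792151040, 68719476736)] :=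
  covD_E kC2_eq (.n 0 (.l 0) (.l 0))
    [(154618822656, 17179869184), (1610612736, 536870912), (1030792151040, 68719476736)] rfl (by decide +kernel)
end

mutual
theorem C2_c0_t30 : CovD 1 gC2 [(154618822656, 17179869184), (3221225472, 1073741824), (1030792151040, 68719476736)] :=
  covD_E kC2_eq (.l 0)
    [(154618822656, 17179869184), (3221225472, 1073741824), (1030792151040, 68719476736)] rfl (by decide +kernel)
theorem C2_c0_t31 : CovD 1 gC2 [(154618822656, 17179869184), (6442450944, 2147483648), (1030792151040, 68719476736)] :=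
  covD_E kC2_eq (.l 0)
    [(154618822656, 17179869184), (6442450944, 2147483648), (1030792151040, 68719476736)] rfl (by decide +kernel)
end

mutual
theorem C2_c0_t32 : CovD 1 gC2 [(154618822656, 17179869184), (12884901888, 4294967296), (549755813888, 549755813888)] :=
  covD_E kC2_eq (.n 2 (.n 2 (.n 2 (.l 0) (.l 0)) (.n 2 (.l 0) (.l 0))) (.n 2 (.n 2 (.l 0) (.l 0)) (.n 2 (.l 0) (.n 0 (.l 0) (.l 0)))))
    [(154618822656, 17179869184), (12884901888, 4294967296), (549755813888, 549755813888)] rfl (by decide +kernel)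
theorem C2_c0_t33 : CovD 1 gC2 [(154618822656, 17179869184), (25769803776, 8589934592), (549755813888, 549755813888)] :=
  covD_E kC2_eq (.n 2 (.n 2 (.n 2 (.l 0) (.l 0)) (.n 2 (.l 0) (.l 0))) (.n 2 (.n 2 (.l 0) (.l 0)) (.n 0 (.n 2 (.l 0) (.l 0)) (.n 2 (.l 0) (.l 0)))))
    [(154618822656, 17179869184), (25769803776, 8589934592), (549755813888, 549755813888)] rfl (by decide +kernel)
end

mutual
theorem C2_c0_t34 : CovD 1 gC2 [(154618822656, 17179869184), (51539607552, 17179869184), (549755813888, 549755813888)] :=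
  covD_E kC2_eq (.n 2 (.n 2 (.n 0 (.l 0) (.l 0)) (.n 2 (.l 0) (.l 0))) (.n 2 (.n 2 (.l 0) (.n 0 (.l 0) (.l 0))) (.n 0 (.n 1 (.n 0 (.l 0) (.l 0)) (.l 0)) (.n 1 (.l 0) (.l 0)))))
    [(154618822656, 17179869184), (51539607552, 17179869184), (549755813888, 549755813888)] rfl (by decide +kernel)
theorem C2_c0_t35 : CovD 1 gC2 [(154618822656, 17179869184), (103079215104, 34359738368), (549755813888, 549755813888)] :=
  covD_E kC2_eq (.n 0 (.n 2 (.n 2 (.l 0) (.l 0)) (.n 1 (.n 2 (.l 0) (.l 0)) (.n 2 (.l 0) (.l 0)))) (.n 2 (.n 2 (.l 0) (.l 0)) (.n 2 (.l 0) (.n 1 (.l 0) (.l 0)))))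
    [(154618822656, 17179869184), (103079215104, 34359738368), (549755813888, 549755813888)] rfl (by decide +kernel)
end

mutual
theorem C2_c0_t36 : CovD 1 gC2 [(154618822656, 17179869184), (206158430208, 68719476736), (549755813888, 549755813888)] :=
  covD_E kC2_eq (.n 1 (.n 2 (.n 2 (.l 0) (.l 0)) (.n 0 (.n 2 (.l 0) (.l 0)) (.n 2 (.l 0) (.l 0)))) (.n 2 (.n 2 (.l 0) (.l 0)) (.n 2 (.l 0) (.n 0 (.l 0) (.l 0)))))
    [(154618822656, 17179869184), (206158430208, 68719476736), (549755813888, 549755813888)] rfl (by decide +kernel)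
theorem D2_c0 : CovD 1 gD2 [(154618822656, 17179869184), (137438953472, 137438953472), (863554764800, 863554764800)] :=
  covD_E kD2_eq (.n 1 (.n 0 (.n 2 (.n 2 (.l 0) (.l 0)) (.n 2 (.l 0) (.l 0))) (.n 2 (.n 2 (.l 0) (.l 0)) (.n 2 (.l 0) (.l 0)))) (.n 2 (.n 0 (.n 2 (.l 0) (.l 0)) (.n 2 (.l 0) (.l 0))) (.n 2 (.n 0 (.l 0) (.l 0)) (.n 2 (.l 0) (.l 0)))))
    [(154618822656, 17179869184), (137438953472, 137438953472), (863554764800, 863554764800)] rfl (by decide +kernel)
end

mutual
theorem E2_c0_t4 : CovD 1 gE2 [(141733920768, 4294967296), (68719476736, 68719476736), (431777382400, 431777382400)] :=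
  covD_E kE2_eq (.n 2 (.l 1) (.n 2 (.n 2 (.l 1) (.n 1 (.l 1) (.n 0 (.l 1) (.l 1)))) (.n 2 (.n 0 (.l 0) (.l 0)) (.l 0))))
    [(141733920768, 4294967296), (68719476736, 68719476736), (431777382400, 431777382400)] rfl (by decide +kernel)
theorem E2_c0_t5 : CovD 1 gE2 [(141733920768, 4294967296), (206158430208, 68719476736), (431777382400, 431777382400)] :=
  covD_E kE2_eq (.n 2 (.l 1) (.n 0 (.n 2 (.n 2 (.l 1) (.n 1 (.n 1 (.l 1) (.l 1)) (.n 2 (.l 1) (.l 0)))) (.n 2 (.l 0) (.l 0))) (.n 1 (.n 2 (.l 1) (.l 0)) (.n 2 (.n 0 (.l 1) (.l 1)) (.l 0)))))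
    [(141733920768, 4294967296), (206158430208, 68719476736), (431777382400, 431777382400)] rfl (by decide +kernel)
end

mutual
theorem E2_c0_t6 : CovD 1 gE2 [(150323855360, 4294967296), (137438953472, 137438953472), (431777382400, 431777382400)] :=
  covD_E kE2_eq (.n 1 (.n 2 (.l 1) (.n 2 (.n 1 (.l 1) (.l 1)) (.l 0))) (.n 2 (.l 1) (.n 2 (.n 0 (.n 1 (.l 1) (.l 1)) (.l 1)) (.l 0))))
    [(150323855360, 4294967296), (137438953472, 137438953472), (431777382400, 431777382400)] rfl (by decide +kernel)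
theorem E2_c0_t7 : CovD 1 gE2 [(163208757248, 8589934592), (137438953472, 137438953472), (431777382400, 431777382400)] :=
  covD_E kE2_eq (.n 1 (.n 2 (.l 1) (.n 2 (.n 0 (.l 1) (.l 1)) (.l 0))) (.n 2 (.l 1) (.n 2 (.n 0 (.l 1) (.l 1)) (.l 0))))
    [(163208757248, 8589934592), (137438953472, 137438953472), (431777382400, 431777382400)] rfl (by decide +kernel)
end

theorem E2_c0_t8 : CovD 1 gE2 [(154618822656, 17179869184), (137438953472, 137438953472), (1295332147200, 431777382400)] :=
  covD_E kE2_eq (.n 1 (.n 2 (.n 0 (.n 2 (.l 0) (.l 0)) (.n 2 (.l 0) (.l 0))) (.n 2 (.l 0) (.l 0))) (.n 2 (.n 0 (.n 2 (.l 0) (.l 0)) (.n 2 (.l 0) (.l 0))) (.n 2 (.l 0) (.l 0))))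
    [(154618822656, 17179869184), (137438953472, 137438953472), (1295332147200, 431777382400)] rfl (by decide +kernel)

theorem A2_c0_t7 : CovD 1 gA2 [(146028888064, 8589934592), (137438953472, 137438953472), (85899345920, 85899345920)] :=
  covD_split 2 (by decide +kernel) A2_c0_t8 A2_c0_t9

theorem A2_c0_t12 : CovD 1 gA2 [(146028888064, 8589934592), (34359738368, 34359738368), (257698037760, 85899345920)] :=
  covD_split 1 (by decide +kernel) A2_c0_t13 A2_c0_t14

theorem A2_c0_t11 : CovD 1 gA2 [(146028888064, 8589934592), (68719476736, 68719476736), (257698037760, 85899345920)] :=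
  covD_split 1 (by decide +kernel) A2_c0_t12 A2_c0_t15

theorem A2_c0_t10 : CovD 1 gA2 [(146028888064, 8589934592), (137438953472, 137438953472), (257698037760, 85899345920)] :=
  covD_split 1 (by decide +kernel) A2_c0_t11 A2_c0_t16

theorem A2_c0_t6 : CovD 1 gA2 [(146028888064, 8589934592), (137438953472, 137438953472), (171798691840, 171798691840)] :=
  covD_split 2 (by decide +kernel) A2_c0_t7 A2_c0_t10

theorem A2_c0_t18 : CovD 1 gA2 [(146028888064, 8589934592), (68719476736, 68719476736), (515396075520, 171798691840)] :=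
  covD_split 1 (by decide +kernel) A2_c0_t19 A2_c0_t20

theorem A2_c0_t17 : CovD 1 gA2 [(146028888064, 8589934592), (137438953472, 137438953472), (515396075520, 171798691840)] :=
  covD_split 1 (by decide +kernel) A2_c0_t18 A2_c0_t21

theorem A2_c0_t5 : CovD 1 gA2 [(146028888064, 8589934592), (137438953472, 137438953472), (343597383680, 343597383680)] :=
  covD_split 2 (by decide +kernel) A2_c0_t6 A2_c0_t17

theorem A2_c0_t22 : CovD 1 gA2 [(146028888064, 8589934592), (137438953472, 137438953472), (1030792151040, 343597383680)] :=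
  covD_split 1 (by decide +kernel) A2_c0_t23 A2_c0_t24

theorem A2_c0_t4 : CovD 1 gA2 [(146028888064, 8589934592), (137438953472, 137438953472), (687194767360, 687194767360)] :=
  covD_split 2 (by decide +kernel) A2_c0_t5 A2_c0_t22

theorem A2_c0_t25 : CovD 1 gA2 [(146028888064, 8589934592), (137438953472, 137438953472), (2061584302080, 687194767360)] :=
  covD_split 1 (by decide +kernel) A2_c0_t26 A2_c0_t27

theorem A2_c0_t3 : CovD 1 gA2 [(146028888064, 8589934592), (137438953472, 137438953472), (1374389534720, 1374389534720)] :=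
  covD_split 2 (by decide +kernel) A2_c0_t4 A2_c0_t25

theorem A2_c0_t29 : CovD 1 gA2 [(146028888064, 8589934592), (68719476736, 68719476736), (4123168604160, 1374389534720)] :=
  covD_split 2 (by decide +kernel) A2_c0_t30 A2_c0_t31

theorem A2_c0_t28 : CovD 1 gA2 [(146028888064, 8589934592), (137438953472, 137438953472), (4123168604160, 1374389534720)] :=
  covD_split 1 (by decide +kernel) A2_c0_t29 A2_c0_t32

theorem A2_c0_t2 : CovD 1 gA2 [(146028888064, 8589934592), (137438953472, 137438953472), (2748779069440, 2748779069440)] :=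
  covD_split 2 (by decide +kernel) A2_c0_t3 A2_c0_t28

theorem A2_c0_t1 : CovD 1 gA2 [(146028888064, 8589934592), (137438953472, 137438953472), (5497558138880, 5497558138880)] :=
  covD_split 2 (by decide +kernel) A2_c0_t2 A2_c0_t33

theorem A2_c0_t40 : CovD 1 gA2 [(163208757248, 8589934592), (137438953472, 137438953472), (85899345920, 85899345920)] :=
  covD_split 2 (by decide +kernel) A2_c0_t41 A2_c0_t42

theorem A2_c0_t44 : CovD 1 gA2 [(163208757248, 8589934592), (68719476736, 68719476736), (257698037760, 85899345920)] :=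
  covD_split 1 (by decide +kernel) A2_c0_t45 A2_c0_t46

theorem A2_c0_t43 : CovD 1 gA2 [(163208757248, 8589934592), (137438953472, 137438953472), (257698037760, 85899345920)] :=
  covD_split 1 (by decide +kernel) A2_c0_t44 A2_c0_t47

theorem A2_c0_t39 : CovD 1 gA2 [(163208757248, 8589934592), (137438953472, 137438953472), (171798691840, 171798691840)] :=
  covD_split 2 (by decide +kernel) A2_c0_t40 A2_c0_t43

theorem A2_c0_t49 : CovD 1 gA2 [(163208757248, 8589934592), (68719476736, 68719476736), (515396075520, 171798691840)] :=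
  covD_split 1 (by decide +kernel) A2_c0_t50 A2_c0_t51

theorem A2_c0_t48 : CovD 1 gA2 [(163208757248, 8589934592), (137438953472, 137438953472), (515396075520, 171798691840)] :=
  covD_split 1 (by decide +kernel) A2_c0_t49 A2_c0_t52

theorem A2_c0_t38 : CovD 1 gA2 [(163208757248, 8589934592), (137438953472, 137438953472), (343597383680, 343597383680)] :=
  covD_split 2 (by decide +kernel) A2_c0_t39 A2_c0_t48

theorem A2_c0_t53 : CovD 1 gA2 [(163208757248, 8589934592), (137438953472, 137438953472), (1030792151040, 343597383680)] :=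
  covD_split 1 (by decide +kernel) A2_c0_t54 A2_c0_t55

theorem A2_c0_t37 : CovD 1 gA2 [(163208757248, 8589934592), (137438953472, 137438953472), (687194767360, 687194767360)] :=
  covD_split 2 (by decide +kernel) A2_c0_t38 A2_c0_t53

theorem A2_c0_t56 : CovD 1 gA2 [(163208757248, 8589934592), (137438953472, 137438953472), (2061584302080, 687194767360)] :=
  covD_split 1 (by decide +kernel) A2_c0_t57 A2_c0_t58

theorem A2_c0_t36 : CovD 1 gA2 [(163208757248, 8589934592), (137438953472, 137438953472), (1374389534720, 1374389534720)] :=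
  covD_split 2 (by decide +kernel) A2_c0_t37 A2_c0_t56

theorem A2_c0_t59 : CovD 1 gA2 [(163208757248, 8589934592), (137438953472, 137438953472), (4123168604160, 1374389534720)] :=
  covD_split 1 (by decide +kernel) A2_c0_t60 A2_c0_t61

theorem A2_c0_t35 : CovD 1 gA2 [(163208757248, 8589934592), (137438953472, 137438953472), (2748779069440, 2748779069440)] :=
  covD_split 2 (by decide +kernel) A2_c0_t36 A2_c0_t59

theorem A2_c0_t34 : CovD 1 gA2 [(163208757248, 8589934592), (137438953472, 137438953472), (5497558138880, 5497558138880)] :=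
  covD_split 2 (by decide +kernel) A2_c0_t35 A2_c0_t62

theorem A2_c0 : CovD 1 gA2 [(154618822656, 17179869184), (137438953472, 137438953472), (5497558138880, 5497558138880)] :=
  covD_split 0 (by decide +kernel) A2_c0_t1 A2_c0_t34

theorem B2_c0 : CovD 1 gB2 [(154618822656, 17179869184), (137438953472, 137438953472), (54975791104, 54975791104)] :=
  covD_split 1 (by decide +kernel) B2_c0_t1 B2_c0_t2

theorem C2_c0_t25 : CovD 1 gC2 [(154618822656, 17179869184), (268435456, 268435456), (1097364144128, 2147483648)] :=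
  covD_split 2 (by decide +kernel) C2_c0_t26 C2_c0_t27

theorem C2_c0_t23 : CovD 1 gC2 [(154618822656, 17179869184), (268435456, 268435456), (1095216660480, 4294967296)] :=
  covD_split 2 (by decide +kernel) C2_c0_t24 C2_c0_t25

theorem C2_c0_t21 : CovD 1 gC2 [(154618822656, 17179869184), (268435456, 268435456), (1090921693184, 8589934592)] :=
  covD_split 2 (by decide +kernel) C2_c0_t22 C2_c0_t23

theorem C2_c0_t19 : CovD 1 gC2 [(154618822656, 17179869184), (268435456, 268435456), (1082331758592, 17179869184)] :=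
  covD_split 2 (by decide +kernel) C2_c0_t20 C2_c0_t21

theorem C2_c0_t17 : CovD 1 gC2 [(154618822656, 17179869184), (268435456, 268435456), (1065151889408, 34359738368)] :=
  covD_split 2 (by decide +kernel) C2_c0_t18 C2_c0_t19

theorem C2_c0_t15 : CovD 1 gC2 [(154618822656, 17179869184), (268435456, 268435456), (1030792151040, 68719476736)] :=
  covD_split 2 (by decide +kernel) C2_c0_t16 C2_c0_t17

theorem C2_c0_t14 : CovD 1 gC2 [(154618822656, 17179869184), (536870912, 536870912), (1030792151040, 68719476736)] :=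
  covD_split 1 (by decide +kernel) C2_c0_t15 C2_c0_t28

theorem C2_c0_t13 : CovD 1 gC2 [(154618822656, 17179869184), (1073741824, 1073741824), (1030792151040, 68719476736)] :=
  covD_split 1 (by decide +kernel) C2_c0_t14 C2_c0_t29

theorem C2_c0_t12 : CovD 1 gC2 [(154618822656, 17179869184), (2147483648, 2147483648), (1030792151040, 68719476736)] :=
  covD_split 1 (by decide +kernel) C2_c0_t13 C2_c0_t30

theorem C2_c0_t11 : CovD 1 gC2 [(154618822656, 17179869184), (4294967296, 4294967296), (1030792151040, 68719476736)] :=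
  covD_split 1 (by decide +kernel) C2_c0_t12 C2_c0_t31

theorem C2_c0_t9 : CovD 1 gC2 [(154618822656, 17179869184), (4294967296, 4294967296), (962072674304, 137438953472)] :=
  covD_split 2 (by decide +kernel) C2_c0_t10 C2_c0_t11

theorem C2_c0_t7 : CovD 1 gC2 [(154618822656, 17179869184), (4294967296, 4294967296), (824633720832, 274877906944)] :=
  covD_split 2 (by decide +kernel) C2_c0_t8 C2_c0_t9

theorem C2_c0_t5 : CovD 1 gC2 [(154618822656, 17179869184), (4294967296, 4294967296), (549755813888, 549755813888)] :=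
  covD_split 2 (by decide +kernel) C2_c0_t6 C2_c0_t7

theorem C2_c0_t4 : CovD 1 gC2 [(154618822656, 17179869184), (8589934592, 8589934592), (549755813888, 549755813888)] :=
  covD_split 1 (by decide +kernel) C2_c0_t5 C2_c0_t32

theorem C2_c0_t3 : CovD 1 gC2 [(154618822656, 17179869184), (17179869184, 17179869184), (549755813888, 549755813888)] :=
  covD_split 1 (by decide +kernel) C2_c0_t4 C2_c0_t33

theorem C2_c0_t2 : CovD 1 gC2 [(154618822656, 17179869184), (34359738368, 34359738368), (549755813888, 549755813888)] :=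
  covD_split 1 (by decide +kernel) C2_c0_t3 C2_c0_t34

theorem C2_c0_t1 : CovD 1 gC2 [(154618822656, 17179869184), (68719476736, 68719476736), (549755813888, 549755813888)] :=
  covD_split 1 (by decide +kernel) C2_c0_t2 C2_c0_t35

theorem C2_c0 : CovD 1 gC2 [(154618822656, 17179869184), (137438953472, 137438953472), (549755813888, 549755813888)] :=
  covD_split 1 (by decide +kernel) C2_c0_t1 C2_c0_t36

theorem E2_c0_t3 : CovD 1 gE2 [(141733920768, 4294967296), (137438953472, 137438953472), (431777382400, 431777382400)] :=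
  covD_split 1 (by decide +kernel) E2_c0_t4 E2_c0_t5

theorem E2_c0_t2 : CovD 1 gE2 [(146028888064, 8589934592), (137438953472, 137438953472), (431777382400, 431777382400)] :=
  covD_split 0 (by decide +kernel) E2_c0_t3 E2_c0_t6

theorem E2_c0_t1 : CovD 1 gE2 [(154618822656, 17179869184), (137438953472, 137438953472), (431777382400, 431777382400)] :=
  covD_split 0 (by decide +kernel) E2_c0_t2 E2_c0_t7

theorem E2_c0 : CovD 1 gE2 [(154618822656, 17179869184), (137438953472, 137438953472), (863554764800, 863554764800)] :=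
  covD_split 2 (by decide +kernel) E2_c0_t1 E2_c0_t8

end Pool.Agent.helper14.NR.E6a
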