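import Pool.Agent.helper14.NR.E6a.PN5

/-!
Generated: certificates.
-/

namespace Pool.Agent.helper14.NR.E6a

open Pool.Agent.helper31.IA (Z)
open Pool.Agent.helper31.IX (Op XOps runX Cov CovD cov_split covD_split)
open Pool.Agent.helper31.IC (TD)
open Pool.Agent.helper63.RG (reloc)
open Pool.Agent.helper63.NF hiding TD
open Pool.Agent.helper14.CF (xE covD_E)
open Pool.Agent.helper14.NR (share)

mutual
theorem A5_c0_t9 : CovD 1 gA5 [(146028888064, 8589934592), (34359738368, 34359738368), (85899345920, 85899345920)] :=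
  covD_E kA5_eq (.n 2 (.l 2) (.n 2 (.l 2) (.n 2 (.n 1 (.n 0 (.n 1 (.l 0) (.l 0)) (.n 1 (.l 0) (.l 0))) (.n 1 (.l 0) (.l 0))) (.n 1 (.n 1 (.l 0) (.l 0)) (.n 1 (.l 0) (.l 0))))))
    [(146028888064, 8589934592), (34359738368, 34359738368), (85899345920, 85899345920)] rfl (by decide +kernel)
theorem A5_c0_t11 : CovD 1 gA5 [(146028888064, 8589934592), (17179869184, 17179869184), (257698037760, 85899345920)] :=
  covD_E kA5_eq (.n 1 (.n 2 (.n 2 (.n 0 (.l 0) (.l 0)) (.l 0)) (.n 0 (.l 0) (.l 0))) (.n 2 (.n 2 (.n 0 (.l 0) (.l 0)) (.l 0)) (.n 0 (.l 0) (.l 0))))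
    [(146028888064, 8589934592), (17179869184, 17179869184), (257698037760, 85899345920)] rfl (by decide +kernel)
end

mutual
theorem A5_c0_t12 : CovD 1 gA5 [(146028888064, 8589934592), (51539607552, 17179869184), (257698037760, 85899345920)] :=
  covD_E kA5_eq (.n 2 (.n 1 (.n 2 (.n 0 (.l 0) (.l 0)) (.l 0)) (.n 2 (.l 0) (.l 0))) (.n 2 (.n 0 (.l 0) (.l 0)) (.l 0)))
    [(146028888064, 8589934592), (51539607552, 17179869184), (257698037760, 85899345920)] rfl (by decide +kernel)
theorem A5_c0_t13 : CovD 1 gA5 [(146028888064, 8589934592), (34359738368, 34359738368), (515396075520, 171798691840)] :=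
  covD_E kA5_eq (.n 1 (.n 2 (.n 1 (.n 2 (.l 0) (.l 0)) (.n 2 (.l 0) (.l 0))) (.n 2 (.l 0) (.l 0))) (.n 2 (.n 2 (.n 0 (.l 0) (.l 0)) (.l 0)) (.n 2 (.l 0) (.l 0))))
    [(146028888064, 8589934592), (34359738368, 34359738368), (515396075520, 171798691840)] rfl (by decide +kernel)
end

mutual
theorem A5_c0_t14 : CovD 1 gA5 [(146028888064, 8589934592), (34359738368, 34359738368), (1030792151040, 343597383680)] :=
  covD_E kA5_eq (.n 2 (.n 2 (.n 2 (.n 0 (.l 0) (.l 0)) (.l 0)) (.n 0 (.l 0) (.l 0))) (.n 2 (.l 0) (.l 0)))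
    [(146028888064, 8589934592), (34359738368, 34359738368), (1030792151040, 343597383680)] rfl (by decide +kernel)
theorem A5_c0_t15 : CovD 1 gA5 [(146028888064, 8589934592), (34359738368, 34359738368), (2061584302080, 687194767360)] :=
  covD_E kA5_eq (.n 2 (.n 2 (.n 0 (.l 0) (.l 0)) (.l 0)) (.n 0 (.l 0) (.l 0)))
    [(146028888064, 8589934592), (34359738368, 34359738368), (2061584302080, 687194767360)] rfl (by decide +kernel)
end

mutual
theorem A5_c0_t20 : CovD 1 gA5 [(163208757248, 8589934592), (34359738368, 34359738368), (85899345920, 85899345920)] :=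
  covD_E kA5_eq (.n 2 (.l 2) (.n 2 (.l 2) (.n 2 (.n 1 (.n 0 (.n 1 (.l 0) (.l 0)) (.n 1 (.l 0) (.l 0))) (.n 1 (.l 0) (.l 0))) (.n 1 (.n 1 (.l 0) (.l 0)) (.n 1 (.l 0) (.l 0))))))
    [(163208757248, 8589934592), (34359738368, 34359738368), (85899345920, 85899345920)] rfl (by decide +kernel)
theorem A5_c0_t22 : CovD 1 gA5 [(163208757248, 8589934592), (17179869184, 17179869184), (257698037760, 85899345920)] :=
  covD_E kA5_eq (.n 1 (.n 2 (.n 2 (.n 0 (.l 0) (.l 0)) (.l 0)) (.n 0 (.l 0) (.l 0))) (.n 2 (.n 2 (.n 0 (.l 0) (.l 0)) (.l 0)) (.n 0 (.l 0) (.l 0))))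
    [(163208757248, 8589934592), (17179869184, 17179869184), (257698037760, 85899345920)] rfl (by decide +kernel)
end

mutual
theorem A5_c0_t23 : CovD 1 gA5 [(163208757248, 8589934592), (51539607552, 17179869184), (257698037760, 85899345920)] :=
  covD_E kA5_eq (.n 2 (.n 1 (.n 2 (.n 0 (.l 0) (.l 0)) (.l 0)) (.n 2 (.l 0) (.l 0))) (.n 2 (.n 0 (.l 0) (.l 0)) (.l 0)))
    [(163208757248, 8589934592), (51539607552, 17179869184), (257698037760, 85899345920)] rfl (by decide +kernel)
theorem A5_c0_t24 : CovD 1 gA5 [(163208757248, 8589934592), (34359738368, 34359738368), (515396075520, 171798691840)] :=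
  covD_E kA5_eq (.n 1 (.n 2 (.n 1 (.n 2 (.l 0) (.l 0)) (.n 2 (.l 0) (.l 0))) (.n 2 (.l 0) (.l 0))) (.n 2 (.n 2 (.n 0 (.l 0) (.l 0)) (.l 0)) (.n 2 (.l 0) (.l 0))))
    [(163208757248, 8589934592), (34359738368, 34359738368), (515396075520, 171798691840)] rfl (by decide +kernel)
end

mutual
theorem A5_c0_t25 : CovD 1 gA5 [(163208757248, 8589934592), (34359738368, 34359738368), (1030792151040, 343597383680)] :=
  covD_E kA5_eq (.n 2 (.n 2 (.n 2 (.n 0 (.l 0) (.l 0)) (.l 0)) (.n 0 (.l 0) (.l 0))) (.n 2 (.l 0) (.l 0)))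
    [(163208757248, 8589934592), (34359738368, 34359738368), (1030792151040, 343597383680)] rfl (by decide +kernel)
theorem A5_c0_t26 : CovD 1 gA5 [(163208757248, 8589934592), (34359738368, 34359738368), (2061584302080, 687194767360)] :=
  covD_E kA5_eq (.n 2 (.n 2 (.n 0 (.l 0) (.l 0)) (.l 0)) (.n 0 (.l 0) (.l 0)))
    [(163208757248, 8589934592), (34359738368, 34359738368), (2061584302080, 687194767360)] rfl (by decide +kernel)
end

mutual
theorem A5_c0_t31 : CovD 1 gA5 [(146028888064, 8589934592), (103079215104, 34359738368), (171798691840, 171798691840)] :=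
  covD_E kA5_eq (.n 2 (.n 2 (.l 2) (.n 1 (.n 2 (.l 2) (.n 0 (.l 0) (.l 0))) (.n 0 (.l 0) (.l 0)))) (.n 1 (.n 2 (.n 2 (.l 0) (.l 0)) (.n 1 (.l 0) (.l 0))) (.n 2 (.n 0 (.l 0) (.l 0)) (.l 0))))
    [(146028888064, 8589934592), (103079215104, 34359738368), (171798691840, 171798691840)] rfl (by decide +kernel)
theorem A5_c0_t32 : CovD 1 gA5 [(146028888064, 8589934592), (103079215104, 34359738368), (515396075520, 171798691840)] :=
  covD_E kA5_eq (.n 1 (.n 2 (.n 2 (.n 0 (.l 0) (.l 0)) (.l 0)) (.n 0 (.l 0) (.l 0))) (.n 2 (.n 2 (.l 0) (.l 0)) (.n 0 (.l 0) (.l 0))))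
    [(146028888064, 8589934592), (103079215104, 34359738368), (515396075520, 171798691840)] rfl (by decide +kernel)
end

mutual
theorem A5_c0_t33 : CovD 1 gA5 [(146028888064, 8589934592), (103079215104, 34359738368), (1030792151040, 343597383680)] :=
  covD_E kA5_eq (.n 2 (.n 1 (.n 2 (.l 0) (.l 0)) (.n 2 (.l 0) (.l 0))) (.n 2 (.l 0) (.l 0)))
    [(146028888064, 8589934592), (103079215104, 34359738368), (1030792151040, 343597383680)] rfl (by decide +kernel)
theorem A5_c0_t34 : CovD 1 gA5 [(146028888064, 8589934592), (103079215104, 34359738368), (2061584302080, 687194767360)] :=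
  covD_E kA5_eq (.n 2 (.n 2 (.n 0 (.l 0) (.l 0)) (.l 0)) (.n 0 (.l 0) (.l 0)))
    [(146028888064, 8589934592), (103079215104, 34359738368), (2061584302080, 687194767360)] rfl (by decide +kernel)
end

mutual
theorem A5_c0_t38 : CovD 1 gA5 [(163208757248, 8589934592), (103079215104, 34359738368), (171798691840, 171798691840)] :=
  covD_E kA5_eq (.n 2 (.n 2 (.l 2) (.n 1 (.n 2 (.l 0) (.l 0)) (.n 0 (.l 0) (.l 0)))) (.n 1 (.n 2 (.n 2 (.l 0) (.l 0)) (.n 1 (.l 0) (.l 0))) (.n 2 (.n 0 (.l 0) (.l 0)) (.l 0))))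
    [(163208757248, 8589934592), (103079215104, 34359738368), (171798691840, 171798691840)] rfl (by decide +kernel)
theorem A5_c0_t39 : CovD 1 gA5 [(163208757248, 8589934592), (103079215104, 34359738368), (515396075520, 171798691840)] :=
  covD_E kA5_eq (.n 1 (.n 2 (.n 2 (.n 0 (.l 0) (.l 0)) (.l 0)) (.n 0 (.l 0) (.l 0))) (.n 2 (.n 2 (.l 0) (.l 0)) (.n 0 (.l 0) (.l 0))))
    [(163208757248, 8589934592), (103079215104, 34359738368), (515396075520, 171798691840)] rfl (by decide +kernel)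
end

mutual
theorem A5_c0_t40 : CovD 1 gA5 [(163208757248, 8589934592), (103079215104, 34359738368), (1030792151040, 343597383680)] :=
  covD_E kA5_eq (.n 2 (.n 1 (.n 2 (.l 0) (.l 0)) (.n 2 (.l 0) (.l 0))) (.n 2 (.l 0) (.l 0)))
    [(163208757248, 8589934592), (103079215104, 34359738368), (1030792151040, 343597383680)] rfl (by decide +kernel)
theorem A5_c0_t41 : CovD 1 gA5 [(163208757248, 8589934592), (103079215104, 34359738368), (2061584302080, 687194767360)] :=
  covD_E kA5_eq (.n 2 (.n 2 (.n 0 (.l 0) (.l 0)) (.l 0)) (.n 0 (.l 0) (.l 0)))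
    [(163208757248, 8589934592), (103079215104, 34359738368), (2061584302080, 687194767360)] rfl (by decide +kernel)
end

mutual
theorem A5_c0_t44 : CovD 1 gA5 [(146028888064, 8589934592), (68719476736, 68719476736), (3435973836800, 687194767360)] :=
  covD_E kA5_eq (.n 2 (.n 0 (.n 1 (.l 0) (.l 0)) (.n 1 (.l 0) (.l 0))) (.n 2 (.n 1 (.l 0) (.l 0)) (.n 0 (.n 0 (.n 2 (.l 0) (.n 1 (.l 0) (.l 0))) (.l 0)) (.l 0))))
    [(146028888064, 8589934592), (68719476736, 68719476736), (3435973836800, 687194767360)] rfl (by decide +kernel)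
theorem A5_c0_t46 : CovD 1 gA5 [(141733920768, 4294967296), (68719476736, 68719476736), (4810363371520, 687194767360)] :=
  covD_E kA5_eq (.n 0 (.n 2 (.n 2 (.n 2 (.n 0 (.l 1) (.n 0 (.l 1) (.l 0))) (.l 1)) (.l 1)) (.l 1)) (.n 2 (.n 1 (.n 2 (.l 0) (.l 1)) (.n 2 (.l 0) (.l 1))) (.l 1)))
    [(141733920768, 4294967296), (68719476736, 68719476736), (4810363371520, 687194767360)] rfl (by decide +kernel)
end

mutual
theorem A5_c0_t47 : CovD 1 gA5 [(150323855360, 4294967296), (68719476736, 68719476736), (4810363371520, 687194767360)] :=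
  covD_E kA5_eq (.n 2 (.n 0 (.n 2 (.l 0) (.l 0)) (.l 0)) (.n 1 (.n 2 (.l 0) (.l 1)) (.n 2 (.l 0) (.l 1))))
    [(150323855360, 4294967296), (68719476736, 68719476736), (4810363371520, 687194767360)] rfl (by decide +kernel)
theorem A5_c0_t48 : CovD 1 gA5 [(163208757248, 8589934592), (68719476736, 68719476736), (4123168604160, 1374389534720)] :=
  covD_E kA5_eq (.n 1 (.n 2 (.n 2 (.l 0) (.l 0)) (.n 2 (.l 0) (.l 0))) (.n 2 (.n 2 (.l 0) (.l 0)) (.n 2 (.l 0) (.l 0))))
    [(163208757248, 8589934592), (68719476736, 68719476736), (4123168604160, 1374389534720)] rfl (by decide +kernel)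
end

mutual
theorem A5_c0_t50 : CovD 1 gA5 [(146028888064, 8589934592), (68719476736, 68719476736), (8246337208320, 2748779069440)] :=
  covD_E kA5_eq (.n 2 (.n 2 (.n 0 (.l 1) (.n 0 (.l 1) (.n 2 (.l 1) (.l 1)))) (.l 1)) (.n 0 (.l 1) (.l 1)))
    [(146028888064, 8589934592), (68719476736, 68719476736), (8246337208320, 2748779069440)] rfl (by decide +kernel)
theorem A5_c0_t51 : CovD 1 gA5 [(163208757248, 8589934592), (68719476736, 68719476736), (8246337208320, 2748779069440)] :=
  covD_E kA5_eq (.n 0 (.n 2 (.n 2 (.n 2 (.l 0) (.l 0)) (.n 0 (.l 1) (.l 0))) (.n 2 (.l 1) (.l 1))) (.n 1 (.n 2 (.n 2 (.l 0) (.l 0)) (.l 0)) (.n 2 (.n 2 (.l 0) (.l 0)) (.l 0))))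
    [(163208757248, 8589934592), (68719476736, 68719476736), (8246337208320, 2748779069440)] rfl (by decide +kernel)
end

mutual
theorem A5_c0_t58 : CovD 1 gA5 [(154618822656, 17179869184), (206158430208, 68719476736), (85899345920, 85899345920)] :=
  covD_E kA5_eq (.n 2 (.n 1 (.l 2) (.n 0 (.n 0 (.l 0) (.l 0)) (.l 0))) (.n 0 (.n 1 (.n 1 (.n 0 (.l 0) (.l 0)) (.l 0)) (.n 0 (.l 0) (.l 0))) (.n 1 (.n 0 (.l 0) (.l 0)) (.l 0))))
    [(154618822656, 17179869184), (206158430208, 68719476736), (85899345920, 85899345920)] rfl (by decide +kernel)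
theorem A5_c0_t59 : CovD 1 gA5 [(154618822656, 17179869184), (206158430208, 68719476736), (257698037760, 85899345920)] :=
  covD_E kA5_eq (.n 0 (.n 1 (.n 0 (.n 2 (.l 0) (.l 0)) (.n 2 (.l 0) (.l 0))) (.n 2 (.n 0 (.l 0) (.l 0)) (.l 0))) (.n 1 (.n 0 (.n 2 (.l 0) (.l 0)) (.n 2 (.l 0) (.l 0))) (.n 2 (.l 0) (.l 0))))
    [(154618822656, 17179869184), (206158430208, 68719476736), (257698037760, 85899345920)] rfl (by decide +kernel)
end

mutual
theorem A5_c0_t61 : CovD 1 gA5 [(146028888064, 8589934592), (206158430208, 68719476736), (515396075520, 171798691840)] :=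
  covD_E kA5_eq (.n 1 (.n 2 (.n 2 (.n 0 (.l 0) (.l 0)) (.l 0)) (.n 0 (.l 0) (.l 0))) (.n 0 (.n 2 (.l 0) (.l 0)) (.n 2 (.l 0) (.l 0))))
    [(146028888064, 8589934592), (206158430208, 68719476736), (515396075520, 171798691840)] rfl (by decide +kernel)
theorem A5_c0_t62 : CovD 1 gA5 [(163208757248, 8589934592), (206158430208, 68719476736), (515396075520, 171798691840)] :=
  covD_E kA5_eq (.n 1 (.n 2 (.n 2 (.n 0 (.l 0) (.l 0)) (.l 0)) (.n 0 (.l 0) (.l 0))) (.n 0 (.n 2 (.l 0) (.l 0)) (.n 2 (.l 0) (.l 0))))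
    [(163208757248, 8589934592), (206158430208, 68719476736), (515396075520, 171798691840)] rfl (by decide +kernel)
end

mutual
theorem A5_c0_t64 : CovD 1 gA5 [(146028888064, 8589934592), (206158430208, 68719476736), (1030792151040, 343597383680)] :=
  covD_E kA5_eq (.n 1 (.n 2 (.n 2 (.n 0 (.l 0) (.l 0)) (.l 0)) (.n 2 (.l 0) (.l 0))) (.n 2 (.n 2 (.l 0) (.l 0)) (.n 0 (.l 0) (.l 0))))
    [(146028888064, 8589934592), (206158430208, 68719476736), (1030792151040, 343597383680)] rfl (by decide +kernel)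
theorem A5_c0_t65 : CovD 1 gA5 [(163208757248, 8589934592), (206158430208, 68719476736), (1030792151040, 343597383680)] :=
  covD_E kA5_eq (.n 1 (.n 2 (.n 2 (.n 0 (.l 0) (.l 0)) (.l 0)) (.n 0 (.l 0) (.l 0))) (.n 2 (.n 2 (.l 0) (.l 0)) (.n 0 (.l 0) (.l 0))))
    [(163208757248, 8589934592), (206158430208, 68719476736), (1030792151040, 343597383680)] rfl (by decide +kernel)
end

mutual
theorem A5_c0_t66 : CovD 1 gA5 [(154618822656, 17179869184), (206158430208, 68719476736), (2061584302080, 687194767360)] :=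
  covD_E kA5_eq (.n 0 (.n 1 (.n 2 (.n 2 (.l 0) (.l 0)) (.n 0 (.l 0) (.l 0))) (.n 2 (.n 2 (.l 0) (.l 0)) (.n 0 (.l 0) (.l 0)))) (.n 1 (.n 2 (.n 2 (.l 0) (.l 0)) (.n 0 (.l 0) (.l 0))) (.n 2 (.n 2 (.l 0) (.l 0)) (.n 0 (.l 0) (.l 0)))))
    [(154618822656, 17179869184), (206158430208, 68719476736), (2061584302080, 687194767360)] rfl (by decide +kernel)
theorem A5_c0_t69 : CovD 1 gA5 [(146028888064, 8589934592), (206158430208, 68719476736), (3435973836800, 687194767360)] :=
  covD_E kA5_eq (.n 2 (.n 1 (.l 0) (.l 0)) (.n 0 (.n 2 (.l 0) (.n 1 (.l 0) (.l 0))) (.l 0)))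
    [(146028888064, 8589934592), (206158430208, 68719476736), (3435973836800, 687194767360)] rfl (by decide +kernel)
end

mutual
theorem A5_c0_t70 : CovD 1 gA5 [(146028888064, 8589934592), (206158430208, 68719476736), (4810363371520, 687194767360)] :=
  covD_E kA5_eq (.n 0 (.n 2 (.n 0 (.n 2 (.n 1 (.n 2 (.l 0) (.l 1)) (.n 0 (.l 0) (.l 0))) (.l 1)) (.n 2 (.l 0) (.n 1 (.l 0) (.l 0)))) (.n 2 (.l 1) (.l 1))) (.n 0 (.n 2 (.l 0) (.n 2 (.l 0) (.l 0))) (.n 2 (.l 0) (.l 0))))
    [(146028888064, 8589934592), (206158430208, 68719476736), (4810363371520, 687194767360)] rfl (by decide +kernel)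
theorem A5_c0_t71 : CovD 1 gA5 [(163208757248, 8589934592), (206158430208, 68719476736), (4123168604160, 1374389534720)] :=
  covD_E kA5_eq (.n 1 (.n 2 (.n 2 (.l 0) (.l 0)) (.n 0 (.l 0) (.l 0))) (.n 2 (.n 2 (.l 0) (.l 0)) (.n 0 (.l 0) (.l 0))))
    [(163208757248, 8589934592), (206158430208, 68719476736), (4123168604160, 1374389534720)] rfl (by decide +kernel)
end

mutual
theorem A5_c0_t72 : CovD 1 gA5 [(154618822656, 17179869184), (206158430208, 68719476736), (8246337208320, 2748779069440)] :=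
  covD_E kA5_eq (.n 0 (.n 2 (.n 2 (.n 0 (.l 1) (.n 2 (.n 0 (.l 1) (.l 0)) (.l 1))) (.l 1)) (.n 0 (.l 1) (.l 1))) (.n 1 (.n 2 (.n 2 (.l 0) (.l 0)) (.n 2 (.l 0) (.l 0))) (.n 2 (.n 2 (.l 0) (.l 0)) (.n 2 (.l 0) (.l 0)))))
    [(154618822656, 17179869184), (206158430208, 68719476736), (8246337208320, 2748779069440)] rfl (by decide +kernel)
theorem B5_c0 : CovD 1 gB5 [(154618822656, 17179869184), (137438953472, 137438953472), (54975791104, 54975791104)] :=
  covD_E kB5_eq (.n 0 (.n 1 (.n 2 (.l 1) (.l 1)) (.n 2 (.l 1) (.l 1))) (.n 0 (.n 1 (.n 2 (.l 1) (.l 1)) (.n 2 (.l 1) (.n 2 (.l 1) (.l 1)))) (.n 1 (.n 1 (.n 2 (.l 0) (.l 0)) (.n 2 (.l 0) (.l 0))) (.n 2 (.l 0) (.l 0)))))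
    [(154618822656, 17179869184), (137438953472, 137438953472), (54975791104, 54975791104)] rfl (by decide +kernel)
end

mutual
theorem C5_c0_t6 : CovD 1 gC5 [(146028888064, 8589934592), (8589934592, 8589934592), (274877906944, 274877906944)] :=
  covD_E kC5_eq (.n 2 (.n 2 (.l 0) (.l 0)) (.n 2 (.l 0) (.l 0)))
    [(146028888064, 8589934592), (8589934592, 8589934592), (274877906944, 274877906944)] rfl (by decide +kernel)
theorem C5_c0_t7 : CovD 1 gC5 [(146028888064, 8589934592), (8589934592, 8589934592), (824633720832, 274877906944)] :=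
  covD_E kC5_eq (.n 2 (.n 2 (.l 0) (.n 0 (.l 0) (.l 0))) (.n 1 (.n 2 (.l 0) (.n 1 (.n 2 (.l 0) (.n 2 (.l 0) (.n 2 (.l 0) (.n 0 (.n 0 (.l 1) (.l 1)) (.n 0 (.l 1) (.l 1)))))) (.l 0))) (.n 0 (.l 0) (.l 0))))
    [(146028888064, 8589934592), (8589934592, 8589934592), (824633720832, 274877906944)] rfl (by decide +kernel)
end

mutual
theorem C5_c0_t8 : CovD 1 gC5 [(163208757248, 8589934592), (8589934592, 8589934592), (549755813888, 549755813888)] :=
  covD_E kC5_eq (.n 2 (.n 2 (.n 2 (.l 0) (.l 0)) (.n 2 (.l 0) (.l 0))) (.n 2 (.n 2 (.l 0) (.l 0)) (.n 1 (.n 2 (.l 0) (.n 2 (.l 0) (.n 2 (.l 0) (.n 2 (.l 0) (.n 0 (.n 0 (.l 1) (.l 1)) (.l 1)))))) (.n 0 (.l 0) (.l 0)))))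
    [(163208757248, 8589934592), (8589934592, 8589934592), (549755813888, 549755813888)] rfl (by decide +kernel)
theorem C5_c0_t9 : CovD 1 gC5 [(154618822656, 17179869184), (25769803776, 8589934592), (549755813888, 549755813888)] :=
  covD_E kC5_eq (.n 2 (.n 2 (.n 2 (.l 0) (.l 0)) (.n 2 (.l 0) (.l 0))) (.n 2 (.n 2 (.l 0) (.n 0 (.l 0) (.l 0))) (.n 0 (.n 2 (.l 0) (.n 0 (.l 0) (.l 0))) (.n 2 (.l 0) (.n 0 (.l 0) (.l 0))))))
    [(154618822656, 17179869184), (25769803776, 8589934592), (549755813888, 549755813888)] rfl (by decide +kernel)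
end

mutual
theorem C5_c0_t10 : CovD 1 gC5 [(154618822656, 17179869184), (51539607552, 17179869184), (549755813888, 549755813888)] :=
  covD_E kC5_eq (.n 2 (.n 2 (.n 2 (.l 0) (.l 0)) (.n 2 (.l 0) (.n 0 (.l 0) (.l 0)))) (.n 0 (.n 1 (.n 2 (.l 0) (.n 0 (.l 0) (.l 0))) (.n 2 (.l 0) (.l 0))) (.n 1 (.n 2 (.l 0) (.n 0 (.l 0) (.l 0))) (.n 2 (.l 0) (.l 0)))))
    [(154618822656, 17179869184), (51539607552, 17179869184), (549755813888, 549755813888)] rfl (by decide +kernel)
theorem C5_c0_t11 : CovD 1 gC5 [(154618822656, 17179869184), (103079215104, 34359738368), (549755813888, 549755813888)] :=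
  covD_E kC5_eq (.n 0 (.n 2 (.n 2 (.l 0) (.l 0)) (.n 1 (.n 2 (.l 0) (.n 0 (.l 0) (.l 0))) (.n 2 (.l 0) (.l 0)))) (.n 2 (.n 2 (.l 0) (.l 0)) (.n 1 (.n 2 (.l 0) (.l 0)) (.n 2 (.l 0) (.l 0)))))
    [(154618822656, 17179869184), (103079215104, 34359738368), (549755813888, 549755813888)] rfl (by decide +kernel)
end

mutual
theorem C5_c0_t12 : CovD 1 gC5 [(154618822656, 17179869184), (206158430208, 68719476736), (549755813888, 549755813888)] :=
  covD_E kC5_eq (.n 0 (.n 2 (.n 2 (.l 0) (.n 0 (.l 0) (.l 0))) (.n 1 (.n 2 (.l 0) (.n 0 (.l 0) (.l 0))) (.n 2 (.l 0) (.l 0)))) (.n 2 (.n 2 (.l 0) (.n 0 (.l 0) (.l 0))) (.n 1 (.n 2 (.l 0) (.l 0)) (.n 2 (.l 0) (.l 0)))))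
    [(154618822656, 17179869184), (206158430208, 68719476736), (549755813888, 549755813888)] rfl (by decide +kernel)
theorem D5_c0_t1 : CovD 1 gD5 [(154618822656, 17179869184), (68719476736, 68719476736), (863554764800, 863554764800)] :=
  covD_E kD5_eq (.n 2 (.n 2 (.n 0 (.l 0) (.l 0)) (.n 2 (.l 0) (.l 0))) (.n 2 (.n 2 (.l 0) (.l 0)) (.n 2 (.n 2 (.l 0) (.l 0)) (.n 0 (.n 2 (.l 0) (.n 0 (.l 0) (.l 0))) (.l 0)))))
    [(154618822656, 17179869184), (68719476736, 68719476736), (863554764800, 863554764800)] rfl (by decide +kernel)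
end

mutual
theorem D5_c0_t2 : CovD 1 gD5 [(154618822656, 17179869184), (206158430208, 68719476736), (863554764800, 863554764800)] :=
  covD_E kD5_eq (.n 2 (.n 2 (.n 0 (.l 0) (.l 0)) (.n 2 (.l 0) (.l 0))) (.n 2 (.n 2 (.l 0) (.l 0)) (.n 0 (.n 2 (.l 0) (.n 2 (.l 0) (.l 0))) (.n 2 (.l 0) (.l 0)))))
    [(154618822656, 17179869184), (206158430208, 68719476736), (863554764800, 863554764800)] rfl (by decide +kernel)
theorem E5_c0_t1 : CovD 1 gE5 [(154618822656, 17179869184), (137438953472, 137438953472), (431777382400, 431777382400)] :=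
  covD_E kE5_eq (.n 1 (.n 2 (.l 1) (.l 1)) (.n 2 (.l 1) (.l 1)))
    [(154618822656, 17179869184), (137438953472, 137438953472), (431777382400, 431777382400)] rfl (by decide +kernel)
end

theorem E5_c0_t2 : CovD 1 gE5 [(154618822656, 17179869184), (137438953472, 137438953472), (1295332147200, 431777382400)] :=
  covD_E kE5_eq (.n 1 (.n 0 (.n 2 (.l 1) (.n 2 (.l 1) (.n 0 (.n 0 (.n 1 (.l 1) (.l 1)) (.l 1)) (.l 1)))) (.n 2 (.l 1) (.l 1))) (.n 2 (.l 1) (.n 0 (.n 0 (.n 2 (.l 1) (.n 0 (.l 1) (.l 1))) (.l 1)) (.l 1))))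
    [(154618822656, 17179869184), (137438953472, 137438953472), (1295332147200, 431777382400)] rfl (by decide +kernel)

theorem A5_c0_t10 : CovD 1 gA5 [(146028888064, 8589934592), (34359738368, 34359738368), (257698037760, 85899345920)] :=
  covD_split 1 (by decide +kernel) A5_c0_t11 A5_c0_t12

theorem A5_c0_t8 : CovD 1 gA5 [(146028888064, 8589934592), (34359738368, 34359738368), (171798691840, 171798691840)] :=
  covD_split 2 (by decide +kernel) A5_c0_t9 A5_c0_t10

theorem A5_c0_t7 : CovD 1 gA5 [(146028888064, 8589934592), (34359738368, 34359738368), (343597383680, 343597383680)] :=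
  covD_split 2 (by decide +kernel) A5_c0_t8 A5_c0_t13

theorem A5_c0_t6 : CovD 1 gA5 [(146028888064, 8589934592), (34359738368, 34359738368), (687194767360, 687194767360)] :=
  covD_split 2 (by decide +kernel) A5_c0_t7 A5_c0_t14

theorem A5_c0_t5 : CovD 1 gA5 [(146028888064, 8589934592), (34359738368, 34359738368), (1374389534720, 1374389534720)] :=
  covD_split 2 (by decide +kernel) A5_c0_t6 A5_c0_t15

theorem A5_c0_t21 : CovD 1 gA5 [(163208757248, 8589934592), (34359738368, 34359738368), (257698037760, 85899345920)] :=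
  covD_split 1 (by decide +kernel) A5_c0_t22 A5_c0_t23

theorem A5_c0_t19 : CovD 1 gA5 [(163208757248, 8589934592), (34359738368, 34359738368), (171798691840, 171798691840)] :=
  covD_split 2 (by decide +kernel) A5_c0_t20 A5_c0_t21

theorem A5_c0_t18 : CovD 1 gA5 [(163208757248, 8589934592), (34359738368, 34359738368), (343597383680, 343597383680)] :=
  covD_split 2 (by decide +kernel) A5_c0_t19 A5_c0_t24

theorem A5_c0_t17 : CovD 1 gA5 [(163208757248, 8589934592), (34359738368, 34359738368), (687194767360, 687194767360)] :=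
  covD_split 2 (by decide +kernel) A5_c0_t18 A5_c0_t25

theorem A5_c0_t16 : CovD 1 gA5 [(163208757248, 8589934592), (34359738368, 34359738368), (1374389534720, 1374389534720)] :=
  covD_split 2 (by decide +kernel) A5_c0_t17 A5_c0_t26

theorem A5_c0_t4 : CovD 1 gA5 [(154618822656, 17179869184), (34359738368, 34359738368), (1374389534720, 1374389534720)] :=
  covD_split 0 (by decide +kernel) A5_c0_t5 A5_c0_t16

theorem A5_c0_t30 : CovD 1 gA5 [(146028888064, 8589934592), (103079215104, 34359738368), (343597383680, 343597383680)] :=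
  covD_split 2 (by decide +kernel) A5_c0_t31 A5_c0_t32

theorem A5_c0_t29 : CovD 1 gA5 [(146028888064, 8589934592), (103079215104, 34359738368), (687194767360, 687194767360)] :=
  covD_split 2 (by decide +kernel) A5_c0_t30 A5_c0_t33

theorem A5_c0_t28 : CovD 1 gA5 [(146028888064, 8589934592), (103079215104, 34359738368), (1374389534720, 1374389534720)] :=
  covD_split 2 (by decide +kernel) A5_c0_t29 A5_c0_t34

theorem A5_c0_t37 : CovD 1 gA5 [(163208757248, 8589934592), (103079215104, 34359738368), (343597383680, 343597383680)] :=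
  covD_split 2 (by decide +kernel) A5_c0_t38 A5_c0_t39

theorem A5_c0_t36 : CovD 1 gA5 [(163208757248, 8589934592), (103079215104, 34359738368), (687194767360, 687194767360)] :=
  covD_split 2 (by decide +kernel) A5_c0_t37 A5_c0_t40

theorem A5_c0_t35 : CovD 1 gA5 [(163208757248, 8589934592), (103079215104, 34359738368), (1374389534720, 1374389534720)] :=
  covD_split 2 (by decide +kernel) A5_c0_t36 A5_c0_t41

theorem A5_c0_t27 : CovD 1 gA5 [(154618822656, 17179869184), (103079215104, 34359738368), (1374389534720, 1374389534720)] :=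
  covD_split 0 (by decide +kernel) A5_c0_t28 A5_c0_t35

theorem A5_c0_t3 : CovD 1 gA5 [(154618822656, 17179869184), (68719476736, 68719476736), (1374389534720, 1374389534720)] :=
  covD_split 1 (by decide +kernel) A5_c0_t4 A5_c0_t27

theorem A5_c0_t45 : CovD 1 gA5 [(146028888064, 8589934592), (68719476736, 68719476736), (4810363371520, 687194767360)] :=
  covD_split 0 (by decide +kernel) A5_c0_t46 A5_c0_t47

theorem A5_c0_t43 : CovD 1 gA5 [(146028888064, 8589934592), (68719476736, 68719476736), (4123168604160, 1374389534720)] :=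
  covD_split 2 (by decide +kernel) A5_c0_t44 A5_c0_t45

theorem A5_c0_t42 : CovD 1 gA5 [(154618822656, 17179869184), (68719476736, 68719476736), (4123168604160, 1374389534720)] :=
  covD_split 0 (by decide +kernel) A5_c0_t43 A5_c0_t48

theorem A5_c0_t2 : CovD 1 gA5 [(154618822656, 17179869184), (68719476736, 68719476736), (2748779069440, 2748779069440)] :=
  covD_split 2 (by decide +kernel) A5_c0_t3 A5_c0_t42

theorem A5_c0_t49 : CovD 1 gA5 [(154618822656, 17179869184), (68719476736, 68719476736), (8246337208320, 2748779069440)] :=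
  covD_split 0 (by decide +kernel) A5_c0_t50 A5_c0_t51

theorem A5_c0_t1 : CovD 1 gA5 [(154618822656, 17179869184), (68719476736, 68719476736), (5497558138880, 5497558138880)] :=
  covD_split 2 (by decide +kernel) A5_c0_t2 A5_c0_t49

theorem A5_c0_t57 : CovD 1 gA5 [(154618822656, 17179869184), (206158430208, 68719476736), (171798691840, 171798691840)] :=
  covD_split 2 (by decide +kernel) A5_c0_t58 A5_c0_t59

theorem A5_c0_t60 : CovD 1 gA5 [(154618822656, 17179869184), (206158430208, 68719476736), (515396075520, 171798691840)] :=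
  covD_split 0 (by decide +kernel) A5_c0_t61 A5_c0_t62

theorem A5_c0_t56 : CovD 1 gA5 [(154618822656, 17179869184), (206158430208, 68719476736), (343597383680, 343597383680)] :=
  covD_split 2 (by decide +kernel) A5_c0_t57 A5_c0_t60

theorem A5_c0_t63 : CovD 1 gA5 [(154618822656, 17179869184), (206158430208, 68719476736), (1030792151040, 343597383680)] :=
  covD_split 0 (by decide +kernel) A5_c0_t64 A5_c0_t65

theorem A5_c0_t55 : CovD 1 gA5 [(154618822656, 17179869184), (206158430208, 68719476736), (687194767360, 687194767360)] :=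
  covD_split 2 (by decide +kernel) A5_c0_t56 A5_c0_t63

theorem A5_c0_t54 : CovD 1 gA5 [(154618822656, 17179869184), (206158430208, 68719476736), (1374389534720, 1374389534720)] :=
  covD_split 2 (by decide +kernel) A5_c0_t55 A5_c0_t66

theorem A5_c0_t68 : CovD 1 gA5 [(146028888064, 8589934592), (206158430208, 68719476736), (4123168604160, 1374389534720)] :=
  covD_split 2 (by decide +kernel) A5_c0_t69 A5_c0_t70

theorem A5_c0_t67 : CovD 1 gA5 [(154618822656, 17179869184), (206158430208, 68719476736), (4123168604160, 1374389534720)] :=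
  covD_split 0 (by decide +kernel) A5_c0_t68 A5_c0_t71

theorem A5_c0_t53 : CovD 1 gA5 [(154618822656, 17179869184), (206158430208, 68719476736), (2748779069440, 2748779069440)] :=
  covD_split 2 (by decide +kernel) A5_c0_t54 A5_c0_t67

theorem A5_c0_t52 : CovD 1 gA5 [(154618822656, 17179869184), (206158430208, 68719476736), (5497558138880, 5497558138880)] :=
  covD_split 2 (by decide +kernel) A5_c0_t53 A5_c0_t72

theorem A5_c0 : CovD 1 gA5 [(154618822656, 17179869184), (137438953472, 137438953472), (5497558138880, 5497558138880)] :=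
  covD_split 1 (by decide +kernel) A5_c0_t1 A5_c0_t52

theorem C5_c0_t5 : CovD 1 gC5 [(146028888064, 8589934592), (8589934592, 8589934592), (549755813888, 549755813888)] :=
  covD_split 2 (by decide +kernel) C5_c0_t6 C5_c0_t7

theorem C5_c0_t4 : CovD 1 gC5 [(154618822656, 17179869184), (8589934592, 8589934592), (549755813888, 549755813888)] :=
  covD_split 0 (by decide +kernel) C5_c0_t5 C5_c0_t8

theorem C5_c0_t3 : CovD 1 gC5 [(154618822656, 17179869184), (17179869184, 17179869184), (549755813888, 549755813888)] :=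
  covD_split 1 (by decide +kernel) C5_c0_t4 C5_c0_t9

theorem C5_c0_t2 : CovD 1 gC5 [(154618822656, 17179869184), (34359738368, 34359738368), (549755813888, 549755813888)] :=
  covD_split 1 (by decide +kernel) C5_c0_t3 C5_c0_t10

theorem C5_c0_t1 : CovD 1 gC5 [(154618822656, 17179869184), (68719476736, 68719476736), (549755813888, 549755813888)] :=
  covD_split 1 (by decide +kernel) C5_c0_t2 C5_c0_t11

theorem C5_c0 : CovD 1 gC5 [(154618822656, 17179869184), (137438953472, 137438953472), (549755813888, 549755813888)] :=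
  covD_split 1 (by decide +kernel) C5_c0_t1 C5_c0_t12

theorem D5_c0 : CovD 1 gD5 [(154618822656, 17179869184), (137438953472, 137438953472), (863554764800, 863554764800)] :=
  covD_split 1 (by decide +kernel) D5_c0_t1 D5_c0_t2

theorem E5_c0 : CovD 1 gE5 [(154618822656, 17179869184), (137438953472, 137438953472), (863554764800, 863554764800)] :=
  covD_split 2 (by decide +kernel) E5_c0_t1 E5_c0_t2

end Pool.Agent.helper14.NR.E6a
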