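import Pool.Agent.helper14.NR.E6a.PN6

/-!
Generated: certificates.
-/

namespace Pool.Agent.helper14.NR.E6a

open Pool.Agent.helper31.IA (Z)
open Pool.Agent.helper31.IX (Op XOps runX Cov CovD cov_split covD_split)
open Pool.Agent.helper31.IC (TD)
open Pool.Agent.helper63.RG (reloc)
open Pool.Agent.helper63.NF hiding TD
open Pool.Agent.helper14.CF (xE covD_E)
open Pool.Agent.helper14.NR (share)

mutual
theorem A6_c0_t8 : CovD 1 gA6 [(146028888064, 8589934592), (68719476736, 68719476736), (85899345920, 85899345920)] :=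
  covD_E kA6_eq (.n 2 (.l 2) (.n 1 (.n 2 (.l 2) (.n 1 (.n 1 (.n 2 (.n 0 (.l 0) (.l 0)) (.l 0)) (.n 0 (.n 1 (.l 0) (.l 0)) (.n 1 (.l 0) (.l 0)))) (.n 1 (.n 1 (.l 0) (.l 0)) (.l 0)))) (.n 1 (.n 2 (.l 2) (.l 0)) (.n 2 (.l 0) (.l 0)))))
    [(146028888064, 8589934592), (68719476736, 68719476736), (85899345920, 85899345920)] rfl (by decide +kernel)
theorem A6_c0_t11 : CovD 1 gA6 [(146028888064, 8589934592), (17179869184, 17179869184), (257698037760, 85899345920)] :=
  covD_E kA6_eq (.n 1 (.n 2 (.n 2 (.n 0 (.l 0) (.l 0)) (.l 0)) (.n 0 (.l 0) (.l 0))) (.n 2 (.n 2 (.n 0 (.l 0) (.l 0)) (.l 0)) (.n 0 (.l 0) (.l 0))))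
    [(146028888064, 8589934592), (17179869184, 17179869184), (257698037760, 85899345920)] rfl (by decide +kernel)
end

mutual
theorem A6_c0_t12 : CovD 1 gA6 [(146028888064, 8589934592), (51539607552, 17179869184), (257698037760, 85899345920)] :=
  covD_E kA6_eq (.n 1 (.n 2 (.n 2 (.n 0 (.l 0) (.l 0)) (.l 0)) (.n 0 (.l 0) (.l 0))) (.n 2 (.n 2 (.l 0) (.l 0)) (.n 0 (.l 0) (.l 0))))
    [(146028888064, 8589934592), (51539607552, 17179869184), (257698037760, 85899345920)] rfl (by decide +kernel)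
theorem A6_c0_t13 : CovD 1 gA6 [(146028888064, 8589934592), (103079215104, 34359738368), (257698037760, 85899345920)] :=
  covD_E kA6_eq (.n 1 (.n 2 (.n 2 (.l 0) (.l 0)) (.n 2 (.l 0) (.l 0))) (.n 2 (.n 2 (.l 0) (.l 0)) (.n 2 (.l 0) (.l 0))))
    [(146028888064, 8589934592), (103079215104, 34359738368), (257698037760, 85899345920)] rfl (by decide +kernel)
end

mutual
theorem A6_c0_t16 : CovD 1 gA6 [(146028888064, 8589934592), (17179869184, 17179869184), (515396075520, 171798691840)] :=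
  covD_E kA6_eq (.n 2 (.n 0 (.n 1 (.n 2 (.l 0) (.l 0)) (.n 2 (.l 0) (.l 0))) (.n 1 (.n 2 (.l 0) (.l 0)) (.n 2 (.l 0) (.l 0)))) (.n 2 (.n 0 (.n 0 (.l 0) (.l 0)) (.n 1 (.l 0) (.l 0))) (.n 2 (.n 0 (.l 0) (.l 0)) (.l 0))))
    [(146028888064, 8589934592), (17179869184, 17179869184), (515396075520, 171798691840)] rfl (by decide +kernel)
theorem A6_c0_t17 : CovD 1 gA6 [(146028888064, 8589934592), (51539607552, 17179869184), (515396075520, 171798691840)] :=
  covD_E kA6_eq (.n 0 (.n 2 (.n 0 (.n 2 (.l 0) (.l 0)) (.n 2 (.l 0) (.l 0))) (.n 2 (.n 0 (.l 0) (.l 0)) (.l 0))) (.n 2 (.n 1 (.n 2 (.l 0) (.l 0)) (.n 2 (.l 0) (.l 0))) (.n 2 (.n 0 (.l 0) (.l 0)) (.l 0))))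
    [(146028888064, 8589934592), (51539607552, 17179869184), (515396075520, 171798691840)] rfl (by decide +kernel)
end

mutual
theorem A6_c0_t18 : CovD 1 gA6 [(146028888064, 8589934592), (103079215104, 34359738368), (515396075520, 171798691840)] :=
  covD_E kA6_eq (.n 1 (.n 2 (.n 2 (.n 2 (.l 0) (.l 0)) (.n 2 (.l 0) (.l 0))) (.n 2 (.n 2 (.l 0) (.l 0)) (.n 0 (.l 0) (.l 0)))) (.n 2 (.n 2 (.n 2 (.l 0) (.l 0)) (.n 2 (.l 0) (.l 0))) (.n 0 (.n 2 (.l 0) (.l 0)) (.n 2 (.l 0) (.l 0)))))
    [(146028888064, 8589934592), (103079215104, 34359738368), (515396075520, 171798691840)] rfl (by decide +kernel)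
theorem A6_c0_t21 : CovD 1 gA6 [(146028888064, 8589934592), (17179869184, 17179869184), (1030792151040, 343597383680)] :=
  covD_E kA6_eq (.n 2 (.n 2 (.n 0 (.n 2 (.l 0) (.l 0)) (.n 2 (.l 0) (.l 0))) (.n 2 (.l 0) (.l 0))) (.n 2 (.n 0 (.l 0) (.l 0)) (.l 0)))
    [(146028888064, 8589934592), (17179869184, 17179869184), (1030792151040, 343597383680)] rfl (by decide +kernel)
end

mutual
theorem A6_c0_t22 : CovD 1 gA6 [(146028888064, 8589934592), (51539607552, 17179869184), (1030792151040, 343597383680)] :=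
  covD_E kA6_eq (.n 2 (.n 0 (.n 2 (.n 2 (.l 0) (.l 0)) (.l 0)) (.n 2 (.n 2 (.l 0) (.l 0)) (.l 0))) (.n 2 (.l 0) (.l 0)))
    [(146028888064, 8589934592), (51539607552, 17179869184), (1030792151040, 343597383680)] rfl (by decide +kernel)
theorem A6_c0_t23 : CovD 1 gA6 [(146028888064, 8589934592), (103079215104, 34359738368), (1030792151040, 343597383680)] :=
  covD_E kA6_eq (.n 1 (.n 2 (.n 2 (.n 2 (.n 0 (.l 0) (.l 0)) (.l 0)) (.n 0 (.l 0) (.l 0))) (.n 2 (.l 0) (.l 0))) (.n 2 (.n 2 (.n 2 (.n 0 (.l 0) (.l 0)) (.l 0)) (.n 0 (.l 0) (.l 0))) (.n 2 (.l 0) (.l 0))))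
    [(146028888064, 8589934592), (103079215104, 34359738368), (1030792151040, 343597383680)] rfl (by decide +kernel)
end

mutual
theorem A6_c0_t27 : CovD 1 gA6 [(146028888064, 8589934592), (171798691840, 34359738368), (171798691840, 171798691840)] :=
  covD_E kA6_eq (.n 2 (.n 2 (.l 2) (.n 0 (.n 1 (.l 0) (.l 0)) (.n 1 (.l 0) (.l 0)))) (.n 0 (.n 1 (.n 2 (.l 0) (.l 0)) (.n 2 (.l 0) (.l 0))) (.n 1 (.n 2 (.l 0) (.l 0)) (.n 2 (.l 0) (.l 0)))))
    [(146028888064, 8589934592), (171798691840, 34359738368), (171798691840, 171798691840)] rfl (by decide +kernel)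
theorem A6_c0_t28 : CovD 1 gA6 [(146028888064, 8589934592), (171798691840, 34359738368), (515396075520, 171798691840)] :=
  covD_E kA6_eq (.n 1 (.n 0 (.n 2 (.n 2 (.l 0) (.l 0)) (.n 2 (.l 0) (.l 0))) (.n 2 (.n 2 (.l 0) (.l 0)) (.n 2 (.l 0) (.l 0)))) (.n 2 (.n 0 (.n 2 (.l 0) (.l 0)) (.n 2 (.l 0) (.l 0))) (.n 2 (.l 0) (.l 0))))
    [(146028888064, 8589934592), (171798691840, 34359738368), (515396075520, 171798691840)] rfl (by decide +kernel)
end

mutual
theorem A6_c0_t29 : CovD 1 gA6 [(146028888064, 8589934592), (171798691840, 34359738368), (1030792151040, 343597383680)] :=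
  covD_E kA6_eq (.n 2 (.n 2 (.n 0 (.n 2 (.l 0) (.l 0)) (.n 2 (.l 0) (.l 0))) (.n 2 (.n 0 (.l 0) (.l 0)) (.l 0))) (.n 2 (.n 0 (.l 0) (.l 0)) (.l 0)))
    [(146028888064, 8589934592), (171798691840, 34359738368), (1030792151040, 343597383680)] rfl (by decide +kernel)
theorem A6_c0_t31 : CovD 1 gA6 [(146028888064, 8589934592), (240518168576, 34359738368), (343597383680, 343597383680)] :=
  covD_E kA6_eq (.n 1 (.n 2 (.n 2 (.n 2 (.l 0) (.l 0)) (.n 2 (.l 0) (.l 0))) (.n 2 (.n 2 (.l 0) (.l 0)) (.n 2 (.l 0) (.l 0)))) (.n 2 (.n 2 (.n 2 (.l 0) (.l 0)) (.n 2 (.l 0) (.l 0))) (.n 2 (.n 2 (.l 0) (.l 0)) (.n 0 (.l 0) (.l 0)))))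
    [(146028888064, 8589934592), (240518168576, 34359738368), (343597383680, 343597383680)] rfl (by decide +kernel)
end

mutual
theorem A6_c0_t32 : CovD 1 gA6 [(146028888064, 8589934592), (240518168576, 34359738368), (1030792151040, 343597383680)] :=
  covD_E kA6_eq (.n 2 (.n 0 (.n 2 (.n 0 (.l 0) (.l 0)) (.l 0)) (.n 2 (.n 0 (.l 0) (.l 0)) (.l 0))) (.n 2 (.n 0 (.l 0) (.l 0)) (.l 0)))
    [(146028888064, 8589934592), (240518168576, 34359738368), (1030792151040, 343597383680)] rfl (by decide +kernel)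
theorem A6_c0_t38 : CovD 1 gA6 [(163208757248, 8589934592), (68719476736, 68719476736), (42949672960, 42949672960)] :=
  covD_E kA6_eq (.l 2)
    [(163208757248, 8589934592), (68719476736, 68719476736), (42949672960, 42949672960)] rfl (by decide +kernel)
end

mutual
theorem A6_c0_t40 : CovD 1 gA6 [(163208757248, 8589934592), (34359738368, 34359738368), (128849018880, 42949672960)] :=
  covD_E kA6_eq (.n 2 (.l 2) (.n 2 (.n 1 (.n 0 (.n 1 (.l 0) (.l 0)) (.n 1 (.l 0) (.l 0))) (.n 1 (.l 0) (.l 0))) (.n 1 (.n 1 (.l 0) (.l 0)) (.n 1 (.l 0) (.l 0)))))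
    [(163208757248, 8589934592), (34359738368, 34359738368), (128849018880, 42949672960)] rfl (by decide +kernel)
theorem A6_c0_t41 : CovD 1 gA6 [(163208757248, 8589934592), (103079215104, 34359738368), (128849018880, 42949672960)] :=
  covD_E kA6_eq (.n 1 (.n 0 (.n 2 (.l 0) (.l 0)) (.n 2 (.l 0) (.l 0))) (.n 2 (.l 0) (.l 0)))
    [(163208757248, 8589934592), (103079215104, 34359738368), (128849018880, 42949672960)] rfl (by decide +kernel)
end

mutual
theorem A6_c0_t44 : CovD 1 gA6 [(163208757248, 8589934592), (17179869184, 17179869184), (257698037760, 85899345920)] :=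
  covD_E kA6_eq (.n 1 (.n 2 (.n 2 (.n 0 (.l 0) (.l 0)) (.l 0)) (.n 2 (.l 0) (.l 0))) (.n 2 (.n 2 (.n 0 (.l 0) (.l 0)) (.l 0)) (.n 2 (.l 0) (.l 0))))
    [(163208757248, 8589934592), (17179869184, 17179869184), (257698037760, 85899345920)] rfl (by decide +kernel)
theorem A6_c0_t45 : CovD 1 gA6 [(163208757248, 8589934592), (51539607552, 17179869184), (257698037760, 85899345920)] :=
  covD_E kA6_eq (.n 1 (.n 2 (.n 2 (.n 0 (.l 0) (.l 0)) (.l 0)) (.n 2 (.l 0) (.l 0))) (.n 2 (.n 2 (.l 0) (.l 0)) (.n 2 (.l 0) (.l 0))))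
    [(163208757248, 8589934592), (51539607552, 17179869184), (257698037760, 85899345920)] rfl (by decide +kernel)
end

mutual
theorem A6_c0_t46 : CovD 1 gA6 [(163208757248, 8589934592), (103079215104, 34359738368), (257698037760, 85899345920)] :=
  covD_E kA6_eq (.n 1 (.n 2 (.n 2 (.l 0) (.l 0)) (.n 0 (.n 1 (.l 0) (.l 0)) (.n 1 (.l 0) (.l 0)))) (.n 2 (.n 2 (.l 0) (.l 0)) (.n 2 (.l 0) (.l 0))))
    [(163208757248, 8589934592), (103079215104, 34359738368), (257698037760, 85899345920)] rfl (by decide +kernel)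
theorem A6_c0_t49 : CovD 1 gA6 [(163208757248, 8589934592), (17179869184, 17179869184), (515396075520, 171798691840)] :=
  covD_E kA6_eq (.n 2 (.n 0 (.n 2 (.n 2 (.l 0) (.l 0)) (.n 2 (.l 0) (.l 0))) (.n 2 (.n 2 (.l 0) (.l 0)) (.n 2 (.l 0) (.l 0)))) (.n 2 (.n 0 (.n 2 (.l 0) (.l 0)) (.n 2 (.l 0) (.l 0))) (.n 2 (.n 0 (.l 0) (.l 0)) (.l 0))))
    [(163208757248, 8589934592), (17179869184, 17179869184), (515396075520, 171798691840)] rfl (by decide +kernel)
end

mutual
theorem A6_c0_t50 : CovD 1 gA6 [(163208757248, 8589934592), (51539607552, 17179869184), (515396075520, 171798691840)] :=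
  covD_E kA6_eq (.n 2 (.n 0 (.n 2 (.n 2 (.l 0) (.l 0)) (.n 2 (.l 0) (.l 0))) (.n 2 (.n 2 (.l 0) (.l 0)) (.n 2 (.l 0) (.l 0)))) (.n 2 (.n 0 (.n 1 (.l 0) (.l 0)) (.n 1 (.l 0) (.l 0))) (.n 2 (.n 0 (.l 0) (.l 0)) (.l 0))))
    [(163208757248, 8589934592), (51539607552, 17179869184), (515396075520, 171798691840)] rfl (by decide +kernel)
theorem A6_c0_t52 : CovD 1 gA6 [(163208757248, 8589934592), (85899345920, 17179869184), (515396075520, 171798691840)] :=
  covD_E kA6_eq (.n 2 (.n 0 (.n 1 (.n 2 (.l 0) (.l 0)) (.n 2 (.l 0) (.l 0))) (.n 2 (.n 2 (.l 0) (.l 0)) (.n 2 (.l 0) (.l 0)))) (.n 2 (.n 2 (.n 0 (.l 0) (.l 0)) (.l 0)) (.n 0 (.l 0) (.l 0))))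
    [(163208757248, 8589934592), (85899345920, 17179869184), (515396075520, 171798691840)] rfl (by decide +kernel)
end

mutual
theorem A6_c0_t53 : CovD 1 gA6 [(163208757248, 8589934592), (120259084288, 17179869184), (515396075520, 171798691840)] :=
  covD_E kA6_eq (.n 2 (.n 2 (.n 2 (.l 0) (.l 0)) (.n 2 (.l 0) (.l 0))) (.n 0 (.n 2 (.l 0) (.l 0)) (.n 2 (.l 0) (.l 0))))
    [(163208757248, 8589934592), (120259084288, 17179869184), (515396075520, 171798691840)] rfl (by decide +kernel)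
theorem A6_c0_t55 : CovD 1 gA6 [(163208757248, 8589934592), (34359738368, 34359738368), (1030792151040, 343597383680)] :=
  covD_E kA6_eq (.n 1 (.n 2 (.n 0 (.n 2 (.n 2 (.l 0) (.l 0)) (.l 0)) (.n 2 (.n 2 (.l 0) (.l 0)) (.l 0))) (.n 2 (.l 0) (.l 0))) (.n 2 (.n 2 (.n 2 (.n 0 (.l 0) (.l 0)) (.l 0)) (.n 0 (.l 0) (.l 0))) (.n 2 (.l 0) (.l 0))))
    [(163208757248, 8589934592), (34359738368, 34359738368), (1030792151040, 343597383680)] rfl (by decide +kernel)
end

mutual
theorem A6_c0_t56 : CovD 1 gA6 [(163208757248, 8589934592), (103079215104, 34359738368), (1030792151040, 343597383680)] :=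
  covD_E kA6_eq (.n 1 (.n 2 (.n 2 (.n 2 (.n 0 (.l 0) (.l 0)) (.l 0)) (.n 0 (.l 0) (.l 0))) (.n 2 (.l 0) (.l 0))) (.n 2 (.n 2 (.n 2 (.l 0) (.l 0)) (.n 0 (.l 0) (.l 0))) (.n 2 (.l 0) (.l 0))))
    [(163208757248, 8589934592), (103079215104, 34359738368), (1030792151040, 343597383680)] rfl (by decide +kernel)
theorem A6_c0_t60 : CovD 1 gA6 [(163208757248, 8589934592), (171798691840, 34359738368), (171798691840, 171798691840)] :=
  covD_E kA6_eq (.n 2 (.n 2 (.l 2) (.n 1 (.n 2 (.l 0) (.l 0)) (.n 0 (.l 0) (.l 0)))) (.n 1 (.n 2 (.n 2 (.l 0) (.l 0)) (.n 2 (.l 0) (.l 0))) (.n 0 (.n 2 (.l 0) (.l 0)) (.n 2 (.l 0) (.l 0)))))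
    [(163208757248, 8589934592), (171798691840, 34359738368), (171798691840, 171798691840)] rfl (by decide +kernel)
end

mutual
theorem A6_c0_t61 : CovD 1 gA6 [(163208757248, 8589934592), (171798691840, 34359738368), (515396075520, 171798691840)] :=
  covD_E kA6_eq (.n 1 (.n 2 (.n 2 (.n 2 (.l 0) (.l 0)) (.n 0 (.l 0) (.l 0))) (.n 2 (.n 0 (.l 0) (.l 0)) (.l 0))) (.n 2 (.n 0 (.n 2 (.l 0) (.l 0)) (.n 2 (.l 0) (.l 0))) (.n 2 (.l 0) (.l 0))))
    [(163208757248, 8589934592), (171798691840, 34359738368), (515396075520, 171798691840)] rfl (by decide +kernel)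
theorem A6_c0_t62 : CovD 1 gA6 [(163208757248, 8589934592), (171798691840, 34359738368), (1030792151040, 343597383680)] :=
  covD_E kA6_eq (.n 2 (.n 1 (.n 2 (.n 2 (.l 0) (.l 0)) (.n 0 (.l 0) (.l 0))) (.n 2 (.n 0 (.l 0) (.l 0)) (.l 0))) (.n 2 (.n 0 (.l 0) (.l 0)) (.l 0)))
    [(163208757248, 8589934592), (171798691840, 34359738368), (1030792151040, 343597383680)] rfl (by decide +kernel)
end

mutual
theorem A6_c0_t65 : CovD 1 gA6 [(163208757248, 8589934592), (223338299392, 17179869184), (343597383680, 343597383680)] :=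
  covD_E kA6_eq (.n 2 (.n 2 (.n 2 (.l 0) (.n 0 (.l 0) (.l 0))) (.n 0 (.n 2 (.l 0) (.l 0)) (.n 2 (.l 0) (.l 0)))) (.n 2 (.n 2 (.l 0) (.l 0)) (.n 2 (.l 0) (.l 0))))
    [(163208757248, 8589934592), (223338299392, 17179869184), (343597383680, 343597383680)] rfl (by decide +kernel)
theorem A6_c0_t66 : CovD 1 gA6 [(163208757248, 8589934592), (257698037760, 17179869184), (343597383680, 343597383680)] :=
  covD_E kA6_eq (.n 2 (.n 2 (.n 2 (.l 0) (.l 0)) (.n 2 (.l 0) (.l 0))) (.n 2 (.n 2 (.l 0) (.l 0)) (.n 0 (.l 0) (.l 0))))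
    [(163208757248, 8589934592), (257698037760, 17179869184), (343597383680, 343597383680)] rfl (by decide +kernel)
end

mutual
theorem A6_c0_t67 : CovD 1 gA6 [(163208757248, 8589934592), (240518168576, 34359738368), (1030792151040, 343597383680)] :=
  covD_E kA6_eq (.n 2 (.n 1 (.n 2 (.n 0 (.l 0) (.l 0)) (.l 0)) (.n 2 (.l 0) (.l 0))) (.n 2 (.l 0) (.l 0)))
    [(163208757248, 8589934592), (240518168576, 34359738368), (1030792151040, 343597383680)] rfl (by decide +kernel)
theorem A6_c0_t70 : CovD 1 gA6 [(146028888064, 8589934592), (68719476736, 68719476736), (2061584302080, 687194767360)] :=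
  covD_E kA6_eq (.n 1 (.n 2 (.n 2 (.n 2 (.l 0) (.l 0)) (.n 0 (.l 0) (.l 0))) (.n 2 (.l 0) (.l 0))) (.n 2 (.n 0 (.n 2 (.l 0) (.l 0)) (.n 2 (.l 0) (.l 0))) (.n 2 (.l 0) (.l 0))))
    [(146028888064, 8589934592), (68719476736, 68719476736), (2061584302080, 687194767360)] rfl (by decide +kernel)
end

mutual
theorem A6_c0_t71 : CovD 1 gA6 [(146028888064, 8589934592), (206158430208, 68719476736), (2061584302080, 687194767360)] :=
  covD_E kA6_eq (.n 1 (.n 2 (.n 0 (.n 2 (.l 0) (.l 0)) (.n 2 (.l 0) (.l 0))) (.n 2 (.l 0) (.l 0))) (.n 2 (.n 2 (.n 0 (.l 0) (.l 0)) (.l 0)) (.n 0 (.l 0) (.l 0))))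
    [(146028888064, 8589934592), (206158430208, 68719476736), (2061584302080, 687194767360)] rfl (by decide +kernel)
theorem A6_c0_t73 : CovD 1 gA6 [(163208757248, 8589934592), (68719476736, 68719476736), (2061584302080, 687194767360)] :=
  covD_E kA6_eq (.n 1 (.n 2 (.n 2 (.n 2 (.l 0) (.l 0)) (.n 0 (.l 0) (.l 0))) (.n 2 (.l 0) (.l 0))) (.n 2 (.n 0 (.n 2 (.l 0) (.l 0)) (.n 2 (.l 0) (.l 0))) (.n 2 (.l 0) (.l 0))))
    [(163208757248, 8589934592), (68719476736, 68719476736), (2061584302080, 687194767360)] rfl (by decide +kernel)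
end

mutual
theorem A6_c0_t74 : CovD 1 gA6 [(163208757248, 8589934592), (206158430208, 68719476736), (2061584302080, 687194767360)] :=
  covD_E kA6_eq (.n 1 (.n 2 (.n 2 (.n 0 (.l 0) (.l 0)) (.l 0)) (.n 0 (.l 0) (.l 0))) (.n 2 (.n 2 (.n 0 (.l 0) (.l 0)) (.l 0)) (.n 0 (.l 0) (.l 0))))
    [(163208757248, 8589934592), (206158430208, 68719476736), (2061584302080, 687194767360)] rfl (by decide +kernel)
theorem A6_c0_t78 : CovD 1 gA6 [(146028888064, 8589934592), (68719476736, 68719476736), (3435973836800, 687194767360)] :=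
  covD_E kA6_eq (.n 2 (.n 0 (.n 1 (.l 0) (.l 0)) (.n 1 (.l 0) (.l 0))) (.n 2 (.n 1 (.l 0) (.l 0)) (.n 0 (.n 0 (.n 2 (.l 0) (.n 1 (.l 0) (.l 0))) (.l 0)) (.l 0))))
    [(146028888064, 8589934592), (68719476736, 68719476736), (3435973836800, 687194767360)] rfl (by decide +kernel)
end

mutual
theorem A6_c0_t79 : CovD 1 gA6 [(146028888064, 8589934592), (68719476736, 68719476736), (4810363371520, 687194767360)] :=
  covD_E kA6_eq (.n 0 (.n 2 (.n 0 (.n 2 (.n 0 (.n 2 (.l 1) (.l 1)) (.n 2 (.l 0) (.l 1))) (.l 1)) (.n 1 (.n 2 (.l 0) (.l 0)) (.n 2 (.l 0) (.l 0)))) (.n 2 (.n 1 (.l 1) (.l 1)) (.l 1))) (.n 1 (.n 2 (.l 0) (.l 0)) (.n 2 (.l 0) (.l 0))))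
    [(146028888064, 8589934592), (68719476736, 68719476736), (4810363371520, 687194767360)] rfl (by decide +kernel)
theorem A6_c0_t80 : CovD 1 gA6 [(163208757248, 8589934592), (68719476736, 68719476736), (4123168604160, 1374389534720)] :=
  covD_E kA6_eq (.n 1 (.n 2 (.n 0 (.n 2 (.l 0) (.l 0)) (.n 2 (.l 0) (.l 0))) (.n 2 (.l 0) (.l 0))) (.n 2 (.n 2 (.n 0 (.l 0) (.l 0)) (.l 0)) (.n 2 (.l 0) (.l 0))))
    [(163208757248, 8589934592), (68719476736, 68719476736), (4123168604160, 1374389534720)] rfl (by decide +kernel)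
end

mutual
theorem A6_c0_t84 : CovD 1 gA6 [(141733920768, 4294967296), (171798691840, 34359738368), (4123168604160, 1374389534720)] :=
  covD_E kA6_eq (.n 2 (.n 2 (.l 0) (.n 2 (.l 0) (.l 0))) (.n 2 (.n 2 (.n 2 (.l 0) (.l 0)) (.n 0 (.n 0 (.l 1) (.l 0)) (.l 0))) (.n 0 (.l 1) (.n 2 (.l 0) (.l 0)))))
    [(141733920768, 4294967296), (171798691840, 34359738368), (4123168604160, 1374389534720)] rfl (by decide +kernel)
theorem A6_c0_t85 : CovD 1 gA6 [(141733920768, 4294967296), (240518168576, 34359738368), (4123168604160, 1374389534720)] :=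
  covD_E kA6_eq (.n 2 (.n 2 (.l 0) (.l 0)) (.n 2 (.n 2 (.l 0) (.l 0)) (.n 0 (.n 2 (.l 1) (.l 1)) (.l 0))))
    [(141733920768, 4294967296), (240518168576, 34359738368), (4123168604160, 1374389534720)] rfl (by decide +kernel)
end

mutual
theorem A6_c0_t86 : CovD 1 gA6 [(150323855360, 4294967296), (206158430208, 68719476736), (4123168604160, 1374389534720)] :=
  covD_E kA6_eq (.n 2 (.n 1 (.n 2 (.l 0) (.l 0)) (.n 2 (.l 0) (.l 0))) (.n 2 (.l 0) (.l 0)))
    [(150323855360, 4294967296), (206158430208, 68719476736), (4123168604160, 1374389534720)] rfl (by decide +kernel)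
theorem A6_c0_t87 : CovD 1 gA6 [(163208757248, 8589934592), (206158430208, 68719476736), (4123168604160, 1374389534720)] :=
  covD_E kA6_eq (.n 1 (.n 2 (.n 2 (.n 0 (.l 0) (.l 0)) (.l 0)) (.n 2 (.l 0) (.l 0))) (.n 2 (.n 2 (.n 0 (.l 0) (.l 0)) (.l 0)) (.n 0 (.l 0) (.l 0))))
    [(163208757248, 8589934592), (206158430208, 68719476736), (4123168604160, 1374389534720)] rfl (by decide +kernel)
end

mutual
theorem A6_c0_t90 : CovD 1 gA6 [(146028888064, 8589934592), (68719476736, 68719476736), (8246337208320, 2748779069440)] :=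
  covD_E kA6_eq (.n 2 (.n 2 (.n 0 (.n 1 (.l 1) (.l 1)) (.n 0 (.n 2 (.n 2 (.l 1) (.l 1)) (.l 1)) (.n 2 (.l 0) (.l 0)))) (.n 2 (.n 1 (.l 1) (.l 1)) (.l 1))) (.n 0 (.l 1) (.n 2 (.l 1) (.l 1))))
    [(146028888064, 8589934592), (68719476736, 68719476736), (8246337208320, 2748779069440)] rfl (by decide +kernel)
theorem A6_c0_t92 : CovD 1 gA6 [(141733920768, 4294967296), (206158430208, 68719476736), (8246337208320, 2748779069440)] :=
  covD_E kA6_eq (.n 2 (.n 2 (.n 2 (.n 0 (.l 1) (.n 2 (.l 1) (.l 1))) (.l 1)) (.l 1)) (.l 1))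
    [(141733920768, 4294967296), (206158430208, 68719476736), (8246337208320, 2748779069440)] rfl (by decide +kernel)
end

mutual
theorem A6_c0_t93 : CovD 1 gA6 [(150323855360, 4294967296), (206158430208, 68719476736), (8246337208320, 2748779069440)] :=
  covD_E kA6_eq (.n 2 (.n 2 (.n 1 (.n 2 (.l 0) (.l 0)) (.n 0 (.l 0) (.l 0))) (.n 0 (.n 1 (.l 1) (.l 0)) (.l 0))) (.n 0 (.n 2 (.l 1) (.l 1)) (.n 2 (.l 0) (.l 0))))
    [(150323855360, 4294967296), (206158430208, 68719476736), (8246337208320, 2748779069440)] rfl (by decide +kernel)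
theorem A6_c0_t95 : CovD 1 gA6 [(163208757248, 8589934592), (68719476736, 68719476736), (8246337208320, 2748779069440)] :=
  covD_E kA6_eq (.n 1 (.n 2 (.n 0 (.n 2 (.l 0) (.l 0)) (.n 2 (.l 0) (.l 0))) (.n 2 (.l 0) (.l 0))) (.n 2 (.n 2 (.n 0 (.l 0) (.l 0)) (.l 0)) (.n 2 (.l 0) (.l 0))))
    [(163208757248, 8589934592), (68719476736, 68719476736), (8246337208320, 2748779069440)] rfl (by decide +kernel)
end

mutual
theorem A6_c0_t96 : CovD 1 gA6 [(163208757248, 8589934592), (206158430208, 68719476736), (8246337208320, 2748779069440)] :=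
  covD_E kA6_eq (.n 1 (.n 2 (.n 2 (.n 0 (.l 0) (.l 0)) (.l 0)) (.n 0 (.l 0) (.l 0))) (.n 2 (.n 2 (.l 0) (.l 0)) (.n 0 (.l 0) (.l 0))))
    [(163208757248, 8589934592), (206158430208, 68719476736), (8246337208320, 2748779069440)] rfl (by decide +kernel)
theorem B6_c0_t1 : CovD 1 gB6 [(146028888064, 8589934592), (137438953472, 137438953472), (54975791104, 54975791104)] :=
  covD_E kB6_eq (.n 1 (.n 2 (.l 1) (.n 1 (.l 1) (.l 1))) (.n 2 (.n 2 (.l 1) (.l 1)) (.n 2 (.l 1) (.n 2 (.l 1) (.l 1)))))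
    [(146028888064, 8589934592), (137438953472, 137438953472), (54975791104, 54975791104)] rfl (by decide +kernel)
end

theorem B6_c0_t2 : CovD 1 gB6 [(163208757248, 8589934592), (137438953472, 137438953472), (54975791104, 54975791104)] :=
  covD_E kB6_eq (.n 1 (.n 0 (.n 0 (.n 2 (.n 2 (.l 1) (.l 1)) (.n 2 (.l 1) (.l 0))) (.n 2 (.l 0) (.l 0))) (.n 2 (.l 0) (.l 0))) (.n 2 (.n 2 (.l 0) (.l 0)) (.n 2 (.l 0) (.l 0))))
    [(163208757248, 8589934592), (137438953472, 137438953472), (54975791104, 54975791104)] rfl (by decide +kernel)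

theorem A6_c0_t10 : CovD 1 gA6 [(146028888064, 8589934592), (34359738368, 34359738368), (257698037760, 85899345920)] :=
  covD_split 1 (by decide +kernel) A6_c0_t11 A6_c0_t12

theorem A6_c0_t9 : CovD 1 gA6 [(146028888064, 8589934592), (68719476736, 68719476736), (257698037760, 85899345920)] :=
  covD_split 1 (by decide +kernel) A6_c0_t10 A6_c0_t13

theorem A6_c0_t7 : CovD 1 gA6 [(146028888064, 8589934592), (68719476736, 68719476736), (171798691840, 171798691840)] :=
  covD_split 2 (by decide +kernel) A6_c0_t8 A6_c0_t9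

theorem A6_c0_t15 : CovD 1 gA6 [(146028888064, 8589934592), (34359738368, 34359738368), (515396075520, 171798691840)] :=
  covD_split 1 (by decide +kernel) A6_c0_t16 A6_c0_t17

theorem A6_c0_t14 : CovD 1 gA6 [(146028888064, 8589934592), (68719476736, 68719476736), (515396075520, 171798691840)] :=
  covD_split 1 (by decide +kernel) A6_c0_t15 A6_c0_t18

theorem A6_c0_t6 : CovD 1 gA6 [(146028888064, 8589934592), (68719476736, 68719476736), (343597383680, 343597383680)] :=
  covD_split 2 (by decide +kernel) A6_c0_t7 A6_c0_t14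

theorem A6_c0_t20 : CovD 1 gA6 [(146028888064, 8589934592), (34359738368, 34359738368), (1030792151040, 343597383680)] :=
  covD_split 1 (by decide +kernel) A6_c0_t21 A6_c0_t22

theorem A6_c0_t19 : CovD 1 gA6 [(146028888064, 8589934592), (68719476736, 68719476736), (1030792151040, 343597383680)] :=
  covD_split 1 (by decide +kernel) A6_c0_t20 A6_c0_t23

theorem A6_c0_t5 : CovD 1 gA6 [(146028888064, 8589934592), (68719476736, 68719476736), (687194767360, 687194767360)] :=
  covD_split 2 (by decide +kernel) A6_c0_t6 A6_c0_t19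

theorem A6_c0_t26 : CovD 1 gA6 [(146028888064, 8589934592), (171798691840, 34359738368), (343597383680, 343597383680)] :=
  covD_split 2 (by decide +kernel) A6_c0_t27 A6_c0_t28

theorem A6_c0_t25 : CovD 1 gA6 [(146028888064, 8589934592), (171798691840, 34359738368), (687194767360, 687194767360)] :=
  covD_split 2 (by decide +kernel) A6_c0_t26 A6_c0_t29

theorem A6_c0_t30 : CovD 1 gA6 [(146028888064, 8589934592), (240518168576, 34359738368), (687194767360, 687194767360)] :=
  covD_split 2 (by decide +kernel) A6_c0_t31 A6_c0_t32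

theorem A6_c0_t24 : CovD 1 gA6 [(146028888064, 8589934592), (206158430208, 68719476736), (687194767360, 687194767360)] :=
  covD_split 1 (by decide +kernel) A6_c0_t25 A6_c0_t30

theorem A6_c0_t4 : CovD 1 gA6 [(146028888064, 8589934592), (137438953472, 137438953472), (687194767360, 687194767360)] :=
  covD_split 1 (by decide +kernel) A6_c0_t5 A6_c0_t24

theorem A6_c0_t39 : CovD 1 gA6 [(163208757248, 8589934592), (68719476736, 68719476736), (128849018880, 42949672960)] :=
  covD_split 1 (by decide +kernel) A6_c0_t40 A6_c0_t41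

theorem A6_c0_t37 : CovD 1 gA6 [(163208757248, 8589934592), (68719476736, 68719476736), (85899345920, 85899345920)] :=
  covD_split 2 (by decide +kernel) A6_c0_t38 A6_c0_t39

theorem A6_c0_t43 : CovD 1 gA6 [(163208757248, 8589934592), (34359738368, 34359738368), (257698037760, 85899345920)] :=
  covD_split 1 (by decide +kernel) A6_c0_t44 A6_c0_t45

theorem A6_c0_t42 : CovD 1 gA6 [(163208757248, 8589934592), (68719476736, 68719476736), (257698037760, 85899345920)] :=
  covD_split 1 (by decide +kernel) A6_c0_t43 A6_c0_t46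

theorem A6_c0_t36 : CovD 1 gA6 [(163208757248, 8589934592), (68719476736, 68719476736), (171798691840, 171798691840)] :=
  covD_split 2 (by decide +kernel) A6_c0_t37 A6_c0_t42

theorem A6_c0_t48 : CovD 1 gA6 [(163208757248, 8589934592), (34359738368, 34359738368), (515396075520, 171798691840)] :=
  covD_split 1 (by decide +kernel) A6_c0_t49 A6_c0_t50

theorem A6_c0_t51 : CovD 1 gA6 [(163208757248, 8589934592), (103079215104, 34359738368), (515396075520, 171798691840)] :=
  covD_split 1 (by decide +kernel) A6_c0_t52 A6_c0_t53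

theorem A6_c0_t47 : CovD 1 gA6 [(163208757248, 8589934592), (68719476736, 68719476736), (515396075520, 171798691840)] :=
  covD_split 1 (by decide +kernel) A6_c0_t48 A6_c0_t51

theorem A6_c0_t35 : CovD 1 gA6 [(163208757248, 8589934592), (68719476736, 68719476736), (343597383680, 343597383680)] :=
  covD_split 2 (by decide +kernel) A6_c0_t36 A6_c0_t47

theorem A6_c0_t54 : CovD 1 gA6 [(163208757248, 8589934592), (68719476736, 68719476736), (1030792151040, 343597383680)] :=
  covD_split 1 (by decide +kernel) A6_c0_t55 A6_c0_t56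

theorem A6_c0_t34 : CovD 1 gA6 [(163208757248, 8589934592), (68719476736, 68719476736), (687194767360, 687194767360)] :=
  covD_split 2 (by decide +kernel) A6_c0_t35 A6_c0_t54

theorem A6_c0_t59 : CovD 1 gA6 [(163208757248, 8589934592), (171798691840, 34359738368), (343597383680, 343597383680)] :=
  covD_split 2 (by decide +kernel) A6_c0_t60 A6_c0_t61

theorem A6_c0_t58 : CovD 1 gA6 [(163208757248, 8589934592), (171798691840, 34359738368), (687194767360, 687194767360)] :=
  covD_split 2 (by decide +kernel) A6_c0_t59 A6_c0_t62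

theorem A6_c0_t64 : CovD 1 gA6 [(163208757248, 8589934592), (240518168576, 34359738368), (343597383680, 343597383680)] :=
  covD_split 1 (by decide +kernel) A6_c0_t65 A6_c0_t66

theorem A6_c0_t63 : CovD 1 gA6 [(163208757248, 8589934592), (240518168576, 34359738368), (687194767360, 687194767360)] :=
  covD_split 2 (by decide +kernel) A6_c0_t64 A6_c0_t67

theorem A6_c0_t57 : CovD 1 gA6 [(163208757248, 8589934592), (206158430208, 68719476736), (687194767360, 687194767360)] :=
  covD_split 1 (by decide +kernel) A6_c0_t58 A6_c0_t63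

theorem A6_c0_t33 : CovD 1 gA6 [(163208757248, 8589934592), (137438953472, 137438953472), (687194767360, 687194767360)] :=
  covD_split 1 (by decide +kernel) A6_c0_t34 A6_c0_t57

theorem A6_c0_t3 : CovD 1 gA6 [(154618822656, 17179869184), (137438953472, 137438953472), (687194767360, 687194767360)] :=
  covD_split 0 (by decide +kernel) A6_c0_t4 A6_c0_t33

theorem A6_c0_t69 : CovD 1 gA6 [(146028888064, 8589934592), (137438953472, 137438953472), (2061584302080, 687194767360)] :=
  covD_split 1 (by decide +kernel) A6_c0_t70 A6_c0_t71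

theorem A6_c0_t72 : CovD 1 gA6 [(163208757248, 8589934592), (137438953472, 137438953472), (2061584302080, 687194767360)] :=
  covD_split 1 (by decide +kernel) A6_c0_t73 A6_c0_t74

theorem A6_c0_t68 : CovD 1 gA6 [(154618822656, 17179869184), (137438953472, 137438953472), (2061584302080, 687194767360)] :=
  covD_split 0 (by decide +kernel) A6_c0_t69 A6_c0_t72

theorem A6_c0_t2 : CovD 1 gA6 [(154618822656, 17179869184), (137438953472, 137438953472), (1374389534720, 1374389534720)] :=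
  covD_split 2 (by decide +kernel) A6_c0_t3 A6_c0_t68

theorem A6_c0_t77 : CovD 1 gA6 [(146028888064, 8589934592), (68719476736, 68719476736), (4123168604160, 1374389534720)] :=
  covD_split 2 (by decide +kernel) A6_c0_t78 A6_c0_t79

theorem A6_c0_t76 : CovD 1 gA6 [(154618822656, 17179869184), (68719476736, 68719476736), (4123168604160, 1374389534720)] :=
  covD_split 0 (by decide +kernel) A6_c0_t77 A6_c0_t80

theorem A6_c0_t83 : CovD 1 gA6 [(141733920768, 4294967296), (206158430208, 68719476736), (4123168604160, 1374389534720)] :=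
  covD_split 1 (by decide +kernel) A6_c0_t84 A6_c0_t85

theorem A6_c0_t82 : CovD 1 gA6 [(146028888064, 8589934592), (206158430208, 68719476736), (4123168604160, 1374389534720)] :=
  covD_split 0 (by decide +kernel) A6_c0_t83 A6_c0_t86

theorem A6_c0_t81 : CovD 1 gA6 [(154618822656, 17179869184), (206158430208, 68719476736), (4123168604160, 1374389534720)] :=
  covD_split 0 (by decide +kernel) A6_c0_t82 A6_c0_t87

theorem A6_c0_t75 : CovD 1 gA6 [(154618822656, 17179869184), (137438953472, 137438953472), (4123168604160, 1374389534720)] :=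
  covD_split 1 (by decide +kernel) A6_c0_t76 A6_c0_t81

theorem A6_c0_t1 : CovD 1 gA6 [(154618822656, 17179869184), (137438953472, 137438953472), (2748779069440, 2748779069440)] :=
  covD_split 2 (by decide +kernel) A6_c0_t2 A6_c0_t75

theorem A6_c0_t91 : CovD 1 gA6 [(146028888064, 8589934592), (206158430208, 68719476736), (8246337208320, 2748779069440)] :=
  covD_split 0 (by decide +kernel) A6_c0_t92 A6_c0_t93

theorem A6_c0_t89 : CovD 1 gA6 [(146028888064, 8589934592), (137438953472, 137438953472), (8246337208320, 2748779069440)] :=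
  covD_split 1 (by decide +kernel) A6_c0_t90 A6_c0_t91

theorem A6_c0_t94 : CovD 1 gA6 [(163208757248, 8589934592), (137438953472, 137438953472), (8246337208320, 2748779069440)] :=
  covD_split 1 (by decide +kernel) A6_c0_t95 A6_c0_t96

theorem A6_c0_t88 : CovD 1 gA6 [(154618822656, 17179869184), (137438953472, 137438953472), (8246337208320, 2748779069440)] :=
  covD_split 0 (by decide +kernel) A6_c0_t89 A6_c0_t94

theorem A6_c0 : CovD 1 gA6 [(154618822656, 17179869184), (137438953472, 137438953472), (5497558138880, 5497558138880)] :=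
  covD_split 2 (by decide +kernel) A6_c0_t1 A6_c0_t88

theorem B6_c0 : CovD 1 gB6 [(154618822656, 17179869184), (137438953472, 137438953472), (54975791104, 54975791104)] :=
  covD_split 0 (by decide +kernel) B6_c0_t1 B6_c0_t2

end Pool.Agent.helper14.NR.E6a
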