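import Pool.Agent.helper14.NR.E6a.PN6

/-!
Generated: certificates.
-/

namespace Pool.Agent.helper14.NR.E6a

open Pool.Agent.helper31.IA (Z)
open Pool.Agent.helper31.IX (Op XOps runX Cov CovD cov_split covD_split)
open Pool.Agent.helper31.IC (TD)
open Pool.Agent.helper63.RG (reloc)
open Pool.Agent.helper63.NF hiding TD
open Pool.Agent.helper14.CF (xE covD_E)
open Pool.Agent.helper14.NR (share)

mutual
theorem C6_c0_t5 : CovD 1 gC6 [(146028888064, 8589934592), (8589934592, 8589934592), (549755813888, 549755813888)] :=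
  covD_E kC6_eq (.n 2 (.n 2 (.n 2 (.l 0) (.l 0)) (.n 2 (.l 0) (.l 0))) (.n 2 (.n 2 (.l 0) (.n 0 (.l 0) (.l 0))) (.n 1 (.n 2 (.l 0) (.n 2 (.l 0) (.n 2 (.l 0) (.n 2 (.l 0) (.n 0 (.l 1) (.l 1)))))) (.n 2 (.l 0) (.l 0)))))
    [(146028888064, 8589934592), (8589934592, 8589934592), (549755813888, 549755813888)] rfl (by decide +kernel)
theorem C6_c0_t6 : CovD 1 gC6 [(163208757248, 8589934592), (8589934592, 8589934592), (549755813888, 549755813888)] :=
  covD_E kC6_eq (.n 2 (.n 2 (.n 2 (.l 0) (.l 0)) (.n 2 (.l 0) (.l 0))) (.n 2 (.n 2 (.l 0) (.n 0 (.l 0) (.l 0))) (.n 2 (.n 0 (.l 0) (.l 0)) (.n 2 (.l 0) (.n 2 (.l 0) (.n 2 (.l 0) (.n 0 (.l 1) (.l 1))))))))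
    [(163208757248, 8589934592), (8589934592, 8589934592), (549755813888, 549755813888)] rfl (by decide +kernel)
end

mutual
theorem C6_c0_t7 : CovD 1 gC6 [(154618822656, 17179869184), (25769803776, 8589934592), (549755813888, 549755813888)] :=
  covD_E kC6_eq (.n 2 (.n 2 (.n 2 (.l 0) (.l 0)) (.n 2 (.l 0) (.n 0 (.l 0) (.l 0)))) (.n 0 (.n 2 (.n 2 (.l 0) (.l 0)) (.n 2 (.l 0) (.n 0 (.l 0) (.l 0)))) (.n 2 (.n 2 (.l 0) (.l 0)) (.n 2 (.l 0) (.n 0 (.l 0) (.l 0))))))
    [(154618822656, 17179869184), (25769803776, 8589934592), (549755813888, 549755813888)] rfl (by decide +kernel)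
theorem C6_c0_t8 : CovD 1 gC6 [(154618822656, 17179869184), (51539607552, 17179869184), (549755813888, 549755813888)] :=
  covD_E kC6_eq (.n 2 (.n 2 (.n 2 (.l 0) (.l 0)) (.n 2 (.l 0) (.n 0 (.l 0) (.l 0)))) (.n 0 (.n 1 (.n 2 (.l 0) (.n 0 (.l 0) (.l 0))) (.n 2 (.l 0) (.l 0))) (.n 1 (.n 2 (.l 0) (.n 0 (.l 0) (.l 0))) (.n 2 (.l 0) (.l 0)))))
    [(154618822656, 17179869184), (51539607552, 17179869184), (549755813888, 549755813888)] rfl (by decide +kernel)
end

mutual
theorem C6_c0_t10 : CovD 1 gC6 [(146028888064, 8589934592), (103079215104, 34359738368), (549755813888, 549755813888)] :=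
  covD_E kC6_eq (.n 1 (.n 2 (.n 2 (.l 0) (.l 0)) (.n 2 (.l 0) (.l 0))) (.n 2 (.n 2 (.l 0) (.l 0)) (.n 2 (.l 0) (.l 0))))
    [(146028888064, 8589934592), (103079215104, 34359738368), (549755813888, 549755813888)] rfl (by decide +kernel)
theorem C6_c0_t11 : CovD 1 gC6 [(163208757248, 8589934592), (103079215104, 34359738368), (549755813888, 549755813888)] :=
  covD_E kC6_eq (.n 1 (.n 2 (.n 2 (.l 0) (.l 0)) (.n 2 (.l 0) (.n 0 (.l 0) (.l 0)))) (.n 2 (.n 2 (.l 0) (.l 0)) (.n 2 (.l 0) (.n 0 (.l 0) (.l 0)))))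
    [(163208757248, 8589934592), (103079215104, 34359738368), (549755813888, 549755813888)] rfl (by decide +kernel)
end

mutual
theorem C6_c0_t13 : CovD 1 gC6 [(146028888064, 8589934592), (206158430208, 68719476736), (549755813888, 549755813888)] :=
  covD_E kC6_eq (.n 1 (.n 2 (.n 2 (.l 0) (.n 0 (.l 0) (.l 0))) (.n 1 (.n 2 (.l 0) (.l 0)) (.n 2 (.l 0) (.n 0 (.l 0) (.l 0))))) (.n 2 (.n 2 (.l 0) (.n 0 (.l 0) (.l 0))) (.n 2 (.n 1 (.l 0) (.l 0)) (.l 1))))
    [(146028888064, 8589934592), (206158430208, 68719476736), (549755813888, 549755813888)] rfl (by decide +kernel)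
theorem C6_c0_t14 : CovD 1 gC6 [(163208757248, 8589934592), (206158430208, 68719476736), (549755813888, 549755813888)] :=
  covD_E kC6_eq (.n 1 (.n 2 (.n 2 (.l 0) (.n 0 (.l 0) (.l 0))) (.n 1 (.n 2 (.l 0) (.n 2 (.l 0) (.l 0))) (.n 2 (.l 0) (.l 1)))) (.n 2 (.n 2 (.l 0) (.n 1 (.l 0) (.l 0))) (.n 2 (.n 0 (.n 1 (.l 0) (.l 0)) (.n 1 (.l 0) (.l 1))) (.l 1))))
    [(163208757248, 8589934592), (206158430208, 68719476736), (549755813888, 549755813888)] rfl (by decide +kernel)
end

mutual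
theorem D6_c0_t2 : CovD 1 gD6 [(154618822656, 17179869184), (68719476736, 68719476736), (431777382400, 431777382400)] :=
  covD_E kD6_eq (.n 2 (.n 2 (.l 0) (.n 0 (.l 0) (.l 0))) (.n 0 (.n 2 (.l 0) (.l 0)) (.n 1 (.l 0) (.l 0))))
    [(154618822656, 17179869184), (68719476736, 68719476736), (431777382400, 431777382400)] rfl (by decide +kernel)
theorem D6_c0_t3 : CovD 1 gD6 [(154618822656, 17179869184), (68719476736, 68719476736), (1295332147200, 431777382400)] :=
  covD_E kD6_eq (.n 0 (.n 2 (.n 2 (.l 0) (.n 2 (.l 0) (.l 0))) (.n 2 (.n 2 (.l 0) (.l 0)) (.n 2 (.n 2 (.l 0) (.l 0)) (.l 1)))) (.n 2 (.n 2 (.l 0) (.l 0)) (.n 2 (.l 0) (.l 1))))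
    [(154618822656, 17179869184), (68719476736, 68719476736), (1295332147200, 431777382400)] rfl (by decide +kernel)
end

mutual
theorem D6_c0_t5 : CovD 1 gD6 [(154618822656, 17179869184), (206158430208, 68719476736), (431777382400, 431777382400)] :=
  covD_E kD6_eq (.n 2 (.n 2 (.l 0) (.l 0)) (.n 0 (.n 2 (.l 0) (.l 0)) (.n 1 (.l 0) (.l 0))))
    [(154618822656, 17179869184), (206158430208, 68719476736), (431777382400, 431777382400)] rfl (by decide +kernel)
theorem D6_c0_t6 : CovD 1 gD6 [(154618822656, 17179869184), (206158430208, 68719476736), (1295332147200, 431777382400)] :=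
  covD_E kD6_eq (.n 0 (.n 2 (.n 2 (.l 0) (.n 0 (.l 0) (.l 0))) (.n 2 (.n 2 (.l 0) (.l 0)) (.n 0 (.n 1 (.l 1) (.l 1)) (.l 1)))) (.n 2 (.n 2 (.l 0) (.l 0)) (.n 2 (.l 0) (.l 1))))
    [(154618822656, 17179869184), (206158430208, 68719476736), (1295332147200, 431777382400)] rfl (by decide +kernel)
end

theorem E6_c0 : CovD 1 gE6 [(154618822656, 17179869184), (137438953472, 137438953472), (863554764800, 863554764800)] :=
  covD_E kE6_eq (.n 2 (.n 1 (.n 2 (.l 1) (.l 1)) (.n 2 (.l 1) (.l 1))) (.n 1 (.n 2 (.l 1) (.n 0 (.n 0 (.l 1) (.l 1)) (.l 1))) (.n 2 (.l 1) (.n 0 (.n 0 (.l 1) (.l 1)) (.l 1)))))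
    [(154618822656, 17179869184), (137438953472, 137438953472), (863554764800, 863554764800)] rfl (by decide +kernel)

theorem C6_c0_t4 : CovD 1 gC6 [(154618822656, 17179869184), (8589934592, 8589934592), (549755813888, 549755813888)] :=
  covD_split 0 (by decide +kernel) C6_c0_t5 C6_c0_t6

theorem C6_c0_t3 : CovD 1 gC6 [(154618822656, 17179869184), (17179869184, 17179869184), (549755813888, 549755813888)] :=
  covD_split 1 (by decide +kernel) C6_c0_t4 C6_c0_t7

theorem C6_c0_t2 : CovD 1 gC6 [(154618822656, 17179869184), (34359738368, 34359738368), (549755813888, 549755813888)] :=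
  covD_split 1 (by decide +kernel) C6_c0_t3 C6_c0_t8

theorem C6_c0_t9 : CovD 1 gC6 [(154618822656, 17179869184), (103079215104, 34359738368), (549755813888, 549755813888)] :=
  covD_split 0 (by decide +kernel) C6_c0_t10 C6_c0_t11

theorem C6_c0_t1 : CovD 1 gC6 [(154618822656, 17179869184), (68719476736, 68719476736), (549755813888, 549755813888)] :=
  covD_split 1 (by decide +kernel) C6_c0_t2 C6_c0_t9

theorem C6_c0_t12 : CovD 1 gC6 [(154618822656, 17179869184), (206158430208, 68719476736), (549755813888, 549755813888)] :=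
  covD_split 0 (by decide +kernel) C6_c0_t13 C6_c0_t14

theorem C6_c0 : CovD 1 gC6 [(154618822656, 17179869184), (137438953472, 137438953472), (549755813888, 549755813888)] :=
  covD_split 1 (by decide +kernel) C6_c0_t1 C6_c0_t12

theorem D6_c0_t1 : CovD 1 gD6 [(154618822656, 17179869184), (68719476736, 68719476736), (863554764800, 863554764800)] :=
  covD_split 2 (by decide +kernel) D6_c0_t2 D6_c0_t3

theorem D6_c0_t4 : CovD 1 gD6 [(154618822656, 17179869184), (206158430208, 68719476736), (863554764800, 863554764800)] :=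
  covD_split 2 (by decide +kernel) D6_c0_t5 D6_c0_t6

theorem D6_c0 : CovD 1 gD6 [(154618822656, 17179869184), (137438953472, 137438953472), (863554764800, 863554764800)] :=
  covD_split 1 (by decide +kernel) D6_c0_t1 D6_c0_t4

end Pool.Agent.helper14.NR.E6a
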