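import Pool.Agent.helper14.NR.E6a.PZ

/-!
Generated: certificates.
-/

namespace Pool.Agent.helper14.NR.E6a

open Pool.Agent.helper31.IA (Z)
open Pool.Agent.helper31.IX (Op XOps runX Cov CovD cov_split covD_split)
open Pool.Agent.helper31.IC (TD)
open Pool.Agent.helper63.RG (reloc)
open Pool.Agent.helper63.NF hiding TD
open Pool.Agent.helper14.CF (xE covD_E)
open Pool.Agent.helper14.NR (share)

mutual
theorem Z_c0_t7 : CovD 1 gZ [(154618822656, 17179869184), (17179869184, 17179869184), (87616520192, 32641777664)] :=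
  covD_E kZ_eq (.n 2 (.n 1 (.n 2 (.l 0) (.l 0)) (.n 2 (.l 0) (.l 0))) (.n 0 (.n 2 (.l 0) (.l 0)) (.n 2 (.l 0) (.l 0))))
    [(154618822656, 17179869184), (17179869184, 17179869184), (87616520192, 32641777664)] rfl (by decide +kernel)
theorem Z_c0_t9 : CovD 1 gZ [(146028888064, 8589934592), (17179869184, 17179869184), (152900075520, 32641777664)] :=
  covD_E kZ_eq (.n 0 (.n 2 (.n 2 (.l 0) (.l 0)) (.n 1 (.n 2 (.l 0) (.l 0)) (.n 2 (.l 0) (.l 0)))) (.n 2 (.n 2 (.l 0) (.l 0)) (.n 2 (.l 0) (.l 0))))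
    [(146028888064, 8589934592), (17179869184, 17179869184), (152900075520, 32641777664)] rfl (by decide +kernel)
end

mutual
theorem Z_c0_t10 : CovD 1 gZ [(163208757248, 8589934592), (17179869184, 17179869184), (152900075520, 32641777664)] :=
  covD_E kZ_eq (.n 2 (.n 2 (.l 0) (.n 0 (.l 0) (.l 0))) (.n 0 (.n 2 (.l 0) (.l 0)) (.n 2 (.l 0) (.l 0))))
    [(163208757248, 8589934592), (17179869184, 17179869184), (152900075520, 32641777664)] rfl (by decide +kernel)
theorem Z_c0_t13 : CovD 1 gZ [(146028888064, 8589934592), (17179869184, 17179869184), (218183630848, 32641777664)] :=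
  covD_E kZ_eq (.n 1 (.n 2 (.n 2 (.n 2 (.l 0) (.l 0)) (.n 2 (.l 0) (.l 0))) (.n 0 (.n 0 (.n 2 (.l 0) (.l 0)) (.n 2 (.l 0) (.l 0))) (.n 2 (.l 0) (.l 0)))) (.n 2 (.n 2 (.l 0) (.l 0)) (.n 2 (.l 0) (.l 0))))
    [(146028888064, 8589934592), (17179869184, 17179869184), (218183630848, 32641777664)] rfl (by decide +kernel)
end

mutual
theorem Z_c0_t14 : CovD 1 gZ [(146028888064, 8589934592), (17179869184, 17179869184), (283467186176, 32641777664)] :=
  covD_E kZ_eq (.n 0 (.n 2 (.n 1 (.n 2 (.l 0) (.l 0)) (.n 0 (.l 0) (.l 0))) (.n 2 (.l 0) (.l 0))) (.n 2 (.n 2 (.l 0) (.l 0)) (.n 2 (.l 0) (.l 0))))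
    [(146028888064, 8589934592), (17179869184, 17179869184), (283467186176, 32641777664)] rfl (by decide +kernel)
theorem Z_c0_t16 : CovD 1 gZ [(158913789952, 4294967296), (17179869184, 17179869184), (250825408512, 65283555328)] :=
  covD_E kZ_eq (.n 2 (.n 2 (.n 2 (.l 0) (.n 0 (.l 0) (.l 0))) (.n 2 (.n 0 (.l 0) (.l 0)) (.l 0))) (.n 2 (.n 2 (.l 0) (.l 0)) (.n 2 (.l 0) (.l 0))))
    [(158913789952, 4294967296), (17179869184, 17179869184), (250825408512, 65283555328)] rfl (by decide +kernel)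
end

mutual
theorem Z_c0_t17 : CovD 1 gZ [(167503724544, 4294967296), (17179869184, 17179869184), (250825408512, 65283555328)] :=
  covD_E kZ_eq (.n 2 (.n 2 (.n 2 (.l 0) (.l 0)) (.n 2 (.l 0) (.l 0))) (.n 2 (.n 2 (.l 0) (.l 0)) (.n 1 (.l 0) (.l 0))))
    [(167503724544, 4294967296), (17179869184, 17179869184), (250825408512, 65283555328)] rfl (by decide +kernel)
theorem Z_c0_t19 : CovD 1 gZ [(154618822656, 17179869184), (51539607552, 17179869184), (120258297856, 65283555328)] :=
  covD_E kZ_eq (.n 2 (.n 1 (.n 2 (.n 2 (.l 0) (.l 0)) (.n 2 (.l 0) (.l 0))) (.n 2 (.n 2 (.l 0) (.l 0)) (.n 2 (.l 0) (.l 0)))) (.n 0 (.n 2 (.n 2 (.l 0) (.l 0)) (.n 2 (.l 0) (.l 0))) (.n 2 (.n 2 (.l 0) (.l 0)) (.n 2 (.l 0) (.l 0)))))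
    [(154618822656, 17179869184), (51539607552, 17179869184), (120258297856, 65283555328)] rfl (by decide +kernel)
end

mutual
theorem Z_c0_t20 : CovD 1 gZ [(154618822656, 17179869184), (51539607552, 17179869184), (250825408512, 65283555328)] :=
  covD_E kZ_eq (.n 0 (.n 2 (.n 2 (.n 2 (.l 0) (.l 0)) (.n 2 (.l 0) (.l 0))) (.n 0 (.n 2 (.l 0) (.l 0)) (.n 2 (.l 0) (.l 0)))) (.n 2 (.n 2 (.n 2 (.l 0) (.l 0)) (.n 2 (.l 0) (.l 0))) (.n 0 (.n 2 (.l 0) (.l 0)) (.n 2 (.l 0) (.l 0)))))
    [(154618822656, 17179869184), (51539607552, 17179869184), (250825408512, 65283555328)] rfl (by decide +kernel)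
theorem Z_c0_t23 : CovD 1 gZ [(146028888064, 8589934592), (17179869184, 17179869184), (446676074496, 130567110656)] :=
  covD_E kZ_eq (.n 2 (.n 2 (.n 2 (.n 1 (.n 0 (.l 0) (.l 0)) (.l 0)) (.n 0 (.l 0) (.l 0))) (.n 2 (.n 0 (.l 0) (.l 0)) (.l 0))) (.n 0 (.n 2 (.l 0) (.l 0)) (.n 2 (.l 0) (.l 0))))
    [(146028888064, 8589934592), (17179869184, 17179869184), (446676074496, 130567110656)] rfl (by decide +kernel)
end

mutual
theorem Z_c0_t24 : CovD 1 gZ [(146028888064, 8589934592), (51539607552, 17179869184), (446676074496, 130567110656)] :=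
  covD_E kZ_eq (.n 2 (.n 2 (.n 2 (.l 0) (.l 0)) (.n 2 (.l 0) (.l 0))) (.n 2 (.n 0 (.l 0) (.l 0)) (.l 0)))
    [(146028888064, 8589934592), (51539607552, 17179869184), (446676074496, 130567110656)] rfl (by decide +kernel)
theorem Z_c0_t25 : CovD 1 gZ [(163208757248, 8589934592), (34359738368, 34359738368), (446676074496, 130567110656)] :=
  covD_E kZ_eq (.n 2 (.n 1 (.n 2 (.n 0 (.n 2 (.l 0) (.l 0)) (.n 2 (.l 0) (.l 0))) (.n 2 (.l 0) (.l 0))) (.n 2 (.n 2 (.l 0) (.l 0)) (.n 0 (.l 0) (.l 0)))) (.n 2 (.n 0 (.n 1 (.l 0) (.l 0)) (.n 1 (.l 0) (.l 0))) (.n 2 (.l 0) (.l 0))))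
    [(163208757248, 8589934592), (34359738368, 34359738368), (446676074496, 130567110656)] rfl (by decide +kernel)
end

mutual
theorem Z_c0_t27 : CovD 1 gZ [(146028888064, 8589934592), (34359738368, 34359738368), (838377406464, 261134221312)] :=
  covD_E kZ_eq (.n 2 (.n 2 (.n 0 (.n 2 (.l 0) (.l 0)) (.n 2 (.l 0) (.l 0))) (.n 2 (.l 0) (.l 0))) (.n 2 (.n 2 (.l 0) (.l 0)) (.n 0 (.l 0) (.l 0))))
    [(146028888064, 8589934592), (34359738368, 34359738368), (838377406464, 261134221312)] rfl (by decide +kernel)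
theorem Z_c0_t28 : CovD 1 gZ [(163208757248, 8589934592), (34359738368, 34359738368), (838377406464, 261134221312)] :=
  covD_E kZ_eq (.n 2 (.n 2 (.n 0 (.n 2 (.l 0) (.l 0)) (.n 2 (.l 0) (.l 0))) (.n 2 (.l 0) (.l 0))) (.n 0 (.n 2 (.l 0) (.l 0)) (.n 2 (.l 0) (.l 0))))
    [(163208757248, 8589934592), (34359738368, 34359738368), (838377406464, 261134221312)] rfl (by decide +kernel)
end

mutual
theorem Z_c0_t33 : CovD 1 gZ [(146028888064, 8589934592), (85899345920, 17179869184), (185541853184, 130567110656)] :=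
  covD_E kZ_eq (.n 2 (.n 2 (.n 2 (.n 2 (.l 0) (.l 0)) (.n 1 (.l 0) (.l 0))) (.n 1 (.n 2 (.l 0) (.l 0)) (.n 2 (.l 0) (.l 0)))) (.n 2 (.n 0 (.n 2 (.l 0) (.l 0)) (.n 2 (.l 0) (.l 0))) (.n 2 (.l 0) (.l 0))))
    [(146028888064, 8589934592), (85899345920, 17179869184), (185541853184, 130567110656)] rfl (by decide +kernel)
theorem Z_c0_t34 : CovD 1 gZ [(146028888064, 8589934592), (120259084288, 17179869184), (185541853184, 130567110656)] :=
  covD_E kZ_eq (.n 2 (.n 1 (.n 2 (.n 2 (.l 0) (.l 0)) (.n 2 (.l 0) (.l 0))) (.n 2 (.n 2 (.l 0) (.l 0)) (.n 2 (.l 0) (.l 0)))) (.n 2 (.n 2 (.l 0) (.l 0)) (.n 2 (.l 0) (.l 0))))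
    [(146028888064, 8589934592), (120259084288, 17179869184), (185541853184, 130567110656)] rfl (by decide +kernel)
end

mutual
theorem Z_c0_t35 : CovD 1 gZ [(146028888064, 8589934592), (103079215104, 34359738368), (446676074496, 130567110656)] :=
  covD_E kZ_eq (.n 2 (.n 2 (.n 2 (.n 0 (.l 0) (.l 0)) (.l 0)) (.n 2 (.l 0) (.l 0))) (.n 0 (.n 2 (.l 0) (.l 0)) (.n 2 (.l 0) (.l 0))))
    [(146028888064, 8589934592), (103079215104, 34359738368), (446676074496, 130567110656)] rfl (by decide +kernel)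
theorem Z_c0_t36 : CovD 1 gZ [(146028888064, 8589934592), (103079215104, 34359738368), (838377406464, 261134221312)] :=
  covD_E kZ_eq (.n 2 (.n 2 (.n 2 (.l 0) (.l 0)) (.n 0 (.l 0) (.l 0))) (.n 0 (.n 2 (.l 0) (.l 0)) (.n 2 (.l 0) (.l 0))))
    [(146028888064, 8589934592), (103079215104, 34359738368), (838377406464, 261134221312)] rfl (by decide +kernel)
end

mutual
theorem Z_c0_t40 : CovD 1 gZ [(163208757248, 8589934592), (85899345920, 17179869184), (185541853184, 130567110656)] :=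
  covD_E kZ_eq (.n 2 (.n 2 (.n 2 (.n 2 (.l 0) (.l 0)) (.n 2 (.l 0) (.l 0))) (.n 2 (.n 2 (.l 0) (.l 0)) (.n 0 (.l 0) (.l 0)))) (.n 2 (.n 0 (.n 2 (.l 0) (.l 0)) (.n 2 (.l 0) (.l 0))) (.n 2 (.l 0) (.l 0))))
    [(163208757248, 8589934592), (85899345920, 17179869184), (185541853184, 130567110656)] rfl (by decide +kernel)
theorem Z_c0_t41 : CovD 1 gZ [(163208757248, 8589934592), (120259084288, 17179869184), (185541853184, 130567110656)] :=
  covD_E kZ_eq (.n 2 (.n 2 (.n 2 (.n 2 (.l 0) (.l 0)) (.n 1 (.l 0) (.l 0))) (.n 0 (.n 2 (.l 0) (.l 0)) (.n 2 (.l 0) (.l 0)))) (.n 2 (.n 2 (.l 0) (.l 0)) (.n 2 (.l 0) (.l 0))))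
    [(163208757248, 8589934592), (120259084288, 17179869184), (185541853184, 130567110656)] rfl (by decide +kernel)
end

mutual
theorem Z_c0_t42 : CovD 1 gZ [(163208757248, 8589934592), (103079215104, 34359738368), (446676074496, 130567110656)] :=
  covD_E kZ_eq (.n 2 (.n 2 (.n 2 (.n 0 (.l 0) (.l 0)) (.l 0)) (.n 2 (.l 0) (.l 0))) (.n 2 (.n 0 (.l 0) (.l 0)) (.l 0)))
    [(163208757248, 8589934592), (103079215104, 34359738368), (446676074496, 130567110656)] rfl (by decide +kernel)
theorem Z_c0_t43 : CovD 1 gZ [(163208757248, 8589934592), (103079215104, 34359738368), (838377406464, 261134221312)] :=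
  covD_E kZ_eq (.n 2 (.n 2 (.n 2 (.l 0) (.l 0)) (.n 0 (.l 0) (.l 0))) (.n 0 (.n 2 (.l 0) (.l 0)) (.n 2 (.l 0) (.l 0))))
    [(163208757248, 8589934592), (103079215104, 34359738368), (838377406464, 261134221312)] rfl (by decide +kernel)
end

mutual
theorem Z_c0_t49 : CovD 1 gZ [(146028888064, 8589934592), (171798691840, 34359738368), (120258297856, 65283555328)] :=
  covD_E kZ_eq (.n 1 (.n 2 (.n 0 (.n 2 (.l 0) (.l 0)) (.n 2 (.l 0) (.l 0))) (.n 2 (.l 0) (.l 0))) (.n 2 (.n 2 (.n 0 (.l 0) (.l 0)) (.l 0)) (.n 2 (.l 0) (.l 0))))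
    [(146028888064, 8589934592), (171798691840, 34359738368), (120258297856, 65283555328)] rfl (by decide +kernel)
theorem Z_c0_t50 : CovD 1 gZ [(146028888064, 8589934592), (171798691840, 34359738368), (250825408512, 65283555328)] :=
  covD_E kZ_eq (.n 2 (.n 1 (.n 2 (.l 0) (.l 0)) (.n 2 (.l 0) (.l 0))) (.n 2 (.n 0 (.l 0) (.l 0)) (.l 0)))
    [(146028888064, 8589934592), (171798691840, 34359738368), (250825408512, 65283555328)] rfl (by decide +kernel)
end

mutual
theorem Z_c0_t51 : CovD 1 gZ [(146028888064, 8589934592), (171798691840, 34359738368), (446676074496, 130567110656)] :=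
  covD_E kZ_eq (.n 2 (.n 2 (.n 2 (.l 0) (.l 0)) (.n 1 (.l 0) (.l 0))) (.n 0 (.n 2 (.l 0) (.l 0)) (.n 2 (.l 0) (.l 0))))
    [(146028888064, 8589934592), (171798691840, 34359738368), (446676074496, 130567110656)] rfl (by decide +kernel)
theorem Z_c0_t52 : CovD 1 gZ [(146028888064, 8589934592), (171798691840, 34359738368), (838377406464, 261134221312)] :=
  covD_E kZ_eq (.n 2 (.n 2 (.n 2 (.l 0) (.l 0)) (.n 2 (.l 0) (.l 0))) (.n 0 (.n 2 (.l 0) (.l 0)) (.n 2 (.l 0) (.l 0))))
    [(146028888064, 8589934592), (171798691840, 34359738368), (838377406464, 261134221312)] rfl (by decide +kernel)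
end

mutual
theorem Z_c0_t55 : CovD 1 gZ [(146028888064, 8589934592), (240518168576, 34359738368), (185541853184, 130567110656)] :=
  covD_E kZ_eq (.n 1 (.n 2 (.n 2 (.n 2 (.l 0) (.l 0)) (.n 2 (.l 0) (.l 0))) (.n 0 (.n 2 (.l 0) (.l 0)) (.n 2 (.l 0) (.l 0)))) (.n 2 (.n 2 (.n 2 (.l 0) (.l 0)) (.n 2 (.l 0) (.l 0))) (.n 0 (.n 2 (.l 0) (.l 0)) (.n 2 (.l 0) (.l 0)))))
    [(146028888064, 8589934592), (240518168576, 34359738368), (185541853184, 130567110656)] rfl (by decide +kernel)
theorem Z_c0_t56 : CovD 1 gZ [(146028888064, 8589934592), (240518168576, 34359738368), (446676074496, 130567110656)] :=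
  covD_E kZ_eq (.n 2 (.n 2 (.n 2 (.l 0) (.l 0)) (.n 1 (.l 0) (.l 0))) (.n 1 (.n 2 (.l 0) (.l 0)) (.n 2 (.l 0) (.l 0))))
    [(146028888064, 8589934592), (240518168576, 34359738368), (446676074496, 130567110656)] rfl (by decide +kernel)
end

mutual
theorem Z_c0_t57 : CovD 1 gZ [(146028888064, 8589934592), (240518168576, 34359738368), (838377406464, 261134221312)] :=
  covD_E kZ_eq (.n 2 (.n 2 (.n 0 (.n 2 (.l 0) (.l 0)) (.n 2 (.l 0) (.l 0))) (.n 2 (.n 0 (.l 0) (.l 0)) (.l 0))) (.n 2 (.n 2 (.l 0) (.l 0)) (.n 0 (.l 0) (.l 0))))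
    [(146028888064, 8589934592), (240518168576, 34359738368), (838377406464, 261134221312)] rfl (by decide +kernel)
theorem Z_c0_t62 : CovD 1 gZ [(163208757248, 8589934592), (154618822656, 17179869184), (185541853184, 130567110656)] :=
  covD_E kZ_eq (.n 2 (.n 2 (.n 1 (.n 2 (.l 0) (.l 0)) (.n 2 (.l 0) (.l 0))) (.n 2 (.l 0) (.l 0))) (.n 2 (.n 2 (.l 0) (.l 0)) (.n 2 (.l 0) (.l 0))))
    [(163208757248, 8589934592), (154618822656, 17179869184), (185541853184, 130567110656)] rfl (by decide +kernel)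
end

mutual
theorem Z_c0_t63 : CovD 1 gZ [(163208757248, 8589934592), (188978561024, 17179869184), (185541853184, 130567110656)] :=
  covD_E kZ_eq (.n 2 (.n 2 (.n 2 (.n 0 (.l 0) (.l 0)) (.l 0)) (.n 2 (.l 0) (.l 0))) (.n 2 (.n 2 (.l 0) (.l 0)) (.n 0 (.l 0) (.l 0))))
    [(163208757248, 8589934592), (188978561024, 17179869184), (185541853184, 130567110656)] rfl (by decide +kernel)
theorem Z_c0_t64 : CovD 1 gZ [(163208757248, 8589934592), (171798691840, 34359738368), (446676074496, 130567110656)] :=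
  covD_E kZ_eq (.n 2 (.n 2 (.n 2 (.l 0) (.l 0)) (.n 1 (.l 0) (.l 0))) (.n 0 (.n 2 (.l 0) (.l 0)) (.n 2 (.l 0) (.l 0))))
    [(163208757248, 8589934592), (171798691840, 34359738368), (446676074496, 130567110656)] rfl (by decide +kernel)
end

mutual
theorem Z_c0_t65 : CovD 1 gZ [(163208757248, 8589934592), (171798691840, 34359738368), (838377406464, 261134221312)] :=
  covD_E kZ_eq (.n 2 (.n 2 (.n 2 (.l 0) (.l 0)) (.n 2 (.l 0) (.l 0))) (.n 0 (.n 2 (.l 0) (.l 0)) (.n 2 (.l 0) (.l 0))))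
    [(163208757248, 8589934592), (171798691840, 34359738368), (838377406464, 261134221312)] rfl (by decide +kernel)
theorem Z_c0_t68 : CovD 1 gZ [(163208757248, 8589934592), (223338299392, 17179869184), (316108963840, 261134221312)] :=
  covD_E kZ_eq (.n 2 (.n 2 (.n 2 (.n 2 (.l 0) (.l 0)) (.n 2 (.l 0) (.l 0))) (.n 2 (.n 2 (.l 0) (.l 0)) (.n 0 (.l 0) (.l 0)))) (.n 2 (.n 2 (.l 0) (.l 0)) (.n 2 (.l 0) (.l 0))))
    [(163208757248, 8589934592), (223338299392, 17179869184), (316108963840, 261134221312)] rfl (by decide +kernel)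
end

mutual
theorem Z_c0_t69 : CovD 1 gZ [(163208757248, 8589934592), (257698037760, 17179869184), (316108963840, 261134221312)] :=
  covD_E kZ_eq (.n 2 (.n 2 (.n 2 (.n 2 (.l 0) (.l 0)) (.n 2 (.l 0) (.l 0))) (.n 0 (.n 2 (.l 0) (.l 0)) (.n 2 (.l 0) (.l 0)))) (.n 2 (.n 2 (.n 0 (.l 0) (.l 0)) (.l 0)) (.n 2 (.l 0) (.l 0))))
    [(163208757248, 8589934592), (257698037760, 17179869184), (316108963840, 261134221312)] rfl (by decide +kernel)
theorem Z_c0_t70 : CovD 1 gZ [(163208757248, 8589934592), (240518168576, 34359738368), (838377406464, 261134221312)] :=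
  covD_E kZ_eq (.n 2 (.n 2 (.n 0 (.n 2 (.l 0) (.l 0)) (.n 2 (.l 0) (.l 0))) (.n 2 (.l 0) (.l 0))) (.n 0 (.n 2 (.l 0) (.l 0)) (.n 2 (.l 0) (.l 0))))
    [(163208757248, 8589934592), (240518168576, 34359738368), (838377406464, 261134221312)] rfl (by decide +kernel)
end

mutual
theorem T_c0 : CovD 1 gT [(154618822656, 17179869184), (137438953472, 137438953472)] :=
  covD_E kT_eq (.l 0)
    [(154618822656, 17179869184), (137438953472, 137438953472)] rfl (by decide +kernel)
theorem S_c0 : CovD 0 gS [(154618822656, 17179869184), (137438953472, 137438953472)] :=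
  covD_E kS_eq (.n 1 (.l 0) (.l 0))
    [(154618822656, 17179869184), (137438953472, 137438953472)] rfl (by decide +kernel)
end

theorem Z_c0_t8 : CovD 1 gZ [(154618822656, 17179869184), (17179869184, 17179869184), (152900075520, 32641777664)] :=
  covD_split 0 (by decide +kernel) Z_c0_t9 Z_c0_t10

theorem Z_c0_t6 : CovD 1 gZ [(154618822656, 17179869184), (17179869184, 17179869184), (120258297856, 65283555328)] :=
  covD_split 2 (by decide +kernel) Z_c0_t7 Z_c0_t8

theorem Z_c0_t12 : CovD 1 gZ [(146028888064, 8589934592), (17179869184, 17179869184), (250825408512, 65283555328)] :=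
  covD_split 2 (by decide +kernel) Z_c0_t13 Z_c0_t14

theorem Z_c0_t15 : CovD 1 gZ [(163208757248, 8589934592), (17179869184, 17179869184), (250825408512, 65283555328)] :=
  covD_split 0 (by decide +kernel) Z_c0_t16 Z_c0_t17

theorem Z_c0_t11 : CovD 1 gZ [(154618822656, 17179869184), (17179869184, 17179869184), (250825408512, 65283555328)] :=
  covD_split 0 (by decide +kernel) Z_c0_t12 Z_c0_t15

theorem Z_c0_t5 : CovD 1 gZ [(154618822656, 17179869184), (17179869184, 17179869184), (185541853184, 130567110656)] :=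
  covD_split 2 (by decide +kernel) Z_c0_t6 Z_c0_t11

theorem Z_c0_t18 : CovD 1 gZ [(154618822656, 17179869184), (51539607552, 17179869184), (185541853184, 130567110656)] :=
  covD_split 2 (by decide +kernel) Z_c0_t19 Z_c0_t20

theorem Z_c0_t4 : CovD 1 gZ [(154618822656, 17179869184), (34359738368, 34359738368), (185541853184, 130567110656)] :=
  covD_split 1 (by decide +kernel) Z_c0_t5 Z_c0_t18

theorem Z_c0_t22 : CovD 1 gZ [(146028888064, 8589934592), (34359738368, 34359738368), (446676074496, 130567110656)] :=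
  covD_split 1 (by decide +kernel) Z_c0_t23 Z_c0_t24

theorem Z_c0_t21 : CovD 1 gZ [(154618822656, 17179869184), (34359738368, 34359738368), (446676074496, 130567110656)] :=
  covD_split 0 (by decide +kernel) Z_c0_t22 Z_c0_t25

theorem Z_c0_t3 : CovD 1 gZ [(154618822656, 17179869184), (34359738368, 34359738368), (316108963840, 261134221312)] :=
  covD_split 2 (by decide +kernel) Z_c0_t4 Z_c0_t21

theorem Z_c0_t26 : CovD 1 gZ [(154618822656, 17179869184), (34359738368, 34359738368), (838377406464, 261134221312)] :=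
  covD_split 0 (by decide +kernel) Z_c0_t27 Z_c0_t28

theorem Z_c0_t2 : CovD 1 gZ [(154618822656, 17179869184), (34359738368, 34359738368), (577243185152, 522268442624)] :=
  covD_split 2 (by decide +kernel) Z_c0_t3 Z_c0_t26

theorem Z_c0_t32 : CovD 1 gZ [(146028888064, 8589934592), (103079215104, 34359738368), (185541853184, 130567110656)] :=
  covD_split 1 (by decide +kernel) Z_c0_t33 Z_c0_t34

theorem Z_c0_t31 : CovD 1 gZ [(146028888064, 8589934592), (103079215104, 34359738368), (316108963840, 261134221312)] :=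
  covD_split 2 (by decide +kernel) Z_c0_t32 Z_c0_t35

theorem Z_c0_t30 : CovD 1 gZ [(146028888064, 8589934592), (103079215104, 34359738368), (577243185152, 522268442624)] :=
  covD_split 2 (by decide +kernel) Z_c0_t31 Z_c0_t36

theorem Z_c0_t39 : CovD 1 gZ [(163208757248, 8589934592), (103079215104, 34359738368), (185541853184, 130567110656)] :=
  covD_split 1 (by decide +kernel) Z_c0_t40 Z_c0_t41

theorem Z_c0_t38 : CovD 1 gZ [(163208757248, 8589934592), (103079215104, 34359738368), (316108963840, 261134221312)] :=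
  covD_split 2 (by decide +kernel) Z_c0_t39 Z_c0_t42

theorem Z_c0_t37 : CovD 1 gZ [(163208757248, 8589934592), (103079215104, 34359738368), (577243185152, 522268442624)] :=
  covD_split 2 (by decide +kernel) Z_c0_t38 Z_c0_t43

theorem Z_c0_t29 : CovD 1 gZ [(154618822656, 17179869184), (103079215104, 34359738368), (577243185152, 522268442624)] :=
  covD_split 0 (by decide +kernel) Z_c0_t30 Z_c0_t37

theorem Z_c0_t1 : CovD 1 gZ [(154618822656, 17179869184), (68719476736, 68719476736), (577243185152, 522268442624)] :=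
  covD_split 1 (by decide +kernel) Z_c0_t2 Z_c0_t29

theorem Z_c0_t48 : CovD 1 gZ [(146028888064, 8589934592), (171798691840, 34359738368), (185541853184, 130567110656)] :=
  covD_split 2 (by decide +kernel) Z_c0_t49 Z_c0_t50

theorem Z_c0_t47 : CovD 1 gZ [(146028888064, 8589934592), (171798691840, 34359738368), (316108963840, 261134221312)] :=
  covD_split 2 (by decide +kernel) Z_c0_t48 Z_c0_t51

theorem Z_c0_t46 : CovD 1 gZ [(146028888064, 8589934592), (171798691840, 34359738368), (577243185152, 522268442624)] :=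
  covD_split 2 (by decide +kernel) Z_c0_t47 Z_c0_t52

theorem Z_c0_t54 : CovD 1 gZ [(146028888064, 8589934592), (240518168576, 34359738368), (316108963840, 261134221312)] :=
  covD_split 2 (by decide +kernel) Z_c0_t55 Z_c0_t56

theorem Z_c0_t53 : CovD 1 gZ [(146028888064, 8589934592), (240518168576, 34359738368), (577243185152, 522268442624)] :=
  covD_split 2 (by decide +kernel) Z_c0_t54 Z_c0_t57

theorem Z_c0_t45 : CovD 1 gZ [(146028888064, 8589934592), (206158430208, 68719476736), (577243185152, 522268442624)] :=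
  covD_split 1 (by decide +kernel) Z_c0_t46 Z_c0_t53

theorem Z_c0_t61 : CovD 1 gZ [(163208757248, 8589934592), (171798691840, 34359738368), (185541853184, 130567110656)] :=
  covD_split 1 (by decide +kernel) Z_c0_t62 Z_c0_t63

theorem Z_c0_t60 : CovD 1 gZ [(163208757248, 8589934592), (171798691840, 34359738368), (316108963840, 261134221312)] :=
  covD_split 2 (by decide +kernel) Z_c0_t61 Z_c0_t64

theorem Z_c0_t59 : CovD 1 gZ [(163208757248, 8589934592), (171798691840, 34359738368), (577243185152, 522268442624)] :=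
  covD_split 2 (by decide +kernel) Z_c0_t60 Z_c0_t65

theorem Z_c0_t67 : CovD 1 gZ [(163208757248, 8589934592), (240518168576, 34359738368), (316108963840, 261134221312)] :=
  covD_split 1 (by decide +kernel) Z_c0_t68 Z_c0_t69

theorem Z_c0_t66 : CovD 1 gZ [(163208757248, 8589934592), (240518168576, 34359738368), (577243185152, 522268442624)] :=
  covD_split 2 (by decide +kernel) Z_c0_t67 Z_c0_t70

theorem Z_c0_t58 : CovD 1 gZ [(163208757248, 8589934592), (206158430208, 68719476736), (577243185152, 522268442624)] :=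
  covD_split 1 (by decide +kernel) Z_c0_t59 Z_c0_t66

theorem Z_c0_t44 : CovD 1 gZ [(154618822656, 17179869184), (206158430208, 68719476736), (577243185152, 522268442624)] :=
  covD_split 0 (by decide +kernel) Z_c0_t45 Z_c0_t58

theorem Z_c0 : CovD 1 gZ [(154618822656, 17179869184), (137438953472, 137438953472), (577243185152, 522268442624)] :=
  covD_split 1 (by decide +kernel) Z_c0_t1 Z_c0_t44

end Pool.Agent.helper14.NR.E6a
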